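import Pool.Agent.Q280.PfCheb

set_option autoImplicit false

namespace Pool.Agent.Q280.FourPfaffiansWithdrawn

open Polynomial Finset
open Pool.Agent.Q280.Pf Pool.Agent.Q280.PfL Pool.Agent.Q280.PfCheb

/-- The Pfaffian of a `2n × 2n` matrix (for skew-symmetric matrices):
`1/(2^n n!) ∑_σ sgn(σ) ∏_{i=1}^n a_{σ(2i-1) σ(2i)}`; the indices `1, ..., 2n` are shifted to
`0, ..., 2n-1`. -/
noncomputable def pf {K : Type*} [CommRing K] [Algebra ℚ K] {n : ℕ}
    (A : Matrix (Fin (2 * n)) (Fin (2 * n)) K) : K :=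
  (1 / (2 ^ n * (n.factorial : ℚ)) : ℚ) • ∑ σ : Equiv.Perm (Fin (2 * n)),
    ((Equiv.Perm.sign σ : ℤ) : K) * ∏ i : Fin n,
      A (σ ⟨2 * (i : ℕ), by have := i.isLt; omega⟩) (σ ⟨2 * (i : ℕ) + 1, by have := i.isLt; omega⟩)

/-- The matrix `((j - i) x_{i+j-s})_{1 ≤ i, j ≤ 2n}` (the row with index `i : Fin (2n)` is row
number `i + 1`); `s ≤ 3` in all applications and the `(1,1)` entry is `0`. -/
def mat {K : Type*} [CommRing K] (x : ℕ → K) (s n : ℕ) : Matrix (Fin (2 * n)) (Fin (2 * n)) K :=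
  fun i j => ((((j : ℕ) + 1 : ℕ) : K) - (((i : ℕ) + 1 : ℕ) : K)) * x (((i : ℕ) + 1) + ((j : ℕ) + 1) - s)

/-- Catalan numbers -/
def Cat (k : ℕ) : ℚ := 1 / ((k : ℚ) + 1) * ((2 * k).choose k : ℚ)

/-- Motzkin numbers -/
def Mot (n : ℕ) : ℚ := ∑ k ∈ range (n + 1), (n.choose (2 * k) : ℚ) * Cat k

/-- central Delannoy numbers -/
def Del (n : ℕ) : ℚ := ∑ k ∈ range (n + 1), (n.choose k : ℚ) * ((n + k).choose k : ℚ)

/-- (large) Schröder numbers -/
def Sch (n : ℕ) : ℚ := ∑ k ∈ range (n + 1), ((n + k).choose (2 * k) : ℚ) * Cat k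

/-- Narayana polynomials `N_n(a)`, the variable `a` being `X` -/
noncomputable def Nar (n : ℕ) : ℚ[X] :=
  if n = 0 then 1 else ∑ k ∈ range (n + 1),
    C (1 / (n : ℚ) * (n.choose k : ℚ) * (if k = 0 then 0 else (n.choose (k - 1) : ℚ))) * X ^ k

section general

variable {R : Type*} [CommRing R]

theorem pf_eq {K : Type*} [CommRing K] [Algebra ℚ K] {n : ℕ} (A : Matrix (Fin (2 * n)) (Fin (2 * n)) K) :
    pf A = (1 / (2 ^ n * (n.factorial : ℚ)) : ℚ) • P (A.submatrix (eqv n) (eqv n)) := by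
  unfold pf P
  congr 1
  rw [← Equiv.sum_comp (eqv n).permCongr]
  refine Finset.sum_congr rfl fun τ _ => ?_
  rw [Equiv.Perm.sign_permCongr]
  congr 1
  refine Finset.prod_congr rfl fun i _ => ?_
  have e0 : (⟨2 * (i : ℕ), by have := i.isLt; omega⟩ : Fin (2 * n)) = eqv n (i, 0) := by
    apply Fin.ext; rw [eqv_val]; simp [idx]
  have e1 : (⟨2 * (i : ℕ) + 1, by have := i.isLt; omega⟩ : Fin (2 * n)) = eqv n (i, 1) := by
    apply Fin.ext; rw [eqv_val]; simp [idx]
  rw [e0, e1]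
  simp [Equiv.permCongr_apply, Matrix.submatrix_apply]

theorem pf_of_P {K : Type*} [CommRing K] [Algebra ℚ K] {n : ℕ}
    (A : Matrix (Fin (2 * n)) (Fin (2 * n)) K) (v : K)
    (h : P (A.submatrix (eqv n) (eqv n)) = 2 ^ n * (n.factorial : K) * v) : pf A = v := by
  rw [pf_eq, h]
  have h1 : (2 : K) ^ n * (n.factorial : K) * v = ((2 ^ n * (n.factorial : ℚ)) : ℚ) • v := by
    rw [Algebra.smul_def]; simp only [map_mul, map_pow, map_ofNat, map_natCast]
  rw [h1, smul_smul]
  have h2 : (1 / (2 ^ n * (n.factorial : ℚ)) : ℚ) * (2 ^ n * (n.factorial : ℚ)) = 1 := by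
    have : (2 ^ n * (n.factorial : ℚ)) ≠ 0 := by positivity
    field_simp
  rw [h2, one_smul]

theorem Lf_shift (m : ℕ → R) (c : R) (k : ℕ) :
    Lf m ((X + C c) ^ k) = ∑ i ∈ range (k + 1), c ^ (k - i) * (k.choose i : R) * m i := by
  rw [add_pow, map_sum]
  refine Finset.sum_congr rfl fun i _ => ?_
  have : X ^ i * C c ^ (k - i) * ((k.choose i : ℕ) : R[X]) =
      monomial i (c ^ (k - i) * (k.choose i : R)) := by
    rw [← C_mul_X_pow_eq_monomial, ← C_eq_natCast]
    simp only [C_mul, C_pow]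
    ring
  rw [this, Lf_monomial]

theorem coeff_sq (a : R) (i l : ℕ) : ((X ^ 2 + C a) ^ i).coeff l =
    if 2 ∣ l then a ^ (i - l / 2) * (i.choose (l / 2) : R) else 0 := by
  have h : ((X : R[X]) ^ 2 + C a) ^ i = expand R 2 ((X + C a) ^ i) := by
    simp
  rw [h, coeff_expand (by norm_num)]
  split_ifs
  · rw [coeff_X_add_C_pow]
  · rfl

theorem coeff_quad (a c : R) (k t : ℕ) : ((X ^ 2 + C c * X + C a) ^ k).coeff (k + t) =
    ∑ i ∈ range (k + 1), c ^ (k - i) * (k.choose i : R) * ((X ^ 2 + C a) ^ i).coeff (i + t) := by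
  have h : (X : R[X]) ^ 2 + C c * X + C a = (X ^ 2 + C a) + C c * X := by ring
  rw [h, add_pow, finsetSum_coeff]
  refine Finset.sum_congr rfl fun i hi => ?_
  rw [mem_range] at hi
  have e : (X ^ 2 + C a) ^ i * (C c * X) ^ (k - i) * ((k.choose i : ℕ) : R[X]) =
      C (c ^ (k - i) * (k.choose i : R)) * ((X ^ 2 + C a) ^ i * X ^ (k - i)) := by
    rw [← C_eq_natCast]
    simp only [C_mul, C_pow]
    ring
  rw [e, coeff_C_mul, show k + t = (i + t) + (k - i) by omega, coeff_mul_X_pow]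

theorem coeff_T (a : R) (i : ℕ) : ((X ^ 2 + C a) ^ i).coeff (i + 0) = mT a i := by
  rw [coeff_sq, mT, add_zero]
  by_cases h : i % 2 = 0
  · rw [if_pos (by omega), if_pos h]
    rw [show i - i / 2 = i / 2 by omega]
  · rw [if_neg (by omega), if_neg h]

theorem coeff_U (a : R) (i : ℕ) :
    ((X ^ 2 + C a) ^ i).coeff (i + 0) - a * ((X ^ 2 + C a) ^ i).coeff (i + 2) = mU a i := by
  rw [coeff_sq, coeff_sq, mU, add_zero]
  by_cases h : i % 2 = 0
  · rw [if_pos (by omega), if_pos (by omega), if_pos h]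
    obtain ⟨j, rfl⟩ : ∃ j, i = 2 * j := ⟨i / 2, by omega⟩
    rw [show 2 * j / 2 = j by omega, show (2 * j + 2) / 2 = j + 1 by omega]
    rcases j with _ | j
    · simp [bal]
    · have h1 : (2 * (j + 1)).choose (j + 1 + 1) = (2 * (j + 1)).choose j :=
        Nat.choose_symm_of_eq_add (by omega)
      rw [h1, show 2 * (j + 1) - (j + 1) = j + 1 by omega,
        show 2 * (j + 1) - (j + 1 + 1) = j by omega]
      simp only [bal, Nat.add_eq_zero_iff, one_ne_zero, and_false, if_false, Nat.add_sub_cancel,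
        add_zero]
      push_cast
      ring
  · rw [if_neg (by omega), if_neg (by omega), if_neg h]; ring

theorem fun_T (a c : R) (k : ℕ) :
    Lf (mT a) ((X + C c) ^ k) = ((X ^ 2 + C c * X + C a) ^ k).coeff (k + 0) := by
  rw [Lf_shift, coeff_quad]
  refine Finset.sum_congr rfl fun i _ => ?_
  rw [coeff_T]

theorem fun_U (a c : R) (k : ℕ) :
    Lf (mU a) ((X + C c) ^ k) = ((X ^ 2 + C c * X + C a) ^ k).coeff (k + 0) -
      a * ((X ^ 2 + C c * X + C a) ^ k).coeff (k + 2) := by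
  rw [Lf_shift, coeff_quad, coeff_quad, Finset.mul_sum, ← Finset.sum_sub_distrib]
  refine Finset.sum_congr rfl fun i _ => ?_
  rw [← coeff_U]
  ring

theorem quad_fact (a : R) (k : ℕ) : ((X : R[X]) ^ 2 + C (1 + a) * X + C a) ^ k =
    (X + C 1) ^ k * (X + C a) ^ k := by
  rw [← mul_pow]
  congr 1
  simp only [C_add, C_1]
  ring

theorem coeff_k (a : R) (k : ℕ) : ((X ^ 2 + C (1 + a) * X + C a) ^ k).coeff (k + 0) =
    ∑ i ∈ range (k + 1), a ^ i * ((k.choose i : R) * (k.choose i : R)) := by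
  rw [quad_fact, coeff_mul, add_zero, Finset.Nat.sum_antidiagonal_eq_sum_range_succ_mk]
  refine Finset.sum_congr rfl fun i hi => ?_
  rw [mem_range] at hi
  simp only
  rw [coeff_X_add_C_pow, coeff_X_add_C_pow, Nat.choose_symm (by omega : i ≤ k),
    show k - (k - i) = i by omega, one_pow]
  ring

theorem coeff_k2 (a : R) (k : ℕ) : ((X ^ 2 + C (1 + a) * X + C a) ^ k).coeff (k + 2) =
    ∑ j ∈ range (k + 1), a ^ j * ((k.choose (j + 2) : R) * (k.choose j : R)) := by
  rw [quad_fact, coeff_mul, Finset.Nat.sum_antidiagonal_eq_sum_range_succ_mk,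
    Finset.sum_range_succ', Finset.sum_range_succ']
  simp only
  have h0 : ((X + C a) ^ k : R[X]).coeff (k + 2 - 0) = 0 := by
    rw [coeff_X_add_C_pow, Nat.choose_eq_zero_of_lt (by omega)]; simp
  have h1 : ((X + C a) ^ k : R[X]).coeff (k + 2 - (0 + 1)) = 0 := by
    rw [coeff_X_add_C_pow, Nat.choose_eq_zero_of_lt (by omega)]; simp
  rw [h0, h1, mul_zero, mul_zero, add_zero, add_zero]
  refine Finset.sum_congr rfl fun i hi => ?_
  rw [mem_range] at hi
  rw [coeff_X_add_C_pow, coeff_X_add_C_pow, show k + 2 - (i + 1 + 1) = k - i by omega,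
    Nat.choose_symm (by omega : i ≤ k), show k - (k - i) = i by omega, one_pow,
    show i + 1 + 1 = i + 2 by omega]
  ring

theorem nar_binom (k i : ℕ) (hi : i ≤ k) :
    1 / ((k : ℚ) + 1) * ((k + 1).choose (i + 1) : ℚ) * ((k + 1).choose i : ℚ) =
      (k.choose i : ℚ) * (k.choose i : ℚ) -
        (if i = 0 then 0 else (k.choose (i + 1) : ℚ) * (k.choose (i - 1) : ℚ)) := by
  rcases i with _ | i
  · simp
    field_simp
  · simp only [Nat.add_eq_zero_iff, one_ne_zero, and_false, if_false, Nat.add_sub_cancel]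
    rw [Nat.choose_succ_succ' k (i + 1), Nat.choose_succ_succ' k i]
    have h1 : (k.choose (i + 1) : ℚ) * (i + 1) = (k.choose i : ℚ) * (k - i) := by
      have := Nat.choose_succ_right_eq k i
      have h : ((k.choose (i + 1) * (i + 1) : ℕ) : ℚ) = ((k.choose i * (k - i) : ℕ) : ℚ) := by
        rw [this]
      rw [Nat.cast_mul, Nat.cast_mul, Nat.cast_sub (by omega)] at h
      push_cast at h; exact h
    have h2 : (k.choose (i + 1 + 1) : ℚ) * (i + 2) = (k.choose (i + 1) : ℚ) * (k - (i + 1)) := by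
      have := Nat.choose_succ_right_eq k (i + 1)
      have h : ((k.choose (i + 1 + 1) * (i + 1 + 1) : ℕ) : ℚ) =
        ((k.choose (i + 1) * (k - (i + 1)) : ℕ) : ℚ) := by rw [this]
      rw [Nat.cast_mul, Nat.cast_mul, Nat.cast_sub (by omega)] at h
      push_cast at h; linear_combination h
    push_cast
    set x := (k.choose i : ℚ)
    set y := (k.choose (i + 1) : ℚ)
    set z := (k.choose (i + 1 + 1) : ℚ)
    have hk : ((k : ℚ) + 1) ≠ 0 := by positivity
    have hki : ((k : ℚ) - i) ≠ 0 := by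
      have : (i : ℚ) + 1 ≤ k := by exact_mod_cast hi
      linarith
    have hi2 : ((i : ℚ) + 2) ≠ 0 := by positivity
    have hx : x = y * (i + 1) / (k - i) := by field_simp; linear_combination -h1
    have hz : z = y * (k - (i + 1)) / (i + 2) := by field_simp; linear_combination h2
    rw [hx, hz]
    field_simp
    ring

/-- the Narayana polynomial as a moment -/
theorem nar_fun [Algebra ℚ R] (a : R) (k : ℕ) :
    ∑ i ∈ range (k + 1 + 1), algebraMap ℚ R (1 / (((k + 1 : ℕ) : ℕ) : ℚ) * ((k + 1).choose i : ℚ) *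
      (if i = 0 then 0 else ((k + 1).choose (i - 1) : ℚ))) * a ^ i =
      a * Lf (mU a) ((X + C (1 + a)) ^ k) := by
  rw [fun_U, coeff_k, coeff_k2, Finset.sum_range_succ']
  simp only [if_true, mul_zero, map_zero, zero_mul, add_zero, Nat.add_eq_zero_iff, one_ne_zero,
    and_false, if_false, Nat.add_sub_cancel]
  have h1 : a * ∑ j ∈ range (k + 1), a ^ j * ((k.choose (j + 2) : R) * (k.choose j : R)) =
      ∑ i ∈ range (k + 1), a ^ i *
        (if i = 0 then 0 else (k.choose (i + 1) : R) * (k.choose (i - 1) : R)) := by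
    rw [Finset.mul_sum]
    rw [Finset.sum_range_succ, Finset.sum_range_succ' (fun i => a ^ i *
        (if i = 0 then 0 else (k.choose (i + 1) : R) * (k.choose (i - 1) : R)))]
    simp only [if_true, mul_zero, add_zero, Nat.add_eq_zero_iff, one_ne_zero,
      and_false, if_false, Nat.add_sub_cancel]
    rw [Nat.choose_eq_zero_of_lt (by omega : k < k + 2)]
    simp only [Nat.cast_zero, zero_mul, mul_zero, add_zero]
    refine Finset.sum_congr rfl fun j _ => ?_
    rw [show j + 1 + 1 = j + 2 by omega]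
    ring
  rw [h1, ← Finset.sum_sub_distrib, Finset.mul_sum]
  refine Finset.sum_congr rfl fun i hi => ?_
  rw [mem_range] at hi
  have h2 := nar_binom k i (by omega)
  have h3 : (1 / (((k + 1 : ℕ) : ℕ) : ℚ)) = 1 / ((k : ℚ) + 1) := by push_cast; rfl
  rw [h3, h2]
  split_ifs
  · simp only [map_sub, map_mul, map_natCast, map_zero]; ring
  · simp only [map_sub, map_mul, map_natCast]; ring

end general

theorem hcQ : ∀ x : ℚ, 2 * x = 0 → x = 0 := fun x h => by linarith

theorem hcQX : ∀ x : ℚ[X], 2 * x = 0 → x = 0 := fun x h => by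
  rcases mul_eq_zero.1 h with h | h
  · exact absurd h two_ne_zero
  · exact h

theorem even_sum (f : ℕ → ℚ) (n : ℕ) (ho : ∀ i, i % 2 = 1 → f i = 0) (hn : ∀ i, n < i → f i = 0) :
    ∑ i ∈ range (n + 1), f i = ∑ k ∈ range (n + 1), f (2 * k) := by
  have h1 : ∀ N, ∑ i ∈ range (2 * N), f i = ∑ k ∈ range N, f (2 * k) := by
    intro N
    induction N with
    | zero => simp
    | succ N ih =>
      rw [show 2 * (N + 1) = 2 * N + 1 + 1 by omega, Finset.sum_range_succ, Finset.sum_range_succ,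
        ih, ho (2 * N + 1) (by omega), add_zero, Finset.sum_range_succ]
  rw [← h1]
  refine Finset.sum_subset ?_ ?_
  · intro i hi; rw [mem_range] at *; omega
  · intro i _ hi
    rw [mem_range] at hi
    exact hn i (by omega)

theorem bal_cat (j : ℕ) : (bal j 0 : ℚ) = Cat j := by
  unfold Cat bal
  rcases j with _ | j
  · simp
  · simp only [Nat.add_eq_zero_iff, one_ne_zero, and_false, if_false, Nat.add_sub_cancel, add_zero]
    have := Nat.choose_succ_right_eq (2 * (j + 1)) j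
    have h : (((2 * (j + 1)).choose (j + 1) * (j + 1) : ℕ) : ℚ) =
        (((2 * (j + 1)).choose j * (2 * (j + 1) - j) : ℕ) : ℚ) := by rw [this]
    rw [Nat.cast_mul, Nat.cast_mul, Nat.cast_sub (by omega)] at h
    push_cast at h ⊢
    have hj : ((j : ℚ) + 1 + 1) ≠ 0 := by positivity
    field_simp
    linear_combination h

theorem mot_fun (k : ℕ) : Mot k = Lf (mU (1 : ℚ)) ((X + C 1) ^ k) := by
  rw [Lf_shift, Mot, even_sum (fun i => (1 : ℚ) ^ (k - i) * (k.choose i : ℚ) * mU 1 i)]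
  · refine Finset.sum_congr rfl fun i _ => ?_
    simp only [mU]
    rw [if_pos (by omega), show 2 * i / 2 = i by omega, ← bal_cat]
    simp
  · intro i hi; simp [mU, hi]
  · intro i hi; simp [Nat.choose_eq_zero_of_lt hi]

theorem del_fun (k : ℕ) : Del k = Lf (mT (2 : ℚ)) ((X + C 3) ^ k) := by
  have h3 : (3 : ℚ) = 1 + 2 := by norm_num
  rw [fun_T, h3, quad_fact]
  have h2 : (X : ℚ[X]) + C 2 = (X + C 1) + 1 := by
    rw [show (2 : ℚ) = 1 + 1 by norm_num, C_add, C_1]; ring
  rw [h2, add_pow (X + C (1 : ℚ)) 1, Finset.mul_sum, finsetSum_coeff, Del]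
  refine Finset.sum_congr rfl fun i _ => ?_
  have e : (X + C (1 : ℚ)) ^ k * ((X + C 1) ^ i * 1 ^ (k - i) * ((k.choose i : ℕ) : ℚ[X])) =
      C (k.choose i : ℚ) * (X + C 1) ^ (k + i) := by
    rw [← C_eq_natCast, pow_add, one_pow]; ring
  rw [e, coeff_C_mul, coeff_X_add_C_pow, one_pow, one_mul, add_zero]
  congr 2
  exact Nat.choose_symm_of_eq_add (by omega)

theorem nar_fun' (k : ℕ) : Nar (k + 1) = X * Lf (mU (X : ℚ[X])) ((X + C (1 + X)) ^ k) := by
  rw [← nar_fun, Nar, if_neg (by omega)]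
  refine Finset.sum_congr rfl fun i _ => ?_
  rfl

theorem sch_term (n h : ℕ) (hn : 0 < n) (hh : h ≤ n) :
    ((n + h).choose (2 * h) : ℚ) * Cat h = 1 / (n : ℚ) * (n.choose h : ℚ) * ((n + h).choose (n - 1) : ℚ) := by
  unfold Cat
  obtain ⟨m, rfl⟩ : ∃ m, n = m + 1 := ⟨n - 1, by omega⟩
  obtain ⟨d, hd⟩ : ∃ d, m + 1 = h + d := ⟨m + 1 - h, by omega⟩
  have f1 : ((m + 1 + h).choose (2 * h) : ℚ) = (m + 1 + h).factorial / ((2 * h).factorial * d.factorial) := by
    rw [Nat.cast_choose ℚ (by omega), show m + 1 + h - 2 * h = d by omega]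
  have f2 : ((2 * h).choose h : ℚ) = (2 * h).factorial / (h.factorial * h.factorial) := by
    rw [Nat.cast_choose ℚ (by omega), show 2 * h - h = h by omega]
  have f3 : ((m + 1).choose h : ℚ) = (m + 1).factorial / (h.factorial * d.factorial) := by
    rw [Nat.cast_choose ℚ (by omega), show m + 1 - h = d by omega]
  have f4 : ((m + 1 + h).choose (m + 1 - 1) : ℚ) = (m + 1 + h).factorial / (m.factorial * (h + 1).factorial) := by
    rw [Nat.cast_choose ℚ (by omega), show m + 1 - 1 = m by omega, show m + 1 + h - m = h + 1 by omega]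
  rw [f1, f2, f3, f4, Nat.factorial_succ h, Nat.factorial_succ m]
  have := Nat.factorial_ne_zero
  have g1 : ((2 * h).factorial : ℚ) ≠ 0 := by exact_mod_cast this _
  have g2 : (h.factorial : ℚ) ≠ 0 := by exact_mod_cast this _
  have g3 : (d.factorial : ℚ) ≠ 0 := by exact_mod_cast this _
  have g4 : (m.factorial : ℚ) ≠ 0 := by exact_mod_cast this _
  push_cast
  field_simp

theorem sch_fun (k : ℕ) : Sch (k + 1) = 2 * Lf (mU (2 : ℚ)) ((X + C 3) ^ k) := by
  have h3 : (3 : ℚ) = 1 + 2 := by norm_num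
  rw [h3, ← nar_fun]
  set n := k + 1 with hn
  have e1 : ∀ i ∈ range (n + 1), algebraMap ℚ ℚ (1 / (n : ℚ) * (n.choose i : ℚ) *
      (if i = 0 then 0 else (n.choose (i - 1) : ℚ))) * 2 ^ i =
      ∑ h ∈ range (n + 1), 1 / (n : ℚ) * (n.choose h : ℚ) *
        (if i = 0 then 0 else ((n - h).choose (n - i) : ℚ) * (n.choose (i - 1) : ℚ)) := by
    intro i hi
    rw [mem_range] at hi
    have e2 : (2 : ℚ) ^ i = ∑ h ∈ range (n + 1), (i.choose h : ℚ) := by
      rw [show (2 : ℚ) ^ i = ((2 ^ i : ℕ) : ℚ) by push_cast; rfl, ← Nat.sum_range_choose]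
      push_cast
      refine Finset.sum_subset ?_ ?_
      · intro j hj; rw [mem_range] at *; omega
      · intro j _ hj
        rw [mem_range] at hj
        rw [Nat.choose_eq_zero_of_lt (by omega)]; simp
    rw [e2, Finset.mul_sum]
    refine Finset.sum_congr rfl fun h hh => ?_
    rw [mem_range] at hh
    have e3 : (n.choose i : ℚ) * (i.choose h : ℚ) = (n.choose h : ℚ) * ((n - h).choose (n - i) : ℚ) := by
      rcases Nat.lt_or_ge i h with hlt | hge
      · rw [Nat.choose_eq_zero_of_lt hlt, Nat.choose_eq_zero_of_lt (by omega : n - h < n - i)]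
        simp
      · have := Nat.choose_mul (n := n) (k := i) (s := h) hge
        have e4 : (n - h).choose (i - h) = (n - h).choose (n - i) :=
          Nat.choose_symm_of_eq_add (by omega)
        rw [e4] at this
        exact_mod_cast this
    simp only [Algebra.algebraMap_self, RingHom.id_apply]
    split_ifs
    · simp
    · linear_combination (1 / (n : ℚ) * (n.choose (i - 1) : ℚ)) * e3
  rw [Finset.sum_congr rfl e1, Finset.sum_comm, Sch]
  have e5 : ∀ h ∈ range (n + 1), ∑ i ∈ range (n + 1), 1 / (n : ℚ) * (n.choose h : ℚ) *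
        (if i = 0 then 0 else ((n - h).choose (n - i) : ℚ) * (n.choose (i - 1) : ℚ)) =
      1 / (n : ℚ) * (n.choose h : ℚ) * (((n - h) + n).choose (n - 1) : ℚ) := by
    intro h hh
    rw [← Finset.mul_sum]
    congr 1
    rw [Finset.sum_range_succ']
    simp only [if_true, add_zero, Nat.add_eq_zero_iff, one_ne_zero,
      and_false, if_false, Nat.add_sub_cancel]
    rw [Nat.add_choose_eq, Finset.Nat.sum_antidiagonal_eq_sum_range_succ_mk,
      ← Finset.sum_range_reflect]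
    push_cast
    rw [show (n - 1).succ = n by omega]
    refine Finset.sum_congr rfl fun i hi => ?_
    rw [mem_range] at hi
    rw [show n - (n - 1 - i + 1) = i by omega]
  rw [Finset.sum_congr rfl e5, ← Finset.sum_range_reflect]
  refine Finset.sum_congr rfl fun h hh => ?_
  rw [mem_range] at hh
  rw [sch_term n _ (by omega) (by omega)]
  rw [show n + 1 - 1 - h = n - h by omega]
  have e6 : n - h + n = n + (n - h) := by omega
  rw [← e6, Nat.choose_symm (by omega : h ≤ n)]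

theorem sub3 {K : Type*} [CommRing K] (x : ℕ → K) (n : ℕ) :
    (mat x 3 n).submatrix (eqv n) (eqv n) =
      fun c d : Fin n × Fin 2 => ((idx d : K) - idx c) * x (idx c + idx d - 1) := by
  ext c d
  simp only [Matrix.submatrix_apply, mat, eqv_val]
  rw [show idx c + 1 + (idx d + 1) - 3 = idx c + idx d - 1 by omega]
  push_cast
  ring

theorem sub2 {K : Type*} [CommRing K] (x μ : ℕ → K) (a : K) (hx : ∀ k, x (k + 1) = a * μ k) (n : ℕ) :
    (mat x 2 n).submatrix (eqv n) (eqv n) =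
      fun c d : Fin n × Fin 2 => a * (((idx d : K) - idx c) * μ (idx c + idx d - 1)) := by
  ext c d
  simp only [Matrix.submatrix_apply, mat, eqv_val]
  by_cases h : idx c + idx d = 0
  · have h1 : idx c = 0 := by omega
    have h2 : idx d = 0 := by omega
    rw [h1, h2]; simp
  · obtain ⟨k, hk⟩ : ∃ k, idx c + idx d = k + 1 := ⟨idx c + idx d - 1, by omega⟩
    rw [show idx c + 1 + (idx d + 1) - 2 = k + 1 by omega, hx, hk, Nat.add_sub_cancel]
    push_cast
    ring

theorem P_mul {K : Type*} [CommRing K] (a : K) {n : ℕ} (A : Fin n × Fin 2 → Fin n × Fin 2 → K) :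
    P (fun c d => a * A c d) = a ^ n * P (fun c d => A c d) := P_smul a A

theorem thm1 (n : ℕ) : pf (mat Mot 3 n) = ∏ k ∈ range n, (4 * (k : ℚ) + 1) := by
  apply pf_of_P
  rw [sub3, evalU hcQ 1 1 Mot mot_fun n]
  simp

theorem thm2 (n : ℕ) : pf (mat Del 3 (n + 1)) =
    2 ^ ((n + 1) ^ 2 - 1) * (2 * ((n + 1 : ℕ) : ℚ) - 1) * ∏ k ∈ Icc 1 n, (4 * (k : ℚ) - 1) := by
  apply pf_of_P
  rw [sub3, evalT 2 3 Del del_fun n]
  congr 1
  have h1 : ∏ k ∈ Icc 1 n, (4 * (k : ℚ) - 1) = ∏ k ∈ range n, (4 * (k : ℚ) + 3) := by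
    rw [← Finset.Ico_add_one_right_eq_Icc, Finset.prod_Ico_eq_prod_range]
    refine Finset.prod_congr (by simp) fun k _ => ?_
    push_cast; ring
  rw [h1, show (n + 1) ^ 2 - 1 = n + n * (n + 1) by
    have : (n + 1) ^ 2 = n + n * (n + 1) + 1 := by ring
    omega, pow_add]
  push_cast
  ring

theorem prod_pow_odd {R : Type*} [CommRing R] (a : R) (n : ℕ) :
    a ^ n * ∏ k ∈ range n, ((4 * (k : R) + 1) * a ^ (2 * k)) =
      a ^ (n ^ 2) * ∏ k ∈ range n, (4 * (k : R) + 1) := by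
  induction n with
  | zero => simp
  | succ n ih =>
    rw [Finset.prod_range_succ, Finset.prod_range_succ, show (n + 1) ^ 2 = n ^ 2 + (2 * n + 1) by ring,
      pow_add]
    linear_combination (a * (4 * (n : R) + 1) * a ^ (2 * n)) * ih

theorem thm3 (n : ℕ) : pf (mat Sch 2 n) = 2 ^ (n ^ 2) * ∏ k ∈ range n, (4 * (k : ℚ) + 1) := by
  apply pf_of_P
  rw [sub2 Sch _ 2 sch_fun, P_mul, evalU hcQ 2 3 _ (fun _ => rfl) n, ← prod_pow_odd]
  ring

theorem thm4 (n : ℕ) : pf (mat Nar 2 n) = X ^ (n ^ 2) * ∏ k ∈ range n, (4 * (k : ℚ[X]) + 1) := by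
  apply pf_of_P
  rw [sub2 Nar _ X nar_fun', P_mul, evalU hcQX X (1 + X) _ (fun _ => rfl) n, ← prod_pow_odd]
  ring

/-- For every `n ≥ 1` all four Pfaffian evaluations hold. -/
theorem main (n : ℕ) (hn : 1 ≤ n) :
    pf (mat Mot 3 n) = ∏ k ∈ range n, (4 * (k : ℚ) + 1) ∧
    pf (mat Del 3 n) = 2 ^ (n ^ 2 - 1) * (2 * (n : ℚ) - 1) * ∏ k ∈ Icc 1 (n - 1), (4 * (k : ℚ) - 1) ∧
    pf (mat Sch 2 n) = 2 ^ (n ^ 2) * ∏ k ∈ range n, (4 * (k : ℚ) + 1) ∧
    pf (mat Nar 2 n) = X ^ (n ^ 2) * ∏ k ∈ range n, (4 * (k : ℚ[X]) + 1) := by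
  refine ⟨thm1 n, ?_, thm3 n, thm4 n⟩
  obtain ⟨m, rfl⟩ : ∃ m, n = m + 1 := ⟨n - 1, by omega⟩
  rw [thm2]
  rfl

end Pool.Agent.Q280.FourPfaffiansWithdrawn
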