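import Mathlib

set_option autoImplicit false

/-!
# Pfaffians as signed sums over permutations

`P A = ∑ σ, sign σ ∏ i, A (σ (i,0)) (σ (i,1))` for a matrix indexed by `Fin n × Fin 2`; for a
skew-symmetric matrix this is `2 ^ n * n !` times the Pfaffian.
-/

namespace Pool.Agent.Q280.Pf

open Equiv Equiv.Perm Finset Matrix

variable {R : Type*} [CommRing R] {n : ℕ}

/-- the unnormalised Pfaffian -/
noncomputable def P (A : Matrix (Fin n × Fin 2) (Fin n × Fin 2) R) : R :=
  ∑ σ : Perm (Fin n × Fin 2), ((sign σ : ℤ) : R) * ∏ i : Fin n, A (σ (i, 0)) (σ (i, 1))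

theorem prod_pairs {M : Type*} [CommMonoid M] (f : Fin n × Fin 2 → M) :
    ∏ c, f c = ∏ i : Fin n, (f (i, 0) * f (i, 1)) := by
  rw [Fintype.prod_prod_type]
  refine Finset.prod_congr rfl fun i _ => ?_
  rw [Fin.prod_univ_two]

/-- congruence -/
theorem P_congr (T A : Matrix (Fin n × Fin 2) (Fin n × Fin 2) R) :
    P (T * A * Tᵀ) = T.det * P A := by
  classical
  have h1 : ∀ σ : Perm (Fin n × Fin 2),
      ∏ i : Fin n, (T * A * Tᵀ) (σ (i, 0)) (σ (i, 1)) =
        ∑ f : Fin n × Fin 2 → Fin n × Fin 2,
          (∏ i : Fin n, A (f (i, 0)) (f (i, 1))) * ∏ c, T (σ c) (f c) := by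
    intro σ
    have h2 : ∀ i : Fin n, (T * A * Tᵀ) (σ (i, 0)) (σ (i, 1)) =
        ∑ p : (Fin n × Fin 2) × (Fin n × Fin 2),
          A p.1 p.2 * (T (σ (i, 0)) p.1 * T (σ (i, 1)) p.2) := by
      intro i
      symm
      rw [Fintype.sum_prod_type_right, Matrix.mul_apply]
      apply Finset.sum_congr rfl
      intro l _
      rw [Matrix.mul_apply, Finset.sum_mul]
      apply Finset.sum_congr rfl
      intro k _
      rw [Matrix.transpose_apply]
      ring
    rw [Finset.prod_congr rfl fun i _ => h2 i, Finset.prod_univ_sum]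
    rw [Fintype.piFinset_univ]
    refine Finset.sum_bij' (fun (g : Fin n → (Fin n × Fin 2) × (Fin n × Fin 2)) _ =>
        (fun c : Fin n × Fin 2 => if c.2 = 0 then (g c.1).1 else (g c.1).2))
      (fun (f : Fin n × Fin 2 → Fin n × Fin 2) _ => fun i : Fin n => (f (i, 0), f (i, 1)))
      ?_ ?_ ?_ ?_ ?_
    · intro g _; exact mem_univ _
    · intro f _; exact mem_univ _
    · intro g _
      funext i
      simp
    · intro f _
      funext c
      rcases c with ⟨i, b⟩
      fin_cases b <;> simp
    · intro g _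
      rw [Finset.prod_mul_distrib, prod_pairs (fun c => T (σ c) _)]
      simp
  unfold P
  simp_rw [h1, Finset.mul_sum]
  rw [Finset.sum_comm]
  have h3 : ∀ f : Fin n × Fin 2 → Fin n × Fin 2,
      ∑ σ : Perm (Fin n × Fin 2), ((sign σ : ℤ) : R) *
        ((∏ i : Fin n, A (f (i, 0)) (f (i, 1))) * ∏ c, T (σ c) (f c)) =
      (∏ i : Fin n, A (f (i, 0)) (f (i, 1))) * (T.submatrix id f).det := by
    intro f
    rw [Matrix.det_apply', Finset.mul_sum]
    refine Finset.sum_congr rfl fun σ _ => ?_
    simp only [Matrix.submatrix_apply, id_eq]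
    ring
  simp_rw [h3]
  have h4 : ∀ f : Fin n × Fin 2 → Fin n × Fin 2, ¬ Function.Injective f →
      (∏ i : Fin n, A (f (i, 0)) (f (i, 1))) * (T.submatrix id f).det = 0 := by
    intro f hf
    rw [Function.Injective] at hf
    push Not at hf
    obtain ⟨x, y, hxy, hne⟩ := hf
    rw [Matrix.det_zero_of_column_eq hne (fun k => by simp [hxy]), mul_zero]
  have h5 : ∑ f : Fin n × Fin 2 → Fin n × Fin 2,
      (∏ i : Fin n, A (f (i, 0)) (f (i, 1))) * (T.submatrix id f).det =
      ∑ σ : Perm (Fin n × Fin 2),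
      (∏ i : Fin n, A (σ (i, 0)) (σ (i, 1))) * (T.submatrix id σ).det := by
    symm
    refine Finset.sum_of_injOn (fun σ : Perm (Fin n × Fin 2) => (σ : Fin n × Fin 2 → Fin n × Fin 2))
      ?_ ?_ ?_ ?_
    · intro σ _ τ _ h
      exact DFunLike.coe_injective h
    · intro σ _; simp
    · intro f _ hf
      refine h4 f fun hinj => hf ?_
      have hb : Function.Bijective f := Finite.injective_iff_bijective.1 hinj
      exact ⟨Equiv.ofBijective f hb, by simp, rfl⟩
    · intro σ _; rfl
  rw [h5]
  refine Finset.sum_congr rfl fun σ _ => ?_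
  rw [Matrix.det_permute' ]
  ring

theorem P_smul (a : R) (A : Matrix (Fin n × Fin 2) (Fin n × Fin 2) R) :
    P (a • A) = a ^ n * P A := by
  unfold P
  rw [Finset.mul_sum]
  refine Finset.sum_congr rfl fun σ _ => ?_
  simp only [Matrix.smul_apply, smul_eq_mul, Finset.prod_mul_distrib, Finset.prod_const,
    Finset.card_univ, Fintype.card_fin]
  ring

/-- the standard symplectic matrix -/
def J (R : Type*) [CommRing R] (n : ℕ) : Matrix (Fin n × Fin 2) (Fin n × Fin 2) R :=
  fun c d => if c.1 = d.1 then (if c.2 = 0 ∧ d.2 = 1 then 1 else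
    if c.2 = 1 ∧ d.2 = 0 then -1 else 0) else 0

theorem J_ne {R : Type*} [CommRing R] {n : ℕ} {c d : Fin n × Fin 2} (h : J R n c d ≠ 0) :
    c.1 = d.1 ∧ c.2 ≠ d.2 := by
  unfold J at h
  rcases c with ⟨i, a⟩
  rcases d with ⟨j, b⟩
  by_cases hij : i = j
  · subst hij
    refine ⟨rfl, ?_⟩
    rintro (h2 : a = b)
    subst h2
    fin_cases a <;> simp at h
  · simp [hij] at h

theorem sign_shear (τ : Perm (Fin n)) (ε : Fin n → Perm (Fin 2)) :
    sign (Equiv.prodShear τ ε) = ∏ i, sign (ε i) := by
  have h : (Equiv.prodShear τ ε : Perm (Fin n × Fin 2)) =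
      (Equiv.prodCongrLeft (fun _ : Fin 2 => τ)) * (Equiv.prodCongrRight ε) := by
    ext ⟨i, b⟩ <;> simp [Equiv.prodShear]
  rw [h, Perm.sign_mul, sign_prodCongrLeft, sign_prodCongrRight]
  simp

theorem perm2 (e : Perm (Fin 2)) : e = 1 ∨ e = Equiv.swap 0 1 := by
  revert e; decide

theorem P_J : P (J R n) = 2 ^ n * (n.factorial : R) := by
  classical
  unfold P
  have h1 : ∑ σ : Perm (Fin n × Fin 2), ((sign σ : ℤ) : R) *
      ∏ i : Fin n, J R n (σ (i, 0)) (σ (i, 1)) =
      ∑ x : Perm (Fin n) × (Fin n → Perm (Fin 2)), (1 : R) := by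
    symm
    refine Finset.sum_of_injOn (fun x => (Equiv.prodShear x.1 x.2 : Perm (Fin n × Fin 2)))
      ?_ ?_ ?_ ?_
    · rintro ⟨τ, ε⟩ - ⟨τ', ε'⟩ - h
      have h' : ∀ c, Equiv.prodShear τ ε c = Equiv.prodShear τ' ε' c := fun c =>
        DFunLike.congr_fun h c
      simp only [Equiv.prodShear_apply, Prod.mk.injEq] at h'
      refine Prod.ext ?_ ?_
      · ext i
        exact congrArg Fin.val (h' (i, 0)).1
      · funext i
        ext b
        exact congrArg Fin.val (h' (i, b)).2
    · intro x _; simp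
    · intro σ _ hσ
      by_contra hne
      have hne' : ∀ i, J R n (σ (i, 0)) (σ (i, 1)) ≠ 0 := by
        intro i h0
        exact hne (by rw [Finset.prod_eq_zero (mem_univ i) h0, mul_zero])
      have hp := fun i => J_ne (hne' i)
      -- the fibre map
      have hfib : ∀ i : Fin n, ∀ b : Fin 2, (σ (i, b)).1 = (σ (i, 0)).1 := by
        intro i b
        fin_cases b
        · rfl
        · exact (hp i).1.symm
      have hinj : Function.Injective (fun i : Fin n => (σ (i, 0)).1) := by
        intro i j hij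
        simp only at hij
        -- one of σ (i,0), σ (i,1) has second coordinate that of σ (j,0)
        have h2 : (σ (j, 0)).2 = (σ (i, 0)).2 ∨ (σ (j, 0)).2 = (σ (i, 1)).2 := by
          have := (hp i).2
          generalize (σ (j, 0)).2 = x at *
          generalize (σ (i, 0)).2 = y at *
          generalize (σ (i, 1)).2 = z at *
          fin_cases x <;> fin_cases y <;> fin_cases z <;> simp_all
        rcases h2 with h2 | h2
        · have : σ (j, 0) = σ (i, 0) := Prod.ext hij.symm h2
          have := σ.injective this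
          simpa using this.symm
        · have : σ (j, 0) = σ (i, 1) := Prod.ext (hij.symm.trans (hp i).1) h2
          have := σ.injective this
          simp at this
      have hbi : Function.Bijective (fun i : Fin n => (σ (i, 0)).1) :=
        Finite.injective_iff_bijective.1 hinj
      have hεinj : ∀ i, Function.Injective (fun b : Fin 2 => (σ (i, b)).2) := by
        intro i b b' hbb
        have h3 : σ (i, b) = σ (i, b') := Prod.ext ((hfib i b).trans (hfib i b').symm) hbb
        have := σ.injective h3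
        simpa using this
      apply hσ
      refine ⟨(Equiv.ofBijective _ hbi,
        fun i => Equiv.ofBijective _ (Finite.injective_iff_bijective.1 (hεinj i))), by simp, ?_⟩
      ext ⟨i, b⟩
      · simp [Equiv.prodShear, hfib i b]
      · simp [Equiv.prodShear]
    · rintro ⟨τ, ε⟩ -
      simp only
      rw [sign_shear]
      simp only [Equiv.prodShear_apply]
      have h4 : ∀ i : Fin n, J R n (τ i, ε i 0) (τ i, ε i 1) = ((sign (ε i) : ℤ) : R) := by
        intro i
        generalize ε i = e
        rcases perm2 e with h | h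
        · subst h; simp [J]
        · subst h; simp [J]
      rw [Finset.prod_congr rfl fun i _ => h4 i]
      push_cast
      rw [← Finset.prod_mul_distrib]
      symm
      refine Finset.prod_eq_one fun i _ => ?_
      rcases Int.units_eq_one_or (sign (ε i)) with h | h <;> simp [h]
  rw [h1]
  simp [Fintype.card_perm, Fintype.card_pi, mul_comm]

/-- evaluation for a matrix with zero even-even and odd-odd blocks and triangular even-odd block -/
theorem P_tri (K : Matrix (Fin n × Fin 2) (Fin n × Fin 2) R)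
    (h00 : ∀ k l, K (k, 0) (l, 0) = 0) (h11 : ∀ k l, K (k, 1) (l, 1) = 0)
    (h10 : ∀ k l, K (l, 1) (k, 0) = - K (k, 0) (l, 1))
    (hlt : ∀ k l, k < l → K (k, 0) (l, 1) = 0) :
    P K = 2 ^ n * (n.factorial : R) * ∏ k, K (k, 0) (k, 1) := by
  classical
  set B : Matrix (Fin n) (Fin n) R := fun k m => K (k, 0) (m, 1) with hB
  set T : Matrix (Fin n × Fin 2) (Fin n × Fin 2) R :=
    Matrix.blockDiagonal (fun b : Fin 2 => if b = 0 then B else 1) with hT
  have hdet : T.det = ∏ k, K (k, 0) (k, 1) := by
    rw [hT, Matrix.det_blockDiagonal, Fin.prod_univ_two]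
    simp only [Fin.isValue, if_true, one_ne_zero, if_false, Matrix.det_one, mul_one]
    rw [Matrix.det_of_isLowerTriangular]
    intro i j hij
    exact hlt i j (by simpa using hij)
  have hK : K = T * J R n * Tᵀ := by
    ext ⟨k, b⟩ ⟨l, b'⟩
    simp only [Matrix.mul_apply, Matrix.transpose_apply, hT, Matrix.blockDiagonal_apply,
      Fintype.sum_prod_type, Fin.sum_univ_two]
    fin_cases b <;> fin_cases b' <;>
      simp [J, Matrix.one_apply, h00, h11, hB, h10]
  rw [hK, P_congr, hdet, P_J]
  rw [← hK]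
  ring

end Pool.Agent.Q280.Pf
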