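import Pool.Agent.Q280.PfL

set_option autoImplicit false

/-!
# Expansion of Pfaffians, banded skew-symmetric matrices
-/

namespace Pool.Agent.Q280.PfBand

open Equiv Equiv.Perm Finset Matrix
open Pool.Agent.Q280.Pf Pool.Agent.Q280.PfL

variable {R : Type*} [CommRing R] {n : ℕ}

theorem P_perm (τ : Perm (Fin n × Fin 2)) (A : Fin n × Fin 2 → Fin n × Fin 2 → R) :
    P (fun x y => A (τ x) (τ y)) = ((sign τ : ℤ) : R) * P (fun x y => A x y) := by
  unfold P
  rw [Finset.mul_sum, ← Equiv.sum_comp (Equiv.mulLeft τ)
    (fun σ : Perm (Fin n × Fin 2) => ((sign τ : ℤ) : R) * (((sign σ : ℤ) : R) *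
      ∏ i : Fin n, A (σ (i, 0)) (σ (i, 1))))]
  refine Finset.sum_congr rfl fun σ _ => ?_
  simp only [Equiv.coe_mulLeft, Perm.sign_mul, Perm.mul_apply]
  push_cast
  rw [← mul_assoc, ← mul_assoc]
  congr 1
  rcases Int.units_eq_one_or (sign τ) with h | h <;> simp [h]

theorem prod_shear (A : Fin n × Fin 2 → Fin n × Fin 2 → R) (hA : ∀ x y, A x y = - A y x)
    (g : Fin n × Fin 2 → Fin n × Fin 2) (π : Perm (Fin n)) (ε : Fin n → Perm (Fin 2)) :
    ∏ i, A (g (Equiv.prodShear π ε (i, 0))) (g (Equiv.prodShear π ε (i, 1))) =
      (∏ i, ((sign (ε i) : ℤ) : R)) * ∏ i, A (g (i, 0)) (g (i, 1)) := by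
  rw [← Equiv.prod_comp π (fun i => A (g (i, 0)) (g (i, 1))), ← Finset.prod_mul_distrib]
  refine Finset.prod_congr rfl fun i _ => ?_
  simp only [Equiv.prodShear_apply]
  rcases perm2 (ε i) with h | h
  · rw [h]; simp
  · rw [h]
    simp only [swap_apply_left, swap_apply_right]
    rw [hA]
    simp

/-- the embedding of the first `2n` indices -/
def emb (c : Fin n × Fin 2) : Fin (n + 1) × Fin 2 := (c.1.castSucc, c.2)

theorem idx_emb (c : Fin n × Fin 2) : idx (emb c) = idx c := rfl

/-- the subtype of the first `2n` indices -/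
def subEq (n : ℕ) : Fin n × Fin 2 ≃ {c : Fin (n + 1) × Fin 2 // c.1 ≠ Fin.last n} where
  toFun c := ⟨emb c, by
    have := c.1.isLt
    intro h
    have h2 : ((emb c).1 : ℕ) = n := by rw [h]; simp
    simp only [emb, Fin.val_castSucc] at h2
    omega⟩
  invFun c := (⟨(c.1.1 : ℕ), by
    have h1 := c.1.1.isLt
    have h2 : (c.1.1 : ℕ) ≠ n := fun h => c.2 (Fin.ext (by simpa using h))
    omega⟩, c.1.2)
  left_inv c := by simp [emb]
  right_inv c := by
    apply Subtype.ext
    simp [emb]

/-- extension of a permutation by the identity on the last pair -/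
noncomputable def ext (e : Perm (Fin n × Fin 2)) : Perm (Fin (n + 1) × Fin 2) :=
  Perm.ofSubtype ((subEq n).permCongr e)

theorem ext_emb (e : Perm (Fin n × Fin 2)) (c : Fin n × Fin 2) : ext e (emb c) = emb (e c) := by
  unfold ext
  have h1 : emb c = ((subEq n c : {c : Fin (n + 1) × Fin 2 // c.1 ≠ Fin.last n}) : Fin (n + 1) × Fin 2) := rfl
  rw [h1, Perm.ofSubtype_apply_coe]
  simp only [Equiv.permCongr_apply, Equiv.symm_apply_apply]
  rfl

theorem ext_last (e : Perm (Fin n × Fin 2)) (b : Fin 2) : ext e (Fin.last n, b) = (Fin.last n, b) := by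
  unfold ext
  apply Perm.ofSubtype_apply_of_not_mem
  simp

theorem sign_ext (e : Perm (Fin n × Fin 2)) : sign (ext e) = sign e := by
  unfold ext
  rw [Perm.sign_ofSubtype, Perm.sign_permCongr]

theorem ext_surj (σ : Perm (Fin (n + 1) × Fin 2)) (h : ∀ b, σ (Fin.last n, b) = (Fin.last n, b)) :
    ∃ e : Perm (Fin n × Fin 2), ext e = σ := by
  have h1 : ∀ x, (σ x).1 ≠ Fin.last n ↔ x.1 ≠ Fin.last n := by
    intro x
    rw [not_iff_not]
    constructor
    · intro hx
      have h2 : σ x = σ (Fin.last n, (σ x).2) := by
        rw [h]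
        exact Prod.ext hx rfl
      rw [σ.injective h2]
    · intro hx
      have : x = (Fin.last n, x.2) := Prod.ext hx rfl
      rw [this, h]
  refine ⟨(subEq n).symm.permCongr (σ.subtypePerm h1), ?_⟩
  unfold ext
  have h3 : (subEq n).permCongr ((subEq n).symm.permCongr (σ.subtypePerm h1)) = σ.subtypePerm h1 := by
    ext x
    · simp [Equiv.permCongr_apply]
    · simp [Equiv.permCongr_apply]
  rw [h3]
  apply Perm.ofSubtype_subtypePerm
  intro x hx hx2
  apply hx
  have : x = (Fin.last n, x.2) := Prod.ext hx2 rfl
  rw [this, h]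

/-- the other element of a pair -/
def partner (c : Fin n × Fin 2) : Fin n × Fin 2 := (c.1, 1 - c.2)

/-- the shear taking `pos` to the last index -/
def tau (p : Fin (n + 1) × Fin 2) : Perm (Fin (n + 1) × Fin 2) :=
  Equiv.prodShear (swap p.1 (Fin.last n)) (fun k => if k = p.1 ∧ p.2 = 0 then swap 0 1 else 1)

theorem tau_self (p : Fin (n + 1) × Fin 2) : tau p p = (Fin.last n, 1) := by
  rcases p with ⟨i, b⟩
  unfold tau
  simp only [Equiv.prodShear_apply, swap_apply_left]
  fin_cases b <;> simp

theorem tau_partner (p : Fin (n + 1) × Fin 2) : tau p (partner p) = (Fin.last n, 0) := by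
  rcases p with ⟨i, b⟩
  unfold tau partner
  simp only [Equiv.prodShear_apply, swap_apply_left]
  fin_cases b <;> simp

theorem P_expand (A : Fin (n + 1) × Fin 2 → Fin (n + 1) × Fin 2 → R) (hA : ∀ x y, A x y = - A y x)
    (h : ∀ c, c ≠ (Fin.last n, 0) → A c (Fin.last n, 1) = 0) :
    P (fun x y => A x y) = 2 * ((n : R) + 1) * A (Fin.last n, 0) (Fin.last n, 1) *
      P (fun x y : Fin n × Fin 2 => A (emb x) (emb y)) := by
  classical
  have key : P (fun x y => A x y) = ∑ x : (Fin (n + 1) × Fin 2) × Perm (Fin n × Fin 2),
      A (Fin.last n, 0) (Fin.last n, 1) * (((sign x.2 : ℤ) : R) *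
        ∏ i : Fin n, A (emb (x.2 (i, 0))) (emb (x.2 (i, 1)))) := by
    unfold P
    symm
    refine Finset.sum_of_injOn (fun x => ext x.2 * tau x.1) ?_ ?_ ?_ ?_
    · rintro ⟨p, e⟩ - ⟨p', e'⟩ - heq
      simp only at heq
      have h1 : p = p' := by
        have h2 : (ext e * tau p) p = (Fin.last n, 1) := by
          rw [Perm.mul_apply, tau_self, ext_last]
        have h3 : (ext e' * tau p') p' = (Fin.last n, 1) := by
          rw [Perm.mul_apply, tau_self, ext_last]
        rw [heq] at h2
        exact (ext e' * tau p').injective (h2.trans h3.symm)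
      subst h1
      have h4 : ext e = ext e' := mul_right_cancel heq
      have h5 : e = e' := by
        refine Equiv.ext fun c => ?_
        have h6 := DFunLike.congr_fun h4 (emb c)
        rw [ext_emb, ext_emb] at h6
        have h7 : ∀ x y : Fin n × Fin 2, emb x = emb y → x = y := by
          intro x y hxy
          rcases x with ⟨x1, x2⟩
          rcases y with ⟨y1, y2⟩
          simpa [emb] using hxy
        exact h7 _ _ h6
      rw [h5]
    · intro x _; simp
    · intro σ _ hσ
      by_contra hne
      have hne' : ∀ i, A (σ (i, 0)) (σ (i, 1)) ≠ 0 := by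
        intro i h0
        exact hne (by rw [Finset.prod_eq_zero (mem_univ i) h0, mul_zero])
      obtain ⟨p, hp⟩ : ∃ p, σ p = (Fin.last n, 1) := σ.surjective _
      have hpp : σ (partner p) = (Fin.last n, 0) := by
        by_contra hcon
        rcases p with ⟨i, b⟩
        have h1 := h _ hcon
        have h2 : A (Fin.last n, 1) (σ (partner (i, b))) = 0 := by rw [hA, h1, neg_zero]
        rw [← hp] at h1 h2
        fin_cases b
        · exact hne' i (by simpa [partner] using h2)
        · exact hne' i (by simpa [partner] using h1)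
      apply hσ
      obtain ⟨e, he⟩ := ext_surj (σ * (tau p)⁻¹) (by
        intro b
        rw [Perm.mul_apply]
        fin_cases b
        · have : (tau p)⁻¹ (Fin.last n, 0) = partner p := by
            rw [← tau_partner p]; simp
          simp only [Fin.zero_eta, Fin.isValue]
          rw [this, hpp]
        · have : (tau p)⁻¹ (Fin.last n, 1) = p := by
            rw [← tau_self p]; simp
          simp only [Fin.mk_one, Fin.isValue]
          rw [this, hp])
      refine ⟨(p, e), by simp, ?_⟩
      simp only
      rw [he]
      simp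
    · rintro ⟨p, e⟩ -
      simp only
      have h1 := prod_shear A hA (ext e) (swap p.1 (Fin.last n))
        (fun k => if k = p.1 ∧ p.2 = 0 then swap 0 1 else 1)
      have h2 : ∀ c, (ext e * tau p) c = ext e (Equiv.prodShear (swap p.1 (Fin.last n))
        (fun k => if k = p.1 ∧ p.2 = 0 then swap 0 1 else 1) c) := fun c => rfl
      simp_rw [h2]
      rw [h1, Perm.sign_mul, sign_ext]
      have h3 : sign (tau p) = ∏ i, sign ((fun k => if k = p.1 ∧ p.2 = 0 then swap 0 1 else 1 :
          Fin (n + 1) → Perm (Fin 2)) i) := by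
        unfold tau
        rw [sign_shear]
      rw [h3]
      rw [Fin.prod_univ_castSucc (fun i => A (ext e (i, 0)) (ext e (i, 1)))]
      rw [ext_last, ext_last]
      have h4 : ∏ i : Fin n, A (ext e (i.castSucc, 0)) (ext e (i.castSucc, 1)) =
          ∏ i : Fin n, A (emb (e (i, 0))) (emb (e (i, 1))) := by
        refine Finset.prod_congr rfl fun i _ => ?_
        have e0 : ext e (i.castSucc, 0) = emb (e (i, 0)) := ext_emb e (i, 0)
        have e1 : ext e (i.castSucc, 1) = emb (e (i, 1)) := ext_emb e (i, 1)
        rw [e0, e1]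
      rw [h4]
      push_cast
      set s := ∏ i : Fin (n + 1), (((sign ((fun k => if k = p.1 ∧ p.2 = 0 then swap 0 1 else 1 :
          Fin (n + 1) → Perm (Fin 2)) i) : ℤˣ) : ℤ) : R) with hs
      have hs1 : s * s = 1 := by
        rw [hs, ← Finset.prod_mul_distrib]
        refine Finset.prod_eq_one fun i _ => ?_
        rcases Int.units_eq_one_or (sign ((fun k => if k = p.1 ∧ p.2 = 0 then swap 0 1 else 1 :
          Fin (n + 1) → Perm (Fin 2)) i)) with h | h <;> rw [h] <;> simp
      linear_combination (-(A (Fin.last n, 0) (Fin.last n, 1)) * (((sign e : ℤ) : R) *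
        ∏ i : Fin n, A (emb (e (i, 0))) (emb (e (i, 1))))) * hs1
  rw [key, Fintype.sum_prod_type]
  simp only [Finset.sum_const, Finset.card_univ, Fintype.card_prod, Fintype.card_fin, nsmul_eq_mul]
  unfold P
  rw [← Finset.mul_sum]
  push_cast
  ring

/-- splitting of the last column -/
theorem P_split (w : Fin n × Fin 2) (A B C : Fin n × Fin 2 → Fin n × Fin 2 → R)
    (h1 : ∀ x y, x ≠ w → y ≠ w → A x y = B x y) (h2 : ∀ x y, x ≠ w → y ≠ w → A x y = C x y)
    (h3 : ∀ x, A x w = B x w + C x w) (h4 : ∀ x, A w x = B w x + C w x) :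
    P (fun x y => A x y) = P (fun x y => B x y) + P (fun x y => C x y) := by
  classical
  unfold P
  rw [← Finset.sum_add_distrib]
  refine Finset.sum_congr rfl fun σ _ => ?_
  rw [← mul_add]
  congr 1
  obtain ⟨p, hp⟩ : ∃ p, σ p = w := σ.surjective _
  rw [← Finset.mul_prod_erase _ _ (mem_univ p.1), ← Finset.mul_prod_erase _ _ (mem_univ p.1),
    ← Finset.mul_prod_erase _ _ (mem_univ p.1)]
  have hne : ∀ i ∈ Finset.univ.erase p.1, ∀ b : Fin 2, σ (i, b) ≠ w := by
    intro i hi b hb
    rw [← hp] at hb
    have := σ.injective hb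
    rw [Finset.mem_erase] at hi
    exact hi.1 (congrArg Prod.fst this)
  have e1 : ∏ x ∈ Finset.univ.erase p.1, A (σ (x, 0)) (σ (x, 1)) =
      ∏ x ∈ Finset.univ.erase p.1, B (σ (x, 0)) (σ (x, 1)) :=
    Finset.prod_congr rfl fun i hi => h1 _ _ (hne i hi 0) (hne i hi 1)
  have e2 : ∏ x ∈ Finset.univ.erase p.1, A (σ (x, 0)) (σ (x, 1)) =
      ∏ x ∈ Finset.univ.erase p.1, C (σ (x, 0)) (σ (x, 1)) :=
    Finset.prod_congr rfl fun i hi => h2 _ _ (hne i hi 0) (hne i hi 1)
  rw [← e1, ← e2, ← add_mul]
  congr 1
  rcases p with ⟨i, b⟩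
  fin_cases b
  · simp only [Fin.zero_eta, Fin.isValue] at hp
    simp only
    rw [hp, h4]
  · simp only [Fin.mk_one, Fin.isValue] at hp
    simp only
    rw [hp, h3]

/-- band matrix with superdiagonals `b`, `c` -/
def band (b c : ℕ → R) (i j : ℕ) : R :=
  if j = i + 1 then b i else if i = j + 1 then - b j else
    if j = i + 2 then c i else if i = j + 2 then - c j else 0

theorem band_skew (b c : ℕ → R) (i j : ℕ) : band b c i j = - band b c j i := by
  unfold band
  split_ifs <;> first | omega | simp

theorem P_zero (A : Fin 0 × Fin 2 → Fin 0 × Fin 2 → R) : P (fun x y => A x y) = 1 := by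
  unfold P
  simp

theorem band_rec (b c : ℕ → R) (n : ℕ) :
    P (fun x y : Fin (n + 2) × Fin 2 => band b c (idx x) (idx y)) =
      2 * ((n : R) + 2) * b (2 * n + 2) * P (fun x y : Fin (n + 1) × Fin 2 => band b c (idx x) (idx y)) -
      2 * ((n : R) + 2) * (2 * ((n : R) + 1)) * c (2 * n) * c (2 * n + 1) *
        P (fun x y : Fin n × Fin 2 => band b c (idx x) (idx y)) := by
  classical
  -- the vertices
  set w : Fin (n + 2) × Fin 2 := (Fin.last (n + 1), 1) with hw
  set v : Fin (n + 2) × Fin 2 := (Fin.last (n + 1), 0) with hv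
  have iw : idx w = 2 * n + 3 := by simp [hw, idx]; ring
  have iv : idx v = 2 * n + 2 := by simp [hv, idx]; ring
  have inj : ∀ x y : Fin (n + 2) × Fin 2, idx x = idx y → x = y := by
    intro x y hxy
    apply (eqv (n + 2)).injective
    apply Fin.ext
    rw [eqv_val, eqv_val, hxy]
  set A : Fin (n + 2) × Fin 2 → Fin (n + 2) × Fin 2 → R := fun x y => band b c (idx x) (idx y) with hA
  set u : Fin (n + 2) × Fin 2 := emb (Fin.last n, 1) with hu
  have iu : idx u = 2 * n + 1 := by simp [hu, idx, emb]
  set B : Fin (n + 2) × Fin 2 → Fin (n + 2) × Fin 2 → R := fun x y =>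
    if x = w ∨ y = w then band b 0 (idx x) (idx y) else A x y with hB
  set C : Fin (n + 2) × Fin 2 → Fin (n + 2) × Fin 2 → R := fun x y =>
    if x = w ∨ y = w then band 0 c (idx x) (idx y) else A x y with hC
  have hAs : ∀ x y, A x y = - A y x := fun x y => band_skew b c _ _
  have hBs : ∀ x y, B x y = - B y x := by
    intro x y
    simp only [hB]
    by_cases h : x = w ∨ y = w
    · rw [if_pos h, if_pos h.symm, band_skew]
    · rw [if_neg h, if_neg (fun h' => h h'.symm), hAs]
  have hCs : ∀ x y, C x y = - C y x := by
    intro x y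
    simp only [hC]
    by_cases h : x = w ∨ y = w
    · rw [if_pos h, if_pos h.symm, band_skew]
    · rw [if_neg h, if_neg (fun h' => h h'.symm), hAs]
  have hBw : ∀ x y, (x = w ∨ y = w) → B x y = band b 0 (idx x) (idx y) := fun x y h => if_pos h
  have hCw : ∀ x y, (x = w ∨ y = w) → C x y = band 0 c (idx x) (idx y) := fun x y h => if_pos h
  have hadd : ∀ i j, band b c i j = band b 0 i j + band 0 c i j := by
    intro i j
    unfold band
    split_ifs <;> simp
  have hembw : ∀ x : Fin (n + 1) × Fin 2, emb x ≠ w := by
    intro x h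
    have h1 : idx (emb x) = idx w := by rw [h]
    have h2 := idx_lt x
    rw [idx_emb, iw] at h1
    omega
  have split := P_split w A B C
    (fun x y hx hy => by simp only [hB]; rw [if_neg (by tauto)])
    (fun x y hx hy => by simp only [hC]; rw [if_neg (by tauto)])
    (fun x => by rw [hBw _ _ (Or.inr rfl), hCw _ _ (Or.inr rfl), ← hadd])
    (fun x => by rw [hBw _ _ (Or.inl rfl), hCw _ _ (Or.inl rfl), ← hadd])
  have hAP : P (fun x y : Fin (n + 2) × Fin 2 => band b c (idx x) (idx y)) = P (fun x y => A x y) := rfl
  rw [hAP, split]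
  have hPB : P (fun x y => B x y) = 2 * ((n : R) + 2) * b (2 * n + 2) *
      P (fun x y : Fin (n + 1) × Fin 2 => band b c (idx x) (idx y)) := by
    rw [P_expand B hBs]
    · have h1 : B (Fin.last (n + 1), 0) (Fin.last (n + 1), 1) = b (2 * n + 2) := by
        simp only [hB]
        rw [if_pos (Or.inr rfl)]
        change band b 0 (idx v) (idx w) = _
        rw [iv, iw, band, if_pos rfl]
      have h2 : (fun x y : Fin (n + 1) × Fin 2 => B (emb x) (emb y)) =
          fun x y : Fin (n + 1) × Fin 2 => band b c (idx x) (idx y) := by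
        funext x y
        simp only [hB]
        rw [if_neg (by have := hembw x; have := hembw y; tauto)]
        simp only [hA, idx_emb]
      rw [h1, h2]
      push_cast
      ring
    · intro x hx
      simp only [hB]
      rw [if_pos (Or.inr rfl)]
      change band b 0 (idx x) (idx w) = 0
      have h1 : idx x ≠ 2 * n + 2 := fun h => hx (inj _ _ (h.trans iv.symm))
      rw [iw, band, if_neg (by omega)]
      split_ifs
      · have := idx_lt x; omega
      · rfl
      · simp
      · rfl
  have hPC : P (fun x y => C x y) = - (2 * ((n : R) + 2) * (2 * ((n : R) + 1)) * c (2 * n) * c (2 * n + 1) *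
        P (fun x y : Fin n × Fin 2 => band b c (idx x) (idx y))) := by
    set τ : Perm (Fin (n + 2) × Fin 2) := swap u v with hτ
    have huv : u ≠ v := by
      intro h
      have : idx u = idx v := by rw [h]
      rw [iu, iv] at this; omega
    have huw : u ≠ w := hembw _
    have hvw : v ≠ w := by
      intro h
      have : idx v = idx w := by rw [h]
      rw [iv, iw] at this; omega
    have hp := P_perm τ C
    rw [hτ, Perm.sign_swap huv] at hp
    have hp' : P (fun x y => C x y) = - P (fun x y => C (swap u v x) (swap u v y)) := by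
      rw [hp]; simp
    rw [hp']
    congr 1
    have hw' : swap u v w = w := swap_apply_of_ne_of_ne huw.symm hvw.symm
    rw [P_expand (fun x y => C (swap u v x) (swap u v y)) (fun x y => hCs _ _)]
    · have h1 : C (swap u v (Fin.last (n + 1), 0)) (swap u v (Fin.last (n + 1), 1)) = c (2 * n + 1) := by
        change C (swap u v v) (swap u v w) = _
        rw [hw', swap_apply_right, hCw _ _ (Or.inr rfl), iu, iw, band]
        rw [if_neg (by omega), if_neg (by omega), if_pos (by omega)]
      rw [h1]
      have h3 : ∀ x : Fin (n + 1) × Fin 2, x ≠ (Fin.last n, 1) → swap u v (emb x) = emb x := by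
        intro x hx
        apply swap_apply_of_ne_of_ne
        · intro h
          apply hx
          have h4 : idx (emb x) = idx u := by rw [h]
          rw [idx_emb, iu] at h4
          apply (eqv (n + 1)).injective
          apply Fin.ext
          rw [eqv_val, eqv_val, h4]
          simp [idx]
        · intro h
          have h4 : idx (emb x) = idx v := by rw [h]
          have h5 := idx_lt x
          rw [idx_emb, iv] at h4
          omega
      have h3' : swap u v (emb (Fin.last n, 1)) = v := by
        rw [← hu, swap_apply_left]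
      have hvne : v ≠ w := hvw
      rw [P_expand (fun x y : Fin (n + 1) × Fin 2 => C (swap u v (emb x)) (swap u v (emb y)))
        (fun x y => hCs _ _)]
      · have h6 : C (swap u v (emb ((Fin.last n, 0) : Fin (n + 1) × Fin 2)))
            (swap u v (emb ((Fin.last n, 1) : Fin (n + 1) × Fin 2))) = c (2 * n) := by
          rw [h3', h3 _ (by simp)]
          simp only [hC]
          rw [if_neg (by have := hembw (Fin.last n, 0); tauto)]
          simp only [hA, idx_emb, iv]
          have h7 : idx ((Fin.last n, 0) : Fin (n + 1) × Fin 2) = 2 * n := by simp [idx]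
          rw [h7, band, if_neg (by omega), if_neg (by omega), if_pos rfl]
        have h8 : (fun x y : Fin n × Fin 2 => C (swap u v (emb (emb x))) (swap u v (emb (emb y)))) =
            fun x y : Fin n × Fin 2 => band b c (idx x) (idx y) := by
          funext x y
          have hne : ∀ x : Fin n × Fin 2, (emb x : Fin (n + 1) × Fin 2) ≠ (Fin.last n, 1) := by
            intro x h
            have h9 : idx (emb x) = idx ((Fin.last n, 1) : Fin (n + 1) × Fin 2) := by rw [h]
            have h10 := idx_lt x
            rw [idx_emb] at h9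
            simp [idx] at h9 h10
            omega
          rw [h3 _ (hne x), h3 _ (hne y)]
          simp only [hC]
          rw [if_neg (by have := hembw (emb x); have := hembw (emb y); tauto)]
          simp only [hA, idx_emb]
        rw [h6, h8]
        push_cast
        ring
      · intro x hx
        rw [h3']
        by_cases hx2 : x = (Fin.last n, 1)
        · rw [hx2, h3']
          have := hCs v v
          simp only [hC]
          rw [if_neg (by tauto)]
          simp only [hA]
          rw [band, if_neg (by omega), if_neg (by omega), if_neg (by omega), if_neg (by omega)]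
        · rw [h3 _ hx2]
          simp only [hC]
          rw [if_neg (by have := hembw x; tauto)]
          simp only [hA, idx_emb, iv]
          have h11 := idx_lt x
          have h12 : idx x ≠ 2 * n := by
            intro h
            apply hx
            apply (eqv (n + 1)).injective
            apply Fin.ext
            rw [eqv_val, eqv_val, h]
            simp [idx]
          have h13 : idx x ≠ 2 * n + 1 := by
            intro h
            apply hx2
            apply (eqv (n + 1)).injective
            apply Fin.ext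
            rw [eqv_val, eqv_val, h]
            simp [idx]
          rw [band, if_neg (by omega), if_neg (by omega), if_neg (by omega), if_neg (by omega)]
    · intro x hx
      change C (swap u v x) (swap u v w) = 0
      rw [hw', hCw _ _ (Or.inr rfl), iw]
      have h14 : idx (swap u v x) ≠ 2 * n + 1 := by
        intro h
        have h15 : swap u v x = u := inj _ _ (h.trans iu.symm)
        apply hx
        have h16 : swap u v (swap u v x) = swap u v u := congrArg (swap u v) h15
        rw [swap_apply_self, swap_apply_left] at h16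
        exact h16
      have h17 := idx_lt (swap u v x)
      unfold band
      split_ifs <;> first | omega | simp
  rw [hPB, hPC]
  ring

theorem band_one (b c : ℕ → R) :
    P (fun x y : Fin 1 × Fin 2 => band b c (idx x) (idx y)) = 2 * b 0 := by
  rw [P_expand (n := 0) (fun x y => band b c (idx x) (idx y)) (fun x y => band_skew b c _ _)]
  · rw [P_zero]
    simp [idx, band]
  · intro x hx
    rcases x with ⟨i, b'⟩
    have : i = 0 := Fin.ext (by have := i.isLt; simp)
    subst this
    fin_cases b'
    · exact absurd rfl hx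
    · simp [idx, band]

end Pool.Agent.Q280.PfBand
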