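import Pool.Agent.Q280.PfL

set_option autoImplicit false

/-!
# Chebyshev-type skew orthogonal families
-/

namespace Pool.Agent.Q280.PfCheb

open Polynomial Finset
open Pool.Agent.Q280.Pf Pool.Agent.Q280.PfL

variable {R : Type*} [CommRing R]

/-- rescaled Chebyshev polynomials of the second kind -/
noncomputable def pU (a : R) : ℕ → R[X]
  | 0 => 1
  | 1 => X
  | (n + 2) => X * pU a (n + 1) - C a * pU a n

/-- rescaled Chebyshev polynomials of the first kind -/
noncomputable def tT (a : R) : ℕ → R[X]
  | 0 => 1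
  | 1 => X
  | (n + 2) => pU a (n + 2) - C a * pU a n

theorem pU_two (a : R) (n : ℕ) : pU a (n + 2) = X * pU a (n + 1) - C a * pU a n := by
  rw [pU]

theorem tT_two (a : R) (n : ℕ) : tT a (n + 2) = pU a (n + 2) - C a * pU a n := by
  rw [tT]

theorem tT_rec (a : R) (n : ℕ) : tT a (n + 3) = X * tT a (n + 2) - C a * tT a (n + 1) := by
  rcases n with _ | n
  · rw [tT_two a 1, tT_two a 0, pU_two a 1]
    simp only [pU, tT]
    ring
  · rw [tT_two a (n + 2), tT_two a (n + 1), tT_two a n, pU_two a (n + 2), pU_two a n]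
    ring

theorem monic_sub [Nontrivial R] {p q : R[X]} {k : ℕ} (hp : p.Monic) (hd : p.natDegree = k)
    (hq : q.natDegree < k) : (p - q).Monic ∧ (p - q).natDegree = k := by
  have h1 : (p - q).natDegree = k := by
    rw [natDegree_sub_eq_left_of_natDegree_lt (by rw [hd]; exact hq), hd]
  refine ⟨?_, h1⟩
  rw [Monic, leadingCoeff, h1, coeff_sub, coeff_eq_zero_of_natDegree_lt hq, sub_zero]
  rw [Monic, leadingCoeff, hd] at hp
  exact hp

theorem pU_deg [Nontrivial R] (a : R) : ∀ n, (pU a n).Monic ∧ (pU a n).natDegree = n := by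
  intro n
  induction n using Nat.strong_induction_on with
  | _ n ih =>
    rcases n with _ | _ | n
    · simp [pU]
    · simp [pU, monic_X]
    · rw [pU_two]
      obtain ⟨h1, h2⟩ := ih (n + 1) (by omega)
      obtain ⟨h3, h4⟩ := ih n (by omega)
      refine monic_sub (monic_X.mul h1) ?_ ?_
      · rw [monic_X.natDegree_mul h1, natDegree_X, h2]; omega
      · refine lt_of_le_of_lt (natDegree_C_mul_le _ _) ?_
        rw [h4]; omega

theorem tT_deg [Nontrivial R] (a : R) (n : ℕ) : (tT a n).Monic ∧ (tT a n).natDegree = n := by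
  rcases n with _ | _ | n
  · simp [tT]
  · simp [tT, monic_X]
  · rw [tT_two]
    refine monic_sub (pU_deg a _).1 (pU_deg a _).2 ?_
    refine lt_of_le_of_lt (natDegree_C_mul_le _ _) ?_
    rw [(pU_deg a _).2]; omega

theorem pU_par (a : R) : ∀ n, (pU a n).comp (-X) = (-1) ^ n * pU a n := by
  intro n
  induction n using Nat.strong_induction_on with
  | _ n ih =>
    rcases n with _ | _ | n
    · simp [pU]
    · simp [pU]
    · rw [pU_two, sub_comp, mul_comp, mul_comp, C_comp, X_comp, ih (n + 1) (by omega),
        ih n (by omega)]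
      ring

theorem tT_par (a : R) (n : ℕ) : (tT a n).comp (-X) = (-1) ^ n * tT a n := by
  rcases n with _ | _ | n
  · simp [tT]
  · simp [tT]
  · rw [tT_two, sub_comp, mul_comp, C_comp, pU_par, pU_par]
    ring

theorem pU_der (a : R) : ∀ n : ℕ,
    (X * derivative (pU a (n + 1)) = (n + 1 : R[X]) * pU a (n + 1) + 2 * C a * derivative (pU a n)) ∧
    (X * derivative (pU a n) = 2 * derivative (pU a (n + 1)) - (n + 2 : R[X]) * pU a n) := by
  intro n
  induction n with
  | zero => constructor <;> simp [pU]
  | succ n ih =>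
    obtain ⟨h1, h2⟩ := ih
    have h3 : derivative (pU a (n + 2)) = pU a (n + 1) + X * derivative (pU a (n + 1)) -
        C a * derivative (pU a n) := by
      rw [pU_two, derivative_sub, derivative_mul, derivative_X, derivative_C_mul]
      ring
    constructor
    · rw [h3]
      rw [show n + 1 + 1 = n + 2 by omega, pU_two]
      push_cast
      linear_combination X * h1 + (C a) * h2
    · push_cast
      rw [show n + 1 + 1 = n + 2 by omega, h3]
      linear_combination (-1 : R[X]) * h1

theorem tT_der (a : R) (n : ℕ) : derivative (tT a (n + 1)) = (n + 1 : R[X]) * pU a n := by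
  rcases n with _ | n
  · simp [tT, pU]
  · rw [tT_two, pU_two, derivative_sub, derivative_sub, derivative_mul, derivative_X,
      derivative_C_mul]
    have h1 := (pU_der a n).1
    push_cast
    linear_combination h1

/-- ballot numbers -/
def bal (s m : ℕ) : ℤ := ((2 * s + m).choose s : ℤ) - (if s = 0 then 0 else ((2 * s + m).choose (s - 1) : ℤ))

theorem bal_zero (m : ℕ) : bal 0 m = 1 := by simp [bal]

theorem bal_rec (s m : ℕ) : bal (s + 1) (m + 1) = bal s (m + 2) + bal (s + 1) m := by
  rcases s with _ | s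
  · simp only [bal]
    simp
    ring
  · simp only [bal]
    simp only [Nat.add_eq_zero_iff, one_ne_zero, and_false, if_false, Nat.add_sub_cancel]
    have e1 : 2 * (s + 1 + 1) + (m + 1) = (2 * s + m + 4) + 1 := by omega
    have e2 : 2 * (s + 1) + (m + 2) = 2 * s + m + 4 := by omega
    have e3 : 2 * (s + 1 + 1) + m = 2 * s + m + 4 := by omega
    rw [e1, e2, e3, Nat.choose_succ_succ' (2 * s + m + 4) (s + 1),
      Nat.choose_succ_succ' (2 * s + m + 4) s]
    push_cast
    ring

theorem bal_rec0 (s : ℕ) : bal (s + 1) 0 = bal s 1 := by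
  rcases s with _ | s
  · simp [bal]
  · simp only [bal]
    simp only [Nat.add_eq_zero_iff, one_ne_zero, and_false, if_false, Nat.add_sub_cancel]
    have e1 : 2 * (s + 1 + 1) + 0 = (2 * s + 3) + 1 := by omega
    have e2 : 2 * (s + 1) + 1 = 2 * s + 3 := by omega
    rw [e1, e2, Nat.choose_succ_succ' (2 * s + 3) (s + 1), Nat.choose_succ_succ' (2 * s + 3) s]
    have e3 : (2 * s + 3).choose (s + 2) = (2 * s + 3).choose (s + 1) :=
      Nat.choose_symm_of_eq_add (by omega)
    rw [e3]
    push_cast
    ring

/-- Catalan moments -/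
def mU (a : R) (k : ℕ) : R := if k % 2 = 0 then a ^ (k / 2) * (bal (k / 2) 0 : R) else 0

/-- central binomial moments -/
def mT (a : R) (k : ℕ) : R := if k % 2 = 0 then a ^ (k / 2) * ((k.choose (k / 2) : ℕ) : R) else 0

theorem parity_zero (hc : ∀ x : R, 2 * x = 0 → x = 0) (m : ℕ → R) (hm : ∀ k, k % 2 = 1 → m k = 0)
    (p : R[X]) (n k : ℕ) (hp : p.comp (-X) = (-1) ^ n * p) (h : (k + n) % 2 = 1) :
    Lf m (X ^ k * p) = 0 := by
  apply even_odd hc m hm
  rw [mul_comp, pow_comp, X_comp, hp, neg_pow]
  have : (-1 : R[X]) ^ k * (-1) ^ n = -1 := by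
    rw [← pow_add]
    exact (Nat.odd_iff.2 h).neg_one_pow
  linear_combination (X ^ k * p) * this

theorem pU_fun (hc : ∀ x : R, 2 * x = 0 → x = 0) (a : R) : ∀ m : ℕ,
    (∀ s, Lf (mU a) (X ^ (2 * s + m) * pU a m) = a ^ (s + m) * (bal s m : R)) ∧
    (∀ j, j < m → Lf (mU a) (X ^ j * pU a m) = 0) := by
  have hm : ∀ k, k % 2 = 1 → mU a k = 0 := by
    intro k hk; simp [mU, hk]
  have hpar : ∀ n k, (k + n) % 2 = 1 → Lf (mU a) (X ^ k * pU a n) = 0 := fun n k h =>
    parity_zero hc _ hm _ n k (pU_par a n) h
  intro m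
  induction m using Nat.strong_induction_on with
  | _ m ih =>
    rcases m with _ | _ | m
    · constructor
      · intro s
        simp only [pU, mul_one, add_zero]
        rw [Lf_X_pow, mU, if_pos (by omega)]
        simp
      · intro j hj; omega
    · constructor
      · intro s
        simp only [pU]
        rw [← pow_succ, Lf_X_pow, mU, if_pos (by omega),
          show (2 * s + (0 + 1) + 1) / 2 = s + 1 by omega, bal_rec0]
      · intro j hj
        exact hpar _ _ (by omega)
    · have key : ∀ k, Lf (mU a) (X ^ k * pU a (m + 2)) =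
          Lf (mU a) (X ^ (k + 1) * pU a (m + 1)) - a * Lf (mU a) (X ^ k * pU a m) := by
        intro k
        rw [pU_two, mul_sub, map_sub]
        congr 1
        · congr 1; ring
        · rw [show X ^ k * (C a * pU a m) = a • (X ^ k * pU a m) by rw [smul_eq_C_mul]; ring,
            map_smul, smul_eq_mul]
      obtain ⟨A1, C1⟩ := ih (m + 1) (by omega)
      obtain ⟨A0, C0⟩ := ih m (by omega)
      constructor
      · intro s
        rw [key]
        have e1 := A1 (s + 1)
        have e0 := A0 (s + 1)
        rw [show 2 * s + (m + 2) + 1 = 2 * (s + 1) + (m + 1) by omega, e1,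
          show 2 * s + (m + 2) = 2 * (s + 1) + m by omega, e0, bal_rec]
        push_cast
        ring
      · intro j hj
        rw [key]
        rcases Nat.lt_trichotomy j m with h | h | h
        · rw [C1 (j + 1) (by omega), C0 j h]; ring
        · subst h
          have e1 := A1 0
          have e0 := A0 0
          simp only [mul_zero, zero_add, bal_zero] at e1 e0
          rw [e1, e0]
          push_cast
          ring
        · rw [hpar _ _ (by omega), hpar _ _ (by omega)]; ring

theorem tT_fun (hc : ∀ x : R, 2 * x = 0 → x = 0) (a : R) : ∀ m : ℕ,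
    (∀ s, Lf (mT a) (X ^ (2 * s + (m + 1)) * tT a (m + 1)) =
      2 * a ^ (s + (m + 1)) * (((2 * s + (m + 1)).choose s : ℕ) : R)) ∧
    (∀ j, j < m + 1 → Lf (mT a) (X ^ j * tT a (m + 1)) = 0) := by
  have hm : ∀ k, k % 2 = 1 → mT a k = 0 := by
    intro k hk; simp [mT, hk]
  have hpar : ∀ n k, (k + n) % 2 = 1 → Lf (mT a) (X ^ k * tT a n) = 0 := fun n k h =>
    parity_zero hc _ hm _ n k (tT_par a n) h
  intro m
  induction m using Nat.strong_induction_on with
  | _ m ih =>
    rcases m with _ | _ | m
    · constructor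
      · intro s
        simp only [tT]
        rw [← pow_succ, Lf_X_pow, mT, if_pos (by omega),
          show (2 * s + (0 + 1) + 1) / 2 = s + 1 by omega]
        have e1 : (2 * s + (0 + 1) + 1).choose (s + 1) = 2 * (2 * s + (0 + 1)).choose s := by
          rw [Nat.choose_succ_succ']
          have e3 : (2 * s + (0 + 1)).choose (s + 1) = (2 * s + (0 + 1)).choose s :=
            Nat.choose_symm_of_eq_add (by omega)
          rw [e3]; ring
        rw [e1]
        push_cast
        ring
      · intro j hj
        exact hpar _ _ (by omega)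
    · have key : ∀ k, Lf (mT a) (X ^ k * tT a (0 + 1 + 1)) =
          mT a (k + 2) - 2 * a * mT a k := by
        intro k
        have e1 : tT a (0 + 1 + 1) = X ^ 2 - C (2 * a) := by
          rw [tT_two, pU_two]
          simp only [pU, C_mul, C_ofNat]
          ring
        rw [e1, mul_sub, map_sub, ← pow_add, Lf_X_pow]
        congr 1
        rw [mul_comm, ← smul_eq_C_mul, map_smul, smul_eq_mul, Lf_X_pow]
      constructor
      · intro s
        rw [key, mT, mT, if_pos (by omega), if_pos (by omega),
          show (2 * s + (0 + 1 + 1) + 2) / 2 = s + 2 by omega,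
          show (2 * s + (0 + 1 + 1)) / 2 = s + 1 by omega,
          show 2 * s + (0 + 1 + 1) + 2 = (2 * s + 2) + 1 + 1 by omega,
          show 2 * s + (0 + 1 + 1) = 2 * s + 2 by omega,
          Nat.choose_succ_succ' ((2 * s + 2) + 1) (s + 1), Nat.choose_succ_succ' (2 * s + 2) (s + 1),
          Nat.choose_succ_succ' (2 * s + 2) s]
        have e3 : (2 * s + 2).choose (s + 1 + 1) = (2 * s + 2).choose s :=
          Nat.choose_symm_of_eq_add (by omega)
        rw [e3]
        push_cast
        ring
      · intro j hj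
        rw [key]
        have : j = 0 ∨ j = 1 := by omega
        rcases this with rfl | rfl
        · simp [mT]; ring
        · simp [mT]
    · have key : ∀ k, Lf (mT a) (X ^ k * tT a (m + 3)) =
          Lf (mT a) (X ^ (k + 1) * tT a (m + 2)) - a * Lf (mT a) (X ^ k * tT a (m + 1)) := by
        intro k
        rw [tT_rec, mul_sub, map_sub]
        congr 1
        · congr 1; ring
        · rw [show X ^ k * (C a * tT a (m + 1)) = a • (X ^ k * tT a (m + 1)) by
              rw [smul_eq_C_mul]; ring, map_smul, smul_eq_mul]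
      obtain ⟨A1, C1⟩ := ih (m + 1) (by omega)
      obtain ⟨A0, C0⟩ := ih m (by omega)
      constructor
      · intro s
        have key' := key (2 * s + (m + 3))
        have e1 := A1 (s + 1)
        have e0 := A0 (s + 1)
        rw [show m + 1 + 1 = m + 2 by omega] at e1
        rw [show 2 * s + (m + 3) + 1 = 2 * (s + 1) + (m + 2) by omega, e1,
          show 2 * s + (m + 3) = 2 * (s + 1) + (m + 1) by omega, e0] at key'
        rw [show m + 1 + 1 + 1 = m + 3 by omega,
          show 2 * s + (m + 3) = 2 * (s + 1) + (m + 1) by omega, key',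
          show 2 * (s + 1) + (m + 2) = (2 * (s + 1) + (m + 1)) + 1 by omega,
          Nat.choose_succ_succ']
        push_cast
        ring
      · intro j hj
        rw [show m + 1 + 1 + 1 = m + 3 by omega, key]
        rcases Nat.lt_trichotomy j (m + 1) with h | h | h
        · rw [show m + 2 = m + 1 + 1 by omega, C1 (j + 1) (by omega), C0 j h]; ring
        · subst h
          have e1 := A1 0
          have e0 := A0 0
          simp only [mul_zero, zero_add, Nat.choose_zero_right] at e1 e0
          rw [show m + 2 = m + 1 + 1 by omega, e1, e0]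
          push_cast
          ring
        · rw [hpar _ _ (by omega), hpar _ _ (by omega)]; ring

/-- pairing with a polynomial of degree at most `m` -/
theorem pair_low (m : ℕ → R) (p : R[X]) (N : ℕ) (h : ∀ j, j < N → Lf m (X ^ j * p) = 0) (f : R[X])
    (hf : f.natDegree < N) : Lf m (f * p) = 0 := by
  conv_lhs => rw [f.as_sum_range, Finset.sum_mul]
  rw [map_sum]
  refine Finset.sum_eq_zero fun j hj => ?_
  rw [mem_range] at hj
  rw [← C_mul_X_pow_eq_monomial, mul_assoc, ← smul_eq_C_mul, map_smul, h j (by omega), smul_zero]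

theorem pair_monic (m : ℕ → R) (p : R[X]) (N : ℕ) (h : ∀ j, j < N → Lf m (X ^ j * p) = 0) (f : R[X])
    (hf : f.natDegree = N) (hfm : f.Monic) : Lf m (f * p) = Lf m (X ^ N * p) := by
  conv_lhs => rw [f.as_sum_range, Finset.sum_mul]
  rw [map_sum, Finset.sum_range_succ, Finset.sum_eq_zero, zero_add]
  · rw [← C_mul_X_pow_eq_monomial, mul_assoc, ← smul_eq_C_mul, map_smul, hf]
    rw [Monic, leadingCoeff, hf] at hfm
    rw [hfm, one_smul]
  · intro j hj
    rw [mem_range] at hj
    rw [← C_mul_X_pow_eq_monomial, mul_assoc, ← smul_eq_C_mul, map_smul, h j (by omega), smul_zero]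

/-- second kind evaluation -/
theorem evalU [IsDomain R] (hc : ∀ x : R, 2 * x = 0 → x = 0) (a c : R) (μ : ℕ → R)
    (hμ : ∀ k, μ k = Lf (mU a) ((X + C c) ^ k)) (n : ℕ) :
    P (fun x y : Fin n × Fin 2 => ((idx y : R) - idx x) * μ (idx x + idx y - 1)) =
      2 ^ n * (n.factorial : R) * ∏ k ∈ range n, ((4 * (k : R) + 1) * a ^ (2 * k)) := by
  have hm : ∀ k, k % 2 = 1 → mU a k = 0 := by
    intro k hk; simp [mU, hk]
  rw [P_eval hc (mU a) hm (fun k => pU a (2 * k)) (fun k => tT a (2 * k + 1))
    (fun k => (pU_deg a _).1) (fun k => (pU_deg a _).2) (fun k => (tT_deg a _).1)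
    (fun k => (tT_deg a _).2) (fun k => ?_) (fun k => ?_) (fun k => ?_) (fun k l hkl => ?_)
    (fun k => a ^ (2 * k)) (fun k => ?_) (fun l j hj => ?_) (fun l => a ^ (2 * l)) (fun l hl => ?_)
    c μ hμ n]
  · congr 1
    refine Finset.prod_congr rfl fun k _ => ?_
    ring
  · rw [pU_par, pow_mul, neg_one_sq, one_pow, one_mul]
  · rw [tT_par, pow_succ, pow_mul, neg_one_sq, one_pow]; ring
  · rw [tT_der]
    simp only [map_add, map_mul, map_ofNat, map_natCast, map_one]
    push_cast; ring
  · refine pair_low _ _ (2 * l) (pU_fun hc a (2 * l)).2 _ ?_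
    rw [(pU_deg a _).2]; omega
  · rw [pair_monic _ _ (2 * k) (pU_fun hc a (2 * k)).2 _ (pU_deg a _).2 (pU_deg a _).1]
    have := (pU_fun hc a (2 * k)).1 0
    rw [mul_zero, zero_add, bal_zero] at this
    rw [this]; simp
  · rcases l with _ | l
    · omega
    · rw [show 2 * (l + 1) + 1 = (2 * l + 1) + 2 by omega, tT_two, mul_sub, map_sub,
        (pU_fun hc a _).2 j (by omega),
        show X ^ j * (C a * pU a (2 * l + 1)) = a • (X ^ j * pU a (2 * l + 1)) by
          rw [smul_eq_C_mul]; ring, map_smul, (pU_fun hc a _).2 j (by omega)]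
      simp
  · rcases l with _ | l
    · omega
    · rw [show 2 * (l + 1) - 1 = 2 * l + 1 by omega,
        show 2 * (l + 1) + 1 = (2 * l + 1) + 2 by omega, tT_two, mul_sub, map_sub,
        (pU_fun hc a _).2 _ (by omega),
        show X ^ (2 * l + 1) * (C a * pU a (2 * l + 1)) = a • (X ^ (2 * l + 1) * pU a (2 * l + 1)) by
          rw [smul_eq_C_mul]; ring, map_smul]
      have := (pU_fun hc a (2 * l + 1)).1 0
      rw [mul_zero, zero_add, bal_zero] at this
      rw [this]
      simp only [smul_eq_mul]
      push_cast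
      ring

/-- first kind evaluation (over a field) -/
theorem evalT {K : Type*} [Field K] [CharZero K] (a c : K) (μ : ℕ → K)
    (hμ : ∀ k, μ k = Lf (mT a) ((X + C c) ^ k)) (n : ℕ) :
    P (fun x y : Fin (n + 1) × Fin 2 => ((idx y : K) - idx x) * μ (idx x + idx y - 1)) =
      2 ^ (n + 1) * ((n + 1).factorial : K) *
        (2 ^ n * a ^ (n * (n + 1)) * (2 * (n : K) + 1) * ∏ k ∈ range n, (4 * (k : K) + 3)) := by
  have hc : ∀ x : K, 2 * x = 0 → x = 0 := fun x hx => by
    rcases mul_eq_zero.1 hx with h | h
    · exact absurd h two_ne_zero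
    · exact h
  have hm : ∀ k, k % 2 = 1 → mT a k = 0 := by
    intro k hk; simp [mT, hk]
  have hne : ∀ l : ℕ, (2 * (l : K) + 1) ≠ 0 := fun l => by
    have : ((2 * l + 1 : ℕ) : K) ≠ 0 := Nat.cast_ne_zero.2 (by omega)
    push_cast at this; exact this
  set o : ℕ → K[X] := fun k => if k = 0 then X else
    tT a (2 * k + 1) - C (a * ((2 * (k : K) + 1) / (2 * (k : K) - 1))) * tT a (2 * k - 1) with ho
  have hor : ∀ k, o (k + 1) = tT a (2 * k + 3) -
      C (a * ((2 * (k : K) + 3) / (2 * (k : K) + 1))) * tT a (2 * k + 1) := by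
    intro k
    simp only [ho, Nat.add_eq_zero_iff, one_ne_zero, and_false, if_false]
    rw [show 2 * (k + 1) + 1 = 2 * k + 3 by omega, show 2 * (k + 1) - 1 = 2 * k + 1 by omega]
    push_cast
    congr 4
    ring
  have hod : ∀ k, (o k).Monic ∧ (o k).natDegree = 2 * k + 1 := by
    intro k
    rcases k with _ | k
    · simp [ho, monic_X]
    · rw [hor]
      refine monic_sub (tT_deg a _).1 (tT_deg a _).2 ?_
      refine lt_of_le_of_lt (natDegree_C_mul_le _ _) ?_
      rw [(tT_deg a _).2]; omega
  set h : ℕ → K := fun k => if k = 0 then 1 else 2 * a ^ (2 * k) with hh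
  set g : ℕ → K := fun k => 2 * a ^ (2 * k) * ((2 * (k : K) + 1) / (2 * (k : K) - 1)) with hg
  rw [P_eval hc (mT a) hm (fun k => tT a (2 * k)) o
    (fun k => (tT_deg a _).1) (fun k => (tT_deg a _).2) (fun k => (hod k).1)
    (fun k => (hod k).2) (fun k => ?_) (fun k => ?_) (fun k => ?_) (fun k l hkl => ?_)
    h (fun k => ?_) (fun l j hj => ?_) g (fun l hl => ?_)
    c μ hμ (n + 1)]
  · congr 1
    rw [Finset.prod_range_succ']
    have e0 : (2 * ((0 : ℕ) : K) + 1) * h 0 + 2 * ((0 : ℕ) : K) * g 0 = 1 := by simp [hh]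
    rw [e0, mul_one]
    induction n with
    | zero => simp
    | succ n ih =>
      rw [Finset.prod_range_succ, ih, Finset.prod_range_succ]
      have h1 := hne n
      have h2 : h (n + 1) = 2 * a ^ (2 * (n + 1)) := by simp [hh]
      have h3 : g (n + 1) = 2 * a ^ (2 * (n + 1)) * ((2 * (n : K) + 3) / (2 * (n : K) + 1)) := by
        simp only [hg]; push_cast; congr 2
        · ring
        · ring
      rw [h2, h3]
      push_cast
      field_simp
      ring
  · rw [tT_par, pow_mul, neg_one_sq, one_pow, one_mul]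
  · rcases k with _ | k
    · simp [ho]
    · rw [hor, sub_comp, mul_comp, C_comp, tT_par, tT_par,
        show 2 * k + 3 = 2 * (k + 1) + 1 by omega, pow_succ, pow_mul, neg_one_sq, one_pow,
        pow_succ, pow_mul, neg_one_sq, one_pow]
      ring
  · rcases k with _ | k
    · simp [ho, tT]
    · rw [hor, derivative_sub, derivative_C_mul, tT_der, tT_der,
        show 2 * (k + 1) = 2 * k + 2 by omega, tT_two]
      have h1 := hne k
      have e1 : C (a * ((2 * (k : K) + 3) / (2 * (k : K) + 1))) * (((2 * k : ℕ) : K[X]) + 1) =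
          C (a * (2 * (k : K) + 3)) := by
        have e2 : (((2 * k : ℕ) : K[X]) + 1) = C (2 * (k : K) + 1) := by
          simp only [map_add, map_mul, map_ofNat, map_natCast, map_one]; push_cast; ring
        rw [e2, ← C_mul]
        congr 1
        field_simp
      rw [← mul_assoc, e1]
      simp only [map_add, map_mul, map_ofNat, map_natCast, map_one]
      push_cast
      ring
  · rcases l with _ | l
    · omega
    · refine pair_low _ _ (2 * (l + 1)) (tT_fun hc a (2 * l + 1)).2 _ ?_
      rw [(tT_deg a _).2]; omega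
  · rcases k with _ | k
    · simp only [mul_zero, tT, mul_one, hh, if_true]
      have := Lf_X_pow (mT a) 0
      rw [pow_zero] at this
      rw [this]; simp [mT]
    · simp only [hh, Nat.add_eq_zero_iff, one_ne_zero, and_false, if_false]
      rw [show 2 * (k + 1) = 2 * k + 1 + 1 by omega,
        pair_monic _ _ (2 * k + 1 + 1) (tT_fun hc a (2 * k + 1)).2 _ (tT_deg a _).2 (tT_deg a _).1]
      have := (tT_fun hc a (2 * k + 1)).1 0
      simp only [mul_zero, zero_add, Nat.choose_zero_right, Nat.cast_one, mul_one] at this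
      exact this
  · rcases l with _ | l
    · omega
    · rw [hor, mul_sub, map_sub, (tT_fun hc a (2 * l + 2)).2 j (by omega),
        show X ^ j * (C (a * ((2 * (l : K) + 3) / (2 * (l : K) + 1))) * tT a (2 * l + 1)) =
          (a * ((2 * (l : K) + 3) / (2 * (l : K) + 1))) • (X ^ j * tT a (2 * l + 1)) by
          rw [smul_eq_C_mul]; ring, map_smul, (tT_fun hc a (2 * l)).2 j (by omega)]
      simp
  · rcases l with _ | l
    · omega
    · rw [show 2 * (l + 1) - 1 = 2 * l + 1 by omega, hor, mul_sub, map_sub,
        (tT_fun hc a (2 * l + 2)).2 _ (by omega),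
        show X ^ (2 * l + 1) * (C (a * ((2 * (l : K) + 3) / (2 * (l : K) + 1))) * tT a (2 * l + 1)) =
          (a * ((2 * (l : K) + 3) / (2 * (l : K) + 1))) • (X ^ (2 * l + 1) * tT a (2 * l + 1)) by
          rw [smul_eq_C_mul]; ring, map_smul]
      have := (tT_fun hc a (2 * l)).1 0
      simp only [mul_zero, zero_add, Nat.choose_zero_right, Nat.cast_one, mul_one] at this
      rw [this]
      have h3 : g (l + 1) = 2 * a ^ (2 * (l + 1)) * ((2 * (l : K) + 3) / (2 * (l : K) + 1)) := by
        simp only [hg]; push_cast; congr 2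
        · ring
        · ring
      rw [h3]
      simp only [smul_eq_mul]
      ring

end Pool.Agent.Q280.PfCheb
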