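import Pool.Agent.Q280.Pf

set_option autoImplicit false

/-!
# Pfaffians `Pf((j-i) μ_{i+j-1})` through skew-orthogonal polynomials
-/

namespace Pool.Agent.Q280.PfL

open Polynomial Finset Matrix Equiv
open Pool.Agent.Q280.Pf

variable {R : Type*} [CommRing R]

/-- the functional with moments `m` -/
noncomputable def Lf (m : ℕ → R) : R[X] →ₗ[R] R := (Polynomial.basisMonomials R).constr R m

@[simp] theorem Lf_monomial (m : ℕ → R) (k : ℕ) (r : R) : Lf m (monomial k r) = r * m k := by
  have h : monomial k r = r • (Polynomial.basisMonomials R) k := by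
    rw [Polynomial.coe_basisMonomials]
    simp [Polynomial.smul_monomial]
  rw [h, map_smul, Lf, Module.Basis.constr_basis, smul_eq_mul]

theorem Lf_X_pow (m : ℕ → R) (k : ℕ) : Lf m (X ^ k) = m k := by
  rw [X_pow_eq_monomial, Lf_monomial, one_mul]

theorem Lf_apply (m : ℕ → R) (f : R[X]) : Lf m f = ∑ k ∈ range (f.natDegree + 1), f.coeff k * m k := by
  conv_lhs => rw [f.as_sum_range]
  rw [map_sum]
  refine Finset.sum_congr rfl fun k _ => ?_
  rw [Lf_monomial]

/-- the skew form -/
noncomputable def S (L : R[X] →ₗ[R] R) (f g : R[X]) : R := L (f * derivative g - derivative f * g)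

theorem S_skew (L : R[X] →ₗ[R] R) (f g : R[X]) : S L g f = - S L f g := by
  unfold S
  rw [← map_neg]
  congr 1
  ring

theorem S_sum_left {ι : Type*} (L : R[X] →ₗ[R] R) (s : Finset ι) (c : ι → R) (f : ι → R[X])
    (g : R[X]) : S L (∑ i ∈ s, c i • f i) g = ∑ i ∈ s, c i * S L (f i) g := by
  unfold S
  rw [derivative_sum, Finset.sum_mul, Finset.sum_mul, ← Finset.sum_sub_distrib, map_sum]
  refine Finset.sum_congr rfl fun i _ => ?_
  rw [derivative_smul, smul_mul_assoc, smul_mul_assoc, ← smul_sub, map_smul, smul_eq_mul]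

theorem S_sum_right {ι : Type*} (L : R[X] →ₗ[R] R) (s : Finset ι) (c : ι → R) (f : ι → R[X])
    (g : R[X]) : S L g (∑ i ∈ s, c i • f i) = ∑ i ∈ s, c i * S L g (f i) := by
  rw [S_skew, S_sum_left, ← Finset.sum_neg_distrib]
  refine Finset.sum_congr rfl fun i _ => ?_
  rw [S_skew L g (f i)]
  ring

theorem S_XX (m : ℕ → R) (i j : ℕ) :
    S (Lf m) (X ^ i) (X ^ j) = ((j : R) - i) * m (i + j - 1) := by
  unfold S
  rw [derivative_X_pow, derivative_X_pow, map_sub]
  have e1 : (X : R[X]) ^ i * (C (j : R) * X ^ (j - 1)) = monomial (i + (j - 1)) (j : R) := by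
    rw [← C_mul_X_pow_eq_monomial, pow_add]; ring
  have e2 : (C (i : R) * X ^ (i - 1)) * (X : R[X]) ^ j = monomial ((i - 1) + j) (i : R) := by
    rw [← C_mul_X_pow_eq_monomial, pow_add]; ring
  rw [e1, e2, Lf_monomial, Lf_monomial]
  rcases Nat.eq_zero_or_pos i with rfl | hi
  · rcases Nat.eq_zero_or_pos j with rfl | hj
    · simp
    · simp
  · rcases Nat.eq_zero_or_pos j with rfl | hj
    · simp
    · rw [show i + (j - 1) = i + j - 1 by omega, show i - 1 + j = i + j - 1 by omega]
      ring

variable {n : ℕ}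

/-- the index of a pair -/
def idx (c : Fin n × Fin 2) : ℕ := 2 * (c.1 : ℕ) + (c.2 : ℕ)

theorem idx_lt (c : Fin n × Fin 2) : idx c < 2 * n := by
  have h1 := c.1.isLt
  have h2 := c.2.isLt
  unfold idx
  omega

/-- the equivalence of pairs with `Fin (2 * n)` -/
def eqv (n : ℕ) : Fin n × Fin 2 ≃ Fin (2 * n) where
  toFun c := ⟨idx c, idx_lt c⟩
  invFun i := (⟨(i : ℕ) / 2, by have := i.isLt; omega⟩, ⟨(i : ℕ) % 2, by omega⟩)
  left_inv c := by
    have h2 := c.2.isLt
    refine Prod.ext (Fin.ext ?_) (Fin.ext ?_)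
    · simp only [idx]; omega
    · simp only [idx]; omega
  right_inv i := by
    apply Fin.ext
    simp only [idx]
    omega

theorem eqv_val (c : Fin n × Fin 2) : ((eqv n c : Fin (2 * n)) : ℕ) = idx c := rfl

/-- invariance of the Pfaffian of a skew form under change of monic basis -/
theorem P_monic (m : ℕ → R) (q : ℕ → R[X]) (hq : ∀ i, (q i).Monic) (hd : ∀ i, (q i).natDegree = i) :
    P (fun c d : Fin n × Fin 2 => S (Lf m) (q (idx c)) (q (idx d))) =
      P (fun c d : Fin n × Fin 2 => ((idx d : R) - idx c) * m (idx c + idx d - 1)) := by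
  classical
  set A : Matrix (Fin n × Fin 2) (Fin n × Fin 2) R :=
    fun c d => ((idx d : R) - idx c) * m (idx c + idx d - 1) with hA
  set T : Matrix (Fin n × Fin 2) (Fin n × Fin 2) R := fun c d => (q (idx c)).coeff (idx d) with hT
  have hexp : ∀ c : Fin n × Fin 2, q (idx c) =
      ∑ d : Fin n × Fin 2, T c d • (X : R[X]) ^ idx d := by
    intro c
    have h1 : q (idx c) = ∑ i ∈ range (2 * n), (q (idx c)).coeff i • (X : R[X]) ^ i := by
      conv_lhs => rw [Polynomial.as_sum_range' (q (idx c)) (2 * n) (by rw [hd]; exact idx_lt c)]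
      refine Finset.sum_congr rfl fun i _ => ?_
      rw [← C_mul_X_pow_eq_monomial, smul_eq_C_mul]
    rw [h1, ← Fin.sum_univ_eq_sum_range (fun i => (q (idx c)).coeff i • (X : R[X]) ^ i) (2 * n),
      ← (eqv n).sum_comp]
    rfl
  have hdet : T.det = 1 := by
    have e : T = (Matrix.of fun i j : Fin (2 * n) => (q i).coeff j).submatrix (eqv n) (eqv n) := by
      ext c d; rfl
    rw [e, Matrix.det_submatrix_equiv_self, Matrix.det_of_isLowerTriangular]
    · refine Finset.prod_eq_one fun i _ => ?_
      have := hq i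
      rw [Polynomial.Monic, Polynomial.leadingCoeff, hd] at this
      simpa using this
    · intro i j hij
      have hij' : (i : ℕ) < j := by simpa using hij
      simp only [Matrix.of_apply]
      exact Polynomial.coeff_eq_zero_of_natDegree_lt (by rw [hd]; exact hij')
  have hmat : (fun c d : Fin n × Fin 2 => S (Lf m) (q (idx c)) (q (idx d)) :
      Matrix (Fin n × Fin 2) (Fin n × Fin 2) R) = T * A * Tᵀ := by
    ext c d
    rw [hexp c, hexp d, S_sum_left]
    rw [Matrix.mul_apply]
    simp_rw [S_sum_right, S_XX, Matrix.mul_apply, Matrix.transpose_apply, Finset.mul_sum,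
      Finset.sum_mul]
    rw [Finset.sum_comm]
    refine Finset.sum_congr rfl fun x _ => Finset.sum_congr rfl fun y _ => ?_
    simp only [hA]
    ring
  rw [hmat, P_congr, hdet, one_mul]

/-- translation of a functional -/
theorem S_comp (L L' : R[X] →ₗ[R] R) (c : R) (h : ∀ f, L' f = L (f.comp (X + C c))) (f g : R[X]) :
    S L' f g = S L (f.comp (X + C c)) (g.comp (X + C c)) := by
  unfold S
  rw [h]
  congr 1
  simp [derivative_comp]

/-- parity -/
theorem even_odd (hc : ∀ x : R, 2 * x = 0 → x = 0) (m : ℕ → R) (hm : ∀ k, k % 2 = 1 → m k = 0)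
    (f : R[X]) (hf : f.comp (-X) = -f) : Lf m f = 0 := by
  have h1 : ∀ g : R[X], Lf m (g.comp (-X)) = Lf m g := by
    intro g
    induction g using Polynomial.induction_on' with
    | add p q hp hq => rw [add_comp, map_add, hp, hq, map_add]
    | monomial k r =>
      rw [← C_mul_X_pow_eq_monomial]
      simp only [mul_comp, C_comp, pow_comp, X_comp, neg_pow (X : R[X])]
      rcases Nat.even_or_odd k with hk | hk
      · rw [hk.neg_one_pow, one_mul]
      · rw [hk.neg_one_pow]
        have e1 : C r * (-1 * X ^ k) = monomial k (-r) := by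
          rw [← C_mul_X_pow_eq_monomial, C_neg]; ring
        rw [e1, C_mul_X_pow_eq_monomial, Lf_monomial, Lf_monomial, hm k (Nat.odd_iff.1 hk)]
        simp
  have h2 := h1 f
  rw [hf, map_neg] at h2
  apply hc
  linear_combination -h2

/-- the main evaluation -/
theorem P_eval [IsDomain R] (hc : ∀ x : R, 2 * x = 0 → x = 0) (m : ℕ → R) (hm : ∀ k, k % 2 = 1 → m k = 0)
    (e o : ℕ → R[X]) (he : ∀ k, (e k).Monic) (hed : ∀ k, (e k).natDegree = 2 * k)
    (ho : ∀ k, (o k).Monic) (hod : ∀ k, (o k).natDegree = 2 * k + 1)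
    (hep : ∀ k, (e k).comp (-X) = e k) (hop : ∀ k, (o k).comp (-X) = - o k)
    (hder : ∀ k, derivative (o k) = C (2 * (k : R) + 1) * e k)
    (hort : ∀ k l, k < l → Lf m (e k * e l) = 0) (h : ℕ → R) (hh : ∀ k, Lf m (e k * e k) = h k)
    (hoo : ∀ l j, j < 2 * l - 1 → Lf m (X ^ j * o l) = 0)
    (g : ℕ → R) (hg : ∀ l, 0 < l → Lf m (X ^ (2 * l - 1) * o l) = - g l)
    (c : R) (μ : ℕ → R) (hμ : ∀ k, μ k = Lf m ((X + C c) ^ k)) (n : ℕ) :
    P (fun x y : Fin n × Fin 2 => ((idx y : R) - idx x) * μ (idx x + idx y - 1)) =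
      2 ^ n * (n.factorial : R) * ∏ k ∈ range n, ((2 * (k : R) + 1) * h k + 2 * (k : R) * g k) := by
  -- the centred basis
  set q : ℕ → R[X] := fun i => if i % 2 = 0 then e (i / 2) else o (i / 2) with hqdef
  have hqm : ∀ i, (q i).Monic := by
    intro i; simp only [hqdef]; split_ifs
    · exact he _
    · exact ho _
  have hqd : ∀ i, (q i).natDegree = i := by
    intro i; simp only [hqdef]; split_ifs with h0
    · rw [hed]; omega
    · rw [hod]; omega
  have hqe : ∀ k : Fin n, q (idx ((k, 0) : Fin n × Fin 2)) = e k := by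
    intro k
    simp only [hqdef, idx]
    have h1 : (2 * (k : ℕ) + ((0 : Fin 2) : ℕ)) % 2 = 0 := by simp
    have h2 : (2 * (k : ℕ) + ((0 : Fin 2) : ℕ)) / 2 = k := by simp
    rw [if_pos h1, h2]
  have hqo : ∀ k : Fin n, q (idx ((k, 1) : Fin n × Fin 2)) = o k := by
    intro k
    simp only [hqdef, idx]
    have h1 : ¬ (2 * (k : ℕ) + ((1 : Fin 2) : ℕ)) % 2 = 0 := by
      simp only [Fin.val_one]; omega
    have h2 : (2 * (k : ℕ) + ((1 : Fin 2) : ℕ)) / 2 = k := by
      simp only [Fin.val_one]; omega
    rw [if_neg h1, h2]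
  -- shifted basis
  set q' : ℕ → R[X] := fun i => (q i).comp (X - C c) with hq'
  have hq'm : ∀ i, (q' i).Monic := fun i => (hqm i).comp_X_sub_C c
  have hq'd : ∀ i, (q' i).natDegree = i := by
    intro i
    simp only [hq']
    rw [natDegree_comp, natDegree_X_sub_C, mul_one, hqd]
  rw [← P_monic μ q' hq'm hq'd]
  have hL : ∀ f, Lf μ f = Lf m (f.comp (X + C c)) := by
    intro f
    induction f using Polynomial.induction_on' with
    | add p q hp hq => rw [add_comp, map_add, hp, hq, map_add]
    | monomial k r =>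
      rw [Lf_monomial, hμ, ← C_mul_X_pow_eq_monomial]
      simp only [mul_comp, C_comp, pow_comp, X_comp]
      rw [← smul_eq_C_mul, map_smul, smul_eq_mul]
  have hcc : ∀ i, (q' i).comp (X + C c) = q i := by
    intro i
    simp only [hq']
    rw [comp_assoc]
    simp
  have hS : ∀ x y : Fin n × Fin 2, S (Lf μ) (q' (idx x)) (q' (idx y)) =
      S (Lf m) (q (idx x)) (q (idx y)) := by
    intro x y
    rw [S_comp (Lf m) (Lf μ) c hL, hcc, hcc]
  simp_rw [hS]
  have hdp : ∀ k, (derivative (e k)).comp (-X) = - derivative (e k) := by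
    intro k
    have h1 := congrArg derivative (hep k)
    rw [derivative_comp] at h1
    simp only [derivative_neg, derivative_X] at h1
    linear_combination -h1
  have hdo : ∀ k, (derivative (o k)).comp (-X) = derivative (o k) := by
    intro k
    have h1 := congrArg derivative (hop k)
    rw [derivative_comp] at h1
    simp only [derivative_neg, derivative_X] at h1
    linear_combination -h1
  -- vanishing against low degrees
  have hlow : ∀ (l : ℕ) (f : R[X]), f.natDegree < 2 * l - 1 → Lf m (f * o l) = 0 := by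
    intro l f hf
    conv_lhs => rw [f.as_sum_range, Finset.sum_mul]
    rw [map_sum]
    refine Finset.sum_eq_zero fun j hj => ?_
    rw [mem_range] at hj
    rw [← C_mul_X_pow_eq_monomial, mul_assoc, ← smul_eq_C_mul, map_smul, hoo l j (by omega),
      smul_zero]
  have hval : ∀ k l, k ≤ l → S (Lf m) (e k) (o l) =
      if k = l then (2 * (l : R) + 1) * h l + 2 * (l : R) * g l else 0 := by
    intro k l hkl
    unfold S
    rw [hder, map_sub]
    have e1 : e k * (C (2 * (l : R) + 1) * e l) = (2 * (l : R) + 1) • (e k * e l) := by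
      rw [smul_eq_C_mul]; ring
    rw [e1, map_smul, smul_eq_mul]
    split_ifs with hk
    · subst hk
      rw [hh]
      rcases Nat.eq_zero_or_pos k with rfl | hkp
      · have e2 : derivative (e 0) = 0 := by
          rw [Polynomial.eq_one_of_monic_natDegree_zero (he 0) (by rw [hed])]
          simp
        rw [e2]; simp
      · -- leading term of the derivative
        have e3 : derivative (e k) = (derivative (e k) - C (2 * (k : R)) * X ^ (2 * k - 1)) +
            C (2 * (k : R)) * X ^ (2 * k - 1) := by ring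
        have e4 : (derivative (e k) - C (2 * (k : R)) * X ^ (2 * k - 1)).natDegree < 2 * k - 1 := by
          have e5 : (derivative (e k) - C (2 * (k : R)) * X ^ (2 * k - 1)).natDegree ≤ 2 * k - 2 := by
            rw [natDegree_le_iff_coeff_eq_zero]
            intro N hN
            rw [coeff_sub, coeff_C_mul_X_pow, coeff_derivative]
            by_cases hN2 : N = 2 * k - 1
            · subst hN2
              have e6 : (e k).coeff (2 * k - 1 + 1) = 1 := by
                have := he k
                rw [Polynomial.Monic, Polynomial.leadingCoeff, hed] at this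
                rw [show 2 * k - 1 + 1 = 2 * k by omega]; exact this
              rw [e6, if_pos rfl]
              rw [Nat.cast_sub (by omega)]
              push_cast; ring
            · rw [if_neg (by omega), Polynomial.coeff_eq_zero_of_natDegree_lt
                (by rw [hed]; omega)]
              simp
          rcases Nat.lt_or_ge (2 * k - 2) (2 * k - 1) with h7 | h7
          · omega
          · omega
        have e8 : Lf m (derivative (e k) * o k) = - (2 * (k : R) * g k) := by
          rw [e3, add_mul (derivative (e k) - C (2 * (k : R)) * X ^ (2 * k - 1)), map_add,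
            hlow k _ e4, mul_assoc, ← smul_eq_C_mul, map_smul, hg k hkp]
          simp only [smul_eq_mul]
          ring
        rw [e8]
        ring
    · rw [hort k l (by omega), hlow l (derivative (e k))]
      · simp
      · have := natDegree_derivative_le (e k)
        rw [hed] at this
        omega
  have h00 : ∀ k l, S (Lf m) (e k) (e l) = 0 := by
    intro k l
    unfold S
    apply even_odd hc m hm
    rw [sub_comp, mul_comp, mul_comp, hep, hep, hdp, hdp]
    ring
  have h11 : ∀ k l, S (Lf m) (o k) (o l) = 0 := by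
    intro k l
    unfold S
    apply even_odd hc m hm
    rw [sub_comp, mul_comp, mul_comp, hop, hop, hdo, hdo]
    ring
  rw [P_tri]
  · congr 1
    rw [← Fin.prod_univ_eq_prod_range
      (fun k : ℕ => (2 * (k : R) + 1) * h k + 2 * (k : R) * g k) n]
    refine Finset.prod_congr rfl fun k _ => ?_
    rw [hqe, hqo, hval _ _ le_rfl, if_pos rfl]
  · intro k l
    rw [hqe, hqe, h00]
  · intro k l
    rw [hqo, hqo, h11]
  · intro k l
    rw [S_skew]
  · intro k l hkl
    have hkl' : (k : ℕ) < l := hkl
    rw [hqe, hqo, hval _ _ hkl'.le, if_neg (by omega)]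

end Pool.Agent.Q280.PfL
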