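import Mathlib

set_option autoImplicit false

namespace Pool.Agent.Q280.Phi21

open PowerSeries

/-- the `q`-shifted factorial `(x;q)_n` -/
noncomputable def qp {K : Type*} [Field K] (q x : K) (n : ℕ) : K := ∏ j ∈ Finset.range n, (1 - x * q ^ j)

/-- the basic hypergeometric series `₂φ₁(a,b;c;q,z)` as a formal power series in `z` -/
noncomputable def phi {K : Type*} [Field K] (q a b c : K) : PowerSeries K :=
  PowerSeries.mk fun n => qp q a n * qp q b n / (qp q q n * qp q c n)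

section general

variable {K : Type*} [Field K] (q a b c : K)

theorem qp_zero (x : K) : qp q x 0 = 1 := by simp [qp]

theorem qp_succ (x : K) (n : ℕ) : qp q x (n + 1) = qp q x n * (1 - x * q ^ n) := by
  simp [qp, Finset.prod_range_succ]

theorem qp_succ' (x : K) (n : ℕ) : qp q x (n + 1) = (1 - x) * qp q (x * q) n := by
  unfold qp
  rw [Finset.prod_range_succ', mul_comm]
  simp only [pow_zero, mul_one]
  congr 1
  apply Finset.prod_congr rfl
  intro j _
  rw [pow_succ]; ring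

/-- `(1-x) (xq)_n = (1 - x q^n) (x)_n` -/
theorem qp_shift (x : K) (n : ℕ) : (1 - x) * qp q (x * q) n = (1 - x * q ^ n) * qp q x n := by
  rw [← qp_succ', qp_succ]; ring

variable {q c}

theorem qp_ne (hc : ∀ k : ℕ, 1 - c * q ^ k ≠ 0) (n : ℕ) : qp q c n ≠ 0 :=
  Finset.prod_ne_zero_iff.2 (fun k _ => hc k)

theorem hc_shift (hc : ∀ k : ℕ, 1 - c * q ^ k ≠ 0) : ∀ k : ℕ, 1 - c * q * q ^ k ≠ 0 := by
  intro k
  have := hc (k + 1)
  rwa [pow_succ', ← mul_assoc] at this

theorem hq_ne (hq : ∀ k : ℕ, 1 - q * q ^ k ≠ 0) (n : ℕ) : qp q q n ≠ 0 := qp_ne hq n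

variable (q c)

theorem constCoeff_phi : constantCoeff (phi q a b c) = 1 := by
  rw [← coeff_zero_eq_constantCoeff_apply, phi, coeff_mk]
  simp [qp_zero]

theorem phi_mul_inv : phi q a b c * (phi q a b c)⁻¹ = 1 :=
  PowerSeries.mul_inv_cancel _ (by rw [constCoeff_phi]; exact one_ne_zero)

end general

/-- the denominators `∏_{k ≤ n} (1 - c q^k)^{⌊(n+1)/(k+1)⌋}` -/
noncomputable def DD {R : Type*} [CommRing R] (π : ℕ → R) (n : ℕ) : R :=
  ∏ k ∈ Finset.range (n + 1), π k ^ ((n + 1) / (k + 1))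

/-- `DD n` without its last factor -/
noncomputable def EE {R : Type*} [CommRing R] (π : ℕ → R) (n : ℕ) : R :=
  ∏ k ∈ Finset.range n, π k ^ ((n + 1) / (k + 1))

theorem DD_eq {R : Type*} [CommRing R] (π : ℕ → R) (n : ℕ) : DD π n = EE π n * π n := by
  unfold DD EE
  rw [Finset.prod_range_succ, Nat.div_self (by omega), pow_one]

theorem DD_extend {R : Type*} [CommRing R] (π : ℕ → R) (i n : ℕ) (h : i + 1 ≤ n) :
    DD π i = ∏ k ∈ Finset.range n, π k ^ ((i + 1) / (k + 1)) := by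
  unfold DD
  apply Finset.prod_subset
  · intro k hk
    rw [Finset.mem_range] at hk ⊢
    omega
  · intro k _ hk
    rw [Finset.mem_range] at hk
    rw [Nat.div_eq_of_lt (by omega), pow_zero]

theorem DD_mul_dvd {R : Type*} [CommRing R] (π : ℕ → R) (i j n : ℕ) (h : i + j + 1 ≤ n) :
    DD π i * DD π j ∣ EE π n := by
  rw [DD_extend π i n (by omega), DD_extend π j n (by omega), ← Finset.prod_mul_distrib]
  unfold EE
  apply Finset.prod_dvd_prod_of_dvd
  intro k _
  rw [← pow_add]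
  apply pow_dvd_pow
  calc (i + 1) / (k + 1) + (j + 1) / (k + 1) ≤ (i + 1 + (j + 1)) / (k + 1) := Nat.div_add_div_le_add_div
    _ ≤ (n + 1) / (k + 1) := Nat.div_le_div_right (by omega)

theorem DD_dvd {R : Type*} [CommRing R] (π : ℕ → R) (i n : ℕ) (h : i + 1 ≤ n) : DD π i ∣ EE π n := by
  rw [DD_extend π i n (by omega)]
  unfold EE
  apply Finset.prod_dvd_prod_of_dvd
  intro k _
  apply pow_dvd_pow
  exact Nat.div_le_div_right (by omega)

/-- the polynomial ring `ℤ[a,b,c,q]` -/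
abbrev RR : Type := MvPolynomial (Fin 4) ℤ

/-- its fraction field `ℚ(a,b,c,q)` -/
abbrev KK : Type := FractionRing RR

/-- the indeterminates `a, b, c, q` as elements of `ℚ(a,b,c,q)` -/
noncomputable def vA : KK := algebraMap RR KK (MvPolynomial.X 0)
/-- the indeterminate `b` -/
noncomputable def vB : KK := algebraMap RR KK (MvPolynomial.X 1)
/-- the indeterminate `c` -/
noncomputable def vC : KK := algebraMap RR KK (MvPolynomial.X 2)
/-- the indeterminate `q` -/
noncomputable def vQ : KK := algebraMap RR KK (MvPolynomial.X 3)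

/-- the polynomial `1 - c q^k` -/
noncomputable def pik (k : ℕ) : RR := 1 - MvPolynomial.X 2 * MvPolynomial.X 3 ^ k

theorem map_pi (k : ℕ) : algebraMap RR KK (pik k) = 1 - vC * vQ ^ k := by
  simp [pik, vC, vQ]

theorem pi_ne (k : ℕ) : pik k ≠ 0 := by
  intro h
  have := congrArg (MvPolynomial.eval (fun _ => (0 : ℤ))) h
  simp [pik] at this

theorem vC_ne (k : ℕ) : 1 - vC * vQ ^ k ≠ 0 := by
  rw [← map_pi]
  exact (map_ne_zero_iff _ (IsFractionRing.injective RR KK)).2 (pi_ne k)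

theorem vQ_ne (k : ℕ) : 1 - vQ * vQ ^ k ≠ 0 := by
  have h : (1 - MvPolynomial.X 3 * MvPolynomial.X 3 ^ k : RR) ≠ 0 := by
    intro h
    have := congrArg (MvPolynomial.eval (fun _ => (0 : ℤ))) h
    simp at this
  have h2 := (map_ne_zero_iff _ (IsFractionRing.injective RR KK)).2 h
  simpa [vQ] using h2

theorem map_DD (n : ℕ) : algebraMap RR KK (DD pik n) = ∏ k ∈ Finset.range (n + 1), (1 - vC * vQ ^ k) ^ ((n + 1) / (k + 1)) := by
  unfold DD
  rw [map_prod]
  apply Finset.prod_congr rfl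
  intro k _
  rw [map_pow, map_pi]

theorem map_DD_ne (n : ℕ) : algebraMap RR KK (DD pik n) ≠ 0 := by
  rw [map_DD]
  exact Finset.prod_ne_zero_iff.2 (fun k _ => pow_ne_zero _ (vC_ne k))

/-- `x` becomes integral after multiplication by `d` -/
def Itg (d : RR) (x : KK) : Prop := ∃ P : RR, x * algebraMap RR KK d = algebraMap RR KK P

theorem Itg.add {d : RR} {x y : KK} (hx : Itg d x) (hy : Itg d y) : Itg d (x + y) := by
  obtain ⟨P, hP⟩ := hx
  obtain ⟨Q, hQ⟩ := hy
  exact ⟨P + Q, by rw [add_mul, hP, hQ, map_add]⟩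

theorem Itg.sum {ι : Type*} {d : RR} {s : Finset ι} {f : ι → KK} (h : ∀ i ∈ s, Itg d (f i)) :
    Itg d (∑ i ∈ s, f i) := by
  classical
  induction s using Finset.induction_on with
  | empty => exact ⟨0, by simp⟩
  | insert i s his ih =>
    rw [Finset.sum_insert his]
    exact (h i (Finset.mem_insert_self _ _)).add (ih (fun j hj => h j (Finset.mem_insert_of_mem hj)))

theorem Itg.smul {d : RR} {x : KK} (hx : Itg d x) (r : RR) : Itg d (algebraMap RR KK r * x) := by
  obtain ⟨P, hP⟩ := hx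
  exact ⟨r * P, by rw [mul_assoc, hP, map_mul]⟩

theorem Itg.mul {d e : RR} {x y : KK} (hx : Itg d x) (hy : Itg e y) : Itg (d * e) (x * y) := by
  obtain ⟨P, hP⟩ := hx
  obtain ⟨Q, hQ⟩ := hy
  exact ⟨P * Q, by rw [map_mul, map_mul, ← hP, ← hQ]; ring⟩

theorem Itg.dvd {d e : RR} {x : KK} (hx : Itg d x) (h : d ∣ e) : Itg e x := by
  obtain ⟨P, hP⟩ := hx
  obtain ⟨r, rfl⟩ := h
  exact ⟨P * r, by rw [map_mul, map_mul, ← hP]; ring⟩

/-- final step: dividing by `1 - c q^n` -/
theorem Itg.div {n : ℕ} {x y : KK} (hx : Itg (EE pik n) x) (h : (1 - vC * vQ ^ n) * y = x) : Itg (DD pik n) y := by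
  obtain ⟨P, hP⟩ := hx
  refine ⟨P, ?_⟩
  rw [DD_eq, map_mul, map_pi, ← hP, ← h]
  ring

end Pool.Agent.Q280.Phi21
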