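import Pool.Agent.Q280.PfBand

set_option autoImplicit false

/-!
# Al-Salam-Carlitz polynomials, Gaussian binomials and the q-Pfaffians
-/

namespace Pool.Agent.Q280.QPf

open Polynomial Finset
open Pool.Agent.Q280.Pf Pool.Agent.Q280.PfL Pool.Agent.Q280.PfBand

variable {R : Type*} [CommRing R]

/-- Gaussian binomial coefficients, by the q-Pascal rule -/
def gauss (q : R) : ℕ → ℕ → R
  | _, 0 => 1
  | 0, (_ + 1) => 0
  | (n + 1), (k + 1) => gauss q n k + q ^ (k + 1) * gauss q n (k + 1)

/-- `(q;q)_m` -/
def qpoch (q : R) (m : ℕ) : R := ∏ i ∈ range m, (1 - q ^ (i + 1))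

theorem gauss_zero (q : R) (n : ℕ) : gauss q n 0 = 1 := by cases n <;> rw [gauss]

theorem gauss_lt (q : R) : ∀ (n k : ℕ), n < k → gauss q n k = 0 := by
  intro n
  induction n with
  | zero =>
    intro k hk
    obtain ⟨k, rfl⟩ : ∃ j, k = j + 1 := ⟨k - 1, by omega⟩
    rw [gauss]
  | succ n ih =>
    intro k hk
    obtain ⟨k, rfl⟩ : ∃ j, k = j + 1 := ⟨k - 1, by omega⟩
    rw [gauss, ih k (by omega), ih (k + 1) (by omega)]; ring

theorem gauss_adj (q : R) : ∀ (n k : ℕ), k ≤ n →
    (1 - q ^ (n - k)) * gauss q n k = (1 - q ^ (k + 1)) * gauss q n (k + 1) := by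
  intro n
  induction n with
  | zero =>
    intro k hk
    have : k = 0 := by omega
    subst this
    rw [gauss_lt q 0 (0 + 1) (by omega)]; simp
  | succ n ih =>
    intro k hk
    rcases Nat.lt_or_ge n k with h | h
    · have : k = n + 1 := by omega
      subst this
      rw [gauss_lt q (n + 1) (n + 1 + 1) (by omega)]; simp
    · have h1 := ih k h
      -- (ii)
      have h2 : (1 - q ^ (n + 1 - k)) * gauss q (n + 1) k = (1 - q ^ (n + 1)) * gauss q n k := by
        rcases k with _ | k
        · rw [gauss_zero, gauss_zero]; simp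
        · have h3 := ih k (by omega)
          rw [gauss]
          obtain ⟨d, rfl⟩ : ∃ d, n = k + 1 + d := ⟨n - (k + 1), by omega⟩
          rw [show k + 1 + d + 1 - (k + 1) = d + 1 by omega]
          rw [show k + 1 + d - k = d + 1 by omega] at h3
          have e1 : q ^ (k + 1 + d + 1) = q ^ (k + 1) * q ^ (d + 1) := by rw [← pow_add]; congr 1
          rw [e1]
          linear_combination h3
      rw [h2, gauss]
      obtain ⟨d, rfl⟩ : ∃ d, n = k + d := ⟨n - k, by omega⟩
      rw [show k + d - k = d by omega] at h1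
      have e1 : q ^ (k + d + 1) = q ^ (k + 1) * q ^ d := by rw [← pow_add]; congr 1; omega
      rw [e1]
      linear_combination (q ^ (k + 1)) * h1

theorem gauss_abs (q : R) (n k : ℕ) (hk : k ≤ n + 1) :
    (1 - q ^ (n + 1 - k)) * gauss q (n + 1) k = (1 - q ^ (n + 1)) * gauss q n k := by
  rcases k with _ | k
  · rw [gauss_zero, gauss_zero]; simp
  · have h3 := gauss_adj q n k (by omega)
    rw [gauss]
    rcases Nat.lt_or_ge n (k + 1) with h | h
    · have : k = n := by omega
      subst this
      rw [gauss_lt q k (k + 1) (by omega)]; simp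
    · obtain ⟨d, rfl⟩ : ∃ d, n = k + 1 + d := ⟨n - (k + 1), by omega⟩
      rw [show k + 1 + d + 1 - (k + 1) = d + 1 by omega]
      rw [show k + 1 + d - k = d + 1 by omega] at h3
      have e1 : q ^ (k + 1 + d + 1) = q ^ (k + 1) * q ^ (d + 1) := by rw [← pow_add]; congr 1
      rw [e1]
      linear_combination h3

/-- the quotient formula -/
theorem gauss_quot (q : R) : ∀ (n k : ℕ), k ≤ n →
    gauss q n k * (qpoch q k * qpoch q (n - k)) = qpoch q n := by
  intro n
  induction n with
  | zero =>
    intro k hk
    have : k = 0 := by omega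
    subst this
    rw [gauss_zero]; simp [qpoch]
  | succ n ih =>
    intro k hk
    rcases Nat.lt_or_ge n k with h | h
    · have hk2 : k = n + 1 := by omega
      subst hk2
      have h1 : ∀ m, gauss q m m = 1 := by
        intro m
        induction m with
        | zero => rw [gauss_zero]
        | succ m ihm => rw [gauss, ihm, gauss_lt q m (m + 1) (by omega)]; ring
      rw [h1]; simp [qpoch]
    · have h1 := ih k h
      have h2 := gauss_abs q n k hk
      obtain ⟨d, rfl⟩ : ∃ d, n = k + d := ⟨n - k, by omega⟩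
      rw [show k + d + 1 - k = d + 1 by omega] at h2 ⊢
      rw [show k + d - k = d by omega] at h1
      have e1 : qpoch q (d + 1) = qpoch q d * (1 - q ^ (d + 1)) := by
        unfold qpoch; rw [Finset.prod_range_succ]
      have e2 : qpoch q (k + d + 1) = qpoch q (k + d) * (1 - q ^ (k + d + 1)) := by
        unfold qpoch; rw [Finset.prod_range_succ]
      rw [e1, e2]
      linear_combination (qpoch q k * qpoch q d) * h2 + (1 - q ^ (k + d + 1)) * h1

/-- the moments -/
def g (a q : R) (r : ℕ) : R := ∑ j ∈ range (r + 1), gauss q r j * a ^ j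

theorem g_rec (a q : R) (r : ℕ) : g a q (r + 2) = (1 + a) * g a q (r + 1) - a * (1 - q ^ (r + 1)) * g a q r := by
  unfold g
  rw [Finset.sum_range_succ' _ (r + 2)]
  have e1 : ∑ j ∈ range (r + 1 + 1), gauss q (r + 1) j * a ^ j =
      ∑ j ∈ range (r + 2), gauss q (r + 1) (j + 1) * a ^ (j + 1) + 1 := by
    rw [Finset.sum_range_succ' _ (r + 1), Finset.sum_range_succ _ (r + 1),
      gauss_lt q (r + 1) (r + 1 + 1) (by omega)]
    simp [gauss_zero]
  have e2 : a * ∑ j ∈ range (r + 1 + 1), gauss q (r + 1) j * a ^ j =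
      ∑ j ∈ range (r + 2), gauss q (r + 1) j * a ^ (j + 1) := by
    rw [Finset.mul_sum]
    refine Finset.sum_congr rfl fun j _ => by ring
  have e3 : a * (1 - q ^ (r + 1)) * ∑ j ∈ range (r + 1), gauss q r j * a ^ j =
      ∑ j ∈ range (r + 2), (1 - q ^ (r + 1 - j)) * gauss q (r + 1) j * a ^ (j + 1) := by
    rw [Finset.sum_range_succ _ (r + 1), Nat.sub_self, pow_zero, sub_self, zero_mul, zero_mul,
      add_zero, Finset.mul_sum]
    refine Finset.sum_congr rfl fun j hj => ?_
    rw [mem_range] at hj
    rw [gauss_abs q r j (by omega)]; ring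
  have e4 : (1 + a) * ∑ j ∈ range (r + 1 + 1), gauss q (r + 1) j * a ^ j =
      (∑ j ∈ range (r + 2), gauss q (r + 1) (j + 1) * a ^ (j + 1) + 1) +
      ∑ j ∈ range (r + 2), gauss q (r + 1) j * a ^ (j + 1) := by
    rw [add_mul, one_mul, e2, e1]
  rw [e4, e3, gauss_zero, pow_zero, mul_one]
  have e5 : ∀ j ∈ range (r + 2), gauss q (r + 2) (j + 1) * a ^ (j + 1) =
      gauss q (r + 1) (j + 1) * a ^ (j + 1) + gauss q (r + 1) j * a ^ (j + 1) -
        (1 - q ^ (r + 1 - j)) * gauss q (r + 1) j * a ^ (j + 1) := by
    intro j hj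
    rw [mem_range] at hj
    rw [gauss]
    have h1 := gauss_adj q (r + 1) j (by omega)
    linear_combination (a ^ (j + 1)) * h1
  rw [Finset.sum_congr rfl e5, Finset.sum_sub_distrib, Finset.sum_add_distrib]
  ring

theorem g_zero (a q : R) : g a q 0 = 1 := by simp [g, gauss_zero]

theorem g_one (a q : R) : g a q 1 = 1 + a := by
  simp [g, Finset.sum_range_succ, gauss_zero]
  rw [gauss, gauss_zero, gauss_lt q 0 1 (by omega)]; ring

/-- Al-Salam-Carlitz polynomials -/
noncomputable def U (a q : R) : ℕ → R[X]
  | 0 => 1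
  | 1 => X - C (1 + a)
  | (n + 2) => (X - C ((1 + a) * q ^ (n + 1))) * U a q (n + 1) +
      C (a * q ^ n * (1 - q ^ (n + 1))) * U a q n

theorem U_two (a q : R) (n : ℕ) : U a q (n + 2) =
    (X - C ((1 + a) * q ^ (n + 1))) * U a q (n + 1) + C (a * q ^ n * (1 - q ^ (n + 1))) * U a q n := by
  rw [U]

theorem U_deg [Nontrivial R] (a q : R) : ∀ n, (U a q n).Monic ∧ (U a q n).natDegree = n := by
  intro n
  induction n using Nat.strong_induction_on with
  | _ n ih =>
    rcases n with _ | _ | n
    · simp [U]
    · simp only [U]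
      exact ⟨monic_X_sub_C _, natDegree_X_sub_C _⟩
    · rw [U_two]
      obtain ⟨h1, h2⟩ := ih (n + 1) (by omega)
      obtain ⟨h3, h4⟩ := ih n (by omega)
      have m1 : ((X - C ((1 + a) * q ^ (n + 1))) * U a q (n + 1)).Monic := (monic_X_sub_C _).mul h1
      have d1 : ((X - C ((1 + a) * q ^ (n + 1))) * U a q (n + 1)).natDegree = n + 2 := by
        rw [(monic_X_sub_C _).natDegree_mul h1, natDegree_X_sub_C, h2]; omega
      have d2 : (C (a * q ^ n * (1 - q ^ (n + 1))) * U a q n).natDegree < n + 2 := by
        refine lt_of_le_of_lt (natDegree_C_mul_le _ _) ?_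
        rw [h4]; omega
      have d3 : ((X - C ((1 + a) * q ^ (n + 1))) * U a q (n + 1) +
          C (a * q ^ n * (1 - q ^ (n + 1))) * U a q n).natDegree = n + 2 := by
        rw [natDegree_add_eq_left_of_natDegree_lt (by rw [d1]; exact d2), d1]
      refine ⟨?_, d3⟩
      rw [Monic, leadingCoeff, d3, coeff_add, coeff_eq_zero_of_natDegree_lt d2, add_zero]
      rw [Monic, leadingCoeff, d1] at m1
      exact m1

/-- the q-shift of `U_n` -/
theorem U_shift (a q : R) : ∀ n, (U a q (n + 1)).comp (C q * X) =
    U a q (n + 1) - C (1 - q ^ (n + 1)) * X * U a q n := by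
  intro n
  induction n using Nat.strong_induction_on with
  | _ n ih =>
    rcases n with _ | _ | n
    · simp only [U, sub_comp, X_comp, C_comp, zero_add, pow_one, map_sub, map_one, mul_one]
      ring
    · rw [U_two, U]
      simp only [add_comp, mul_comp, sub_comp, X_comp, C_comp, one_comp, U, zero_add, map_sub,
        map_one, map_mul, map_add, map_pow, pow_one, mul_one, pow_zero]
      ring
    · rw [U_two a q (n + 1)]
      simp only [add_comp, mul_comp, sub_comp, X_comp, C_comp]
      rw [ih (n + 1) (by omega), ih n (by omega)]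
      have h1 := U_two a q n
      rw [show n + 1 + 1 + 1 = n + 3 by omega, show n + 1 + 1 = n + 2 by omega, h1]
      simp only [map_sub, map_one, map_mul, map_add, map_pow]
      ring

/-- the falling q-factorial -/
def F (q : R) (k m : ℕ) : R := ∏ i ∈ range m, (1 - q ^ (k - i))

theorem F_succ (q : R) (k m : ℕ) : F q k (m + 1) = F q k m * (1 - q ^ (k - m)) := by
  unfold F; rw [Finset.prod_range_succ]

theorem F_lt (q : R) (k m : ℕ) (h : k < m) : F q k m = 0 := by
  unfold F
  exact Finset.prod_eq_zero (mem_range.2 h) (by simp)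

theorem F_shift (q : R) (k m : ℕ) : F q (k + 1) (m + 1) = (1 - q ^ (k + 1)) * F q k m := by
  unfold F
  rw [Finset.prod_range_succ', mul_comm]
  congr 1
  refine Finset.prod_congr rfl fun i _ => ?_
  rw [show k + 1 - (i + 1) = k - i by omega]

theorem F_self (q : R) (m : ℕ) : F q m m = qpoch q m := by
  unfold F qpoch
  rw [← Finset.prod_range_reflect]
  refine Finset.prod_congr rfl fun i hi => ?_
  rw [mem_range] at hi
  congr 2
  omega

/-- `L(x^k U_m)` -/
theorem U_fun (a q : R) : ∀ m k, Lf (g a q) (X ^ k * U a q m) =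
    (-a) ^ m * q ^ (m * (m - 1) / 2) * F q k m * g a q (k - m) := by
  intro m
  induction m using Nat.strong_induction_on with
  | _ m ih =>
    intro k
    rcases m with _ | _ | m
    · simp only [U, mul_one]
      rw [Lf_X_pow]; simp [F]
    · simp only [U]
      rw [mul_sub, map_sub, ← pow_succ, Lf_X_pow, mul_comm _ (C (1 + a)), ← smul_eq_C_mul, map_smul,
        Lf_X_pow, smul_eq_mul]
      rcases k with _ | k
      · rw [zero_add, g_one, g_zero]; simp [F]
      · rw [g_rec]; simp [F]
    · have key : Lf (g a q) (X ^ k * U a q (m + 2)) =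
          Lf (g a q) (X ^ (k + 1) * U a q (m + 1)) -
            (1 + a) * q ^ (m + 1) * Lf (g a q) (X ^ k * U a q (m + 1)) +
            a * q ^ m * (1 - q ^ (m + 1)) * Lf (g a q) (X ^ k * U a q m) := by
        rw [U_two]
        have e1 : X ^ k * ((X - C ((1 + a) * q ^ (m + 1))) * U a q (m + 1) +
            C (a * q ^ m * (1 - q ^ (m + 1))) * U a q m) =
            X ^ (k + 1) * U a q (m + 1) - ((1 + a) * q ^ (m + 1)) • (X ^ k * U a q (m + 1)) +
            (a * q ^ m * (1 - q ^ (m + 1))) • (X ^ k * U a q m) := by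
          rw [smul_eq_C_mul, smul_eq_C_mul]; ring
        rw [e1, map_add, map_sub, map_smul, map_smul]
        simp only [smul_eq_mul]
      rw [key, show m + 1 + 1 = m + 2 by omega, ih (m + 1) (by omega), ih (m + 1) (by omega), ih m (by omega)]
      -- exponents
      obtain ⟨t, ht⟩ : ∃ t, m * (m - 1) / 2 = t := ⟨_, rfl⟩
      have ht1 : (m + 1) * (m + 1 - 1) / 2 = t + m := by
        have h1 : (m + 1) * (m + 1 - 1) = m * (m - 1) + 2 * m := by
          rcases m with _ | m
          · rfl
          · simp only [Nat.add_sub_cancel]; ring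
        rw [h1, Nat.add_mul_div_left _ _ (by norm_num), ht]
      have ht2 : (m + 2) * (m + 2 - 1) / 2 = t + m + (m + 1) := by
        have h1 : (m + 2) * (m + 2 - 1) = (m + 1) * (m + 1 - 1) + 2 * (m + 1) := by
          simp only [Nat.add_sub_cancel, show m + 2 - 1 = m + 1 by omega]; ring
        rw [h1, Nat.add_mul_div_left _ _ (by norm_num), ht1]
      rw [ht, ht1, ht2]
      rcases Nat.lt_or_ge k m with hk | hk
      · -- k < m
        rw [F_lt q k (m + 2) (by omega), F_lt q (k + 1) (m + 1) (by omega), F_lt q k (m + 1) (by omega),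
          F_lt q k m (by omega)]; ring
      · obtain ⟨r, rfl⟩ : ∃ r, k = m + r := ⟨k - m, by omega⟩
        rw [F_succ q (m + r) (m + 1), F_succ q (m + r) m, F_shift q (m + r) m]
        rw [show m + r - m = r by omega, show m + r + 1 - (m + 1) = r by omega]
        rcases r with _ | _ | r
        · rw [show m + 0 - (m + 1) = 0 by omega]
          simp only [add_zero, pow_zero, sub_self, mul_zero, zero_mul]
          rw [F_self, pow_succ (-a) m, pow_add q t m]
          ring
        · rw [show m + (0 + 1) - (m + 1) = 0 by omega, show m + (0 + 1) - (m + 2) = 0 by omega,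
            show (0 + 1) = 1 from rfl, g_zero, g_one, pow_succ (-a) (m + 1), pow_succ (-a) m]
          rw [show q ^ (m + 1 + 1) = q ^ m * q * q by ring, show q ^ (m + 1) = q ^ m * q by ring,
            pow_add q t m]
          simp only [pow_zero]
          ring
        · rw [show m + (r + 1 + 1) - (m + 1) = r + 1 by omega, show m + (r + 1 + 1) - (m + 2) = r by omega,
            show r + 1 + 1 = r + 2 by omega, g_rec, pow_succ (-a) (m + 1), pow_succ (-a) m]
          have e1 : q ^ (m + (r + 2) + 1) = q ^ (m + 1) * q ^ (r + 2) := by rw [← pow_add]; congr 1; omega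
          rw [e1, pow_add q (t + m) (m + 1), pow_add q t m]
          ring

/-- the q-skew form -/
noncomputable def S (m : ℕ → R) (q : R) (f h : R[X]) : R :=
  Lf m (f.comp (C q * X) * h - f * h.comp (C q * X))

theorem S_XX (m : ℕ → R) (q : R) (i j : ℕ) : S m q (X ^ i) (X ^ j) = (q ^ i - q ^ j) * m (i + j) := by
  unfold S
  simp only [pow_comp, X_comp]
  have e : (C q * X) ^ i * X ^ j - X ^ i * (C q * X) ^ j = monomial (i + j) (q ^ i - q ^ j) := by
    rw [← C_mul_X_pow_eq_monomial]
    simp only [mul_pow, C_sub, C_pow, pow_add]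
    ring
  rw [e, Lf_monomial]

theorem S_sum {ι κ : Type*} (m : ℕ → R) (q : R) (s : Finset ι) (t : Finset κ) (c : ι → R) (d : κ → R)
    (f : ι → R[X]) (h : κ → R[X]) : S m q (∑ i ∈ s, c i • f i) (∑ j ∈ t, d j • h j) =
      ∑ i ∈ s, ∑ j ∈ t, c i * d j * S m q (f i) (h j) := by
  unfold S
  have e1 : (∑ i ∈ s, c i • f i).comp (C q * X) = ∑ i ∈ s, c i • (f i).comp (C q * X) := by
    rw [Polynomial.sum_comp]
    refine Finset.sum_congr rfl fun i _ => by rw [smul_comp]
  have e2 : (∑ i ∈ t, d i • h i).comp (C q * X) = ∑ i ∈ t, d i • (h i).comp (C q * X) := by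
    rw [Polynomial.sum_comp]
    refine Finset.sum_congr rfl fun i _ => by rw [smul_comp]
  rw [e1, e2, Finset.sum_mul_sum, Finset.sum_mul_sum, ← Finset.sum_sub_distrib, map_sum]
  refine Finset.sum_congr rfl fun i _ => ?_
  rw [← Finset.sum_sub_distrib, map_sum]
  refine Finset.sum_congr rfl fun j _ => ?_
  have e3 : c i • (f i).comp (C q * X) * d j • h j - c i • f i * d j • (h j).comp (C q * X) =
      (c i * d j) • ((f i).comp (C q * X) * h j - f i * (h j).comp (C q * X)) := by
    simp only [smul_eq_C_mul, C_mul]; ring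
  rw [e3, map_smul, smul_eq_mul]

theorem S_skew (m : ℕ → R) (q : R) (f h : R[X]) : S m q f h = - S m q h f := by
  unfold S
  rw [← map_neg]
  congr 1
  ring

/-- change of monic basis -/
theorem P_monic_q {n : ℕ} (m : ℕ → R) (q : R) (p : ℕ → R[X]) (hp : ∀ i, (p i).Monic)
    (hd : ∀ i, (p i).natDegree = i) :
    P (fun c d : Fin n × Fin 2 => S m q (p (idx c)) (p (idx d))) =
      P (fun c d : Fin n × Fin 2 => (q ^ idx c - q ^ idx d) * m (idx c + idx d)) := by
  classical
  set A : Matrix (Fin n × Fin 2) (Fin n × Fin 2) R :=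
    fun c d => (q ^ idx c - q ^ idx d) * m (idx c + idx d) with hA
  set T : Matrix (Fin n × Fin 2) (Fin n × Fin 2) R := fun c d => (p (idx c)).coeff (idx d) with hT
  have hexp : ∀ c : Fin n × Fin 2, p (idx c) =
      ∑ d : Fin n × Fin 2, T c d • (X : R[X]) ^ idx d := by
    intro c
    have h1 : p (idx c) = ∑ i ∈ range (2 * n), (p (idx c)).coeff i • (X : R[X]) ^ i := by
      conv_lhs => rw [Polynomial.as_sum_range' (p (idx c)) (2 * n) (by rw [hd]; exact idx_lt c)]
      refine Finset.sum_congr rfl fun i _ => ?_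
      rw [← C_mul_X_pow_eq_monomial, smul_eq_C_mul]
    rw [h1, ← Fin.sum_univ_eq_sum_range (fun i => (p (idx c)).coeff i • (X : R[X]) ^ i) (2 * n),
      ← (eqv n).sum_comp]
    rfl
  have hdet : T.det = 1 := by
    have e : T = (Matrix.of fun i j : Fin (2 * n) => (p i).coeff j).submatrix (eqv n) (eqv n) := by
      ext c d; rfl
    rw [e, Matrix.det_submatrix_equiv_self, Matrix.det_of_isLowerTriangular]
    · refine Finset.prod_eq_one fun i _ => ?_
      have := hp i
      rw [Polynomial.Monic, Polynomial.leadingCoeff, hd] at this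
      simpa using this
    · intro i j hij
      have hij' : (i : ℕ) < j := by simpa using hij
      simp only [Matrix.of_apply]
      exact Polynomial.coeff_eq_zero_of_natDegree_lt (by rw [hd]; exact hij')
  have hmat : (fun c d : Fin n × Fin 2 => S m q (p (idx c)) (p (idx d)) :
      Matrix (Fin n × Fin 2) (Fin n × Fin 2) R) = T * A * T.transpose := by
    ext c d
    rw [hexp c, hexp d, S_sum]
    rw [Matrix.mul_apply]
    simp_rw [S_XX, Matrix.mul_apply, Matrix.transpose_apply, Finset.sum_mul]
    rw [Finset.sum_comm]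
    refine Finset.sum_congr rfl fun x _ => Finset.sum_congr rfl fun y _ => ?_
    simp only [hA]
    ring
  rw [hmat, P_congr, hdet, one_mul]

/-- norms -/
def hn (a q : R) (i : ℕ) : R := (-a) ^ i * q ^ (i * (i - 1) / 2) * qpoch q i

theorem hn_succ (a q : R) (i : ℕ) : hn a q (i + 1) = -a * q ^ i * (1 - q ^ (i + 1)) * hn a q i := by
  unfold hn
  have h1 : (i + 1) * (i + 1 - 1) / 2 = i * (i - 1) / 2 + i := by
    have h1 : (i + 1) * (i + 1 - 1) = i * (i - 1) + 2 * i := by
      rcases i with _ | m
      · rfl
      · simp only [Nat.add_sub_cancel]; ring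
    rw [h1, Nat.add_mul_div_left _ _ (by norm_num)]
  have e1 : qpoch q (i + 1) = qpoch q i * (1 - q ^ (i + 1)) := by
    unfold qpoch; rw [Finset.prod_range_succ]
  rw [h1, e1, pow_succ, pow_add]
  ring

theorem orth_lt [Nontrivial R] (a q : R) (i j : ℕ) (h : i < j) : Lf (g a q) (U a q i * U a q j) = 0 := by
  conv_lhs => rw [(U a q i).as_sum_range, Finset.sum_mul]
  rw [map_sum]
  refine Finset.sum_eq_zero fun k hk => ?_
  rw [mem_range, (U_deg a q i).2] at hk
  rw [← C_mul_X_pow_eq_monomial, mul_assoc, ← smul_eq_C_mul, map_smul, U_fun, F_lt q k j (by omega)]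
  simp

theorem orth_self [Nontrivial R] (a q : R) (i : ℕ) : Lf (g a q) (U a q i * U a q i) = hn a q i := by
  obtain ⟨hm, hd⟩ := U_deg a q i
  have h0 : U a q i = ∑ k ∈ range (i + 1), monomial k ((U a q i).coeff k) := by
    conv_lhs => rw [(U a q i).as_sum_range, hd]
  have h1 : U a q i * U a q i = (∑ k ∈ range (i + 1), monomial k ((U a q i).coeff k)) * U a q i :=
    congrArg (fun f => f * U a q i) h0
  rw [h1, Finset.sum_mul, map_sum, Finset.sum_range_succ, Finset.sum_eq_zero, zero_add]
  · rw [Monic, leadingCoeff, hd] at hm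
    rw [hm, ← C_mul_X_pow_eq_monomial, map_one, one_mul, U_fun, F_self, Nat.sub_self, g_zero, hn]
    ring
  · intro k hk
    rw [mem_range] at hk
    rw [← C_mul_X_pow_eq_monomial, mul_assoc, ← smul_eq_C_mul, map_smul, U_fun, F_lt q k i hk]
    simp

theorem orth [Nontrivial R] (a q : R) (i j : ℕ) :
    Lf (g a q) (U a q i * U a q j) = if i = j then hn a q i else 0 := by
  rcases Nat.lt_trichotomy i j with h | h | h
  · rw [orth_lt a q i j h, if_neg (by omega)]
  · subst h; rw [orth_self, if_pos rfl]
  · rw [mul_comm, orth_lt a q j i h, if_neg (by omega)]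

/-- the recurrence solved for `X * U_i` -/
theorem X_U (a q : R) (i : ℕ) : X * U a q (i + 1) = U a q (i + 2) + C ((1 + a) * q ^ (i + 1)) * U a q (i + 1)
    - C (a * q ^ i * (1 - q ^ (i + 1))) * U a q i := by
  rw [U_two]; ring

theorem X_U0 (a q : R) : X * U a q 0 = U a q 1 + C (1 + a) * U a q 0 := by
  simp only [U]; ring

theorem XUU [Nontrivial R] (a q : R) (i j : ℕ) : Lf (g a q) (X * (U a q i * U a q j)) =
    if j = i + 1 then hn a q (i + 1) else if j = i then (1 + a) * q ^ i * hn a q i else
      if i = j + 1 then hn a q (j + 1) else 0 := by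
  rcases i with _ | i
  · have e1 : X * (U a q 0 * U a q j) = U a q 1 * U a q j + (1 + a) • (U a q 0 * U a q j) := by
      rw [← mul_assoc, X_U0, smul_eq_C_mul]; ring
    rw [e1, map_add, map_smul, orth, orth, smul_eq_mul]
    rcases j with _ | _ | j
    · simp
    · simp
    · rw [if_neg (by omega), if_neg (by omega), if_neg (by omega), if_neg (by omega), if_neg (by omega)]
      simp
  · have e1 : X * (U a q (i + 1) * U a q j) = U a q (i + 2) * U a q j +
        ((1 + a) * q ^ (i + 1)) • (U a q (i + 1) * U a q j) -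
        (a * q ^ i * (1 - q ^ (i + 1))) • (U a q i * U a q j) := by
      rw [← mul_assoc, X_U, smul_eq_C_mul, smul_eq_C_mul]; ring
    rw [e1, map_sub, map_add, map_smul, map_smul, orth, orth, orth, smul_eq_mul, smul_eq_mul]
    by_cases h1 : j = i + 1 + 1
    · subst h1
      rw [if_pos rfl, if_pos rfl, if_neg (by omega), if_neg (by omega)]; simp
    · by_cases h2 : j = i + 1
      · subst h2
        rw [if_neg (by omega), if_pos rfl, if_neg (by omega), if_neg h1, if_pos rfl]; ring
      · by_cases h3 : j = i
        · subst h3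
          rw [if_neg (by omega), if_neg (by omega), if_pos rfl, if_neg h1, if_neg h2, if_pos rfl,
            hn_succ]
          ring
        · rw [if_neg (by omega), if_neg (by omega), if_neg (by omega), if_neg h1, if_neg h2,
            if_neg (by omega)]
          ring

/-- `U_{i-1}` -/
noncomputable def V (a q : R) : ℕ → R[X]
  | 0 => 0
  | (i + 1) => U a q i

theorem shift' (a q : R) (i : ℕ) : (U a q i).comp (C q * X) = U a q i - C (1 - q ^ i) * X * V a q i := by
  rcases i with _ | i
  · simp [U, V]
  · rw [U_shift, V]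

theorem S_UU (m : ℕ → R) (a q : R) (i j : ℕ) : S m q (U a q i) (U a q j) =
    (1 - q ^ j) * Lf m (X * (U a q i * V a q j)) - (1 - q ^ i) * Lf m (X * (V a q i * U a q j)) := by
  unfold S
  rw [shift', shift']
  have e1 : (U a q i - C (1 - q ^ i) * X * V a q i) * U a q j -
      U a q i * (U a q j - C (1 - q ^ j) * X * V a q j) =
      (1 - q ^ j) • (X * (U a q i * V a q j)) - (1 - q ^ i) • (X * (V a q i * U a q j)) := by
    rw [smul_eq_C_mul, smul_eq_C_mul]; ring
  rw [e1, map_sub, map_smul, map_smul, smul_eq_mul, smul_eq_mul]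

/-- shifted moments `g_{k-1}` -/
def g1 (a q : R) (k : ℕ) : R := if k = 0 then 0 else g a q (k - 1)

theorem Lf_g1 (a q : R) (f : R[X]) : Lf (g1 a q) (X * f) = Lf (g a q) f := by
  induction f using Polynomial.induction_on' with
  | add p r hp hr => rw [mul_add, map_add, hp, hr, map_add]
  | monomial k c =>
    rw [X_mul_monomial, Lf_monomial, Lf_monomial]
    simp [g1]

theorem gram1 [Nontrivial R] (a q : R) (i j : ℕ) : S (g1 a q) q (U a q i) (U a q j) =
    band (fun i => (1 - q ^ (i + 1)) * hn a q i) 0 i j := by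
  have key : ∀ i j, i ≤ j → S (g1 a q) q (U a q i) (U a q j) =
      band (fun i => (1 - q ^ (i + 1)) * hn a q i) 0 i j := by
    intro i j hij
    rw [S_UU, Lf_g1, Lf_g1]
    have e1 : (1 - q ^ i) * Lf (g a q) (V a q i * U a q j) = 0 := by
      rcases i with _ | i
      · simp
      · rw [V, orth, if_neg (by omega)]; simp
    rw [e1, sub_zero]
    rcases j with _ | j
    · have : i = 0 := by omega
      subst this
      simp [V, band]
    · rw [V, orth]
      unfold band
      by_cases h : i = j
      · subst h; rw [if_pos rfl, if_pos rfl]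
      · rw [if_neg h, if_neg (by omega), if_neg (by omega)]
        simp
  rcases Nat.le_total i j with h | h
  · exact key i j h
  · rw [S_skew, key j i h, ← band_skew]

theorem gram2 [Nontrivial R] (a q : R) (i j : ℕ) : S (g a q) q (U a q i) (U a q j) =
    band (fun i => (1 - q ^ (i + 1)) * ((1 + a) * q ^ i * hn a q i))
      (fun i => (1 - q ^ (i + 2)) * hn a q (i + 1)) i j := by
  have key : ∀ i j, i ≤ j → S (g a q) q (U a q i) (U a q j) =
      band (fun i => (1 - q ^ (i + 1)) * ((1 + a) * q ^ i * hn a q i))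
        (fun i => (1 - q ^ (i + 2)) * hn a q (i + 1)) i j := by
    intro i j hij
    rw [S_UU]
    rcases j with _ | j
    · have : i = 0 := by omega
      subst this
      simp [V, band]
    · rcases i with _ | i
      · rw [pow_zero, sub_self, zero_mul, sub_zero, V, XUU]
        unfold band
        rcases j with _ | _ | j
        · simp
        · simp
        · rw [if_neg (by omega), if_neg (by omega), if_neg (by omega), if_neg (by omega),
            if_neg (by omega), if_neg (by omega), if_neg (by omega)]
          simp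
      · rw [V, V, XUU, XUU]
        unfold band
        rcases Nat.lt_trichotomy j (i + 1) with h | h | h
        · have : j = i := by omega
          subst this
          rw [if_neg (by omega), if_neg (by omega), if_pos rfl, if_pos rfl, if_neg (by omega),
            if_neg (by omega), if_neg (by omega), if_neg (by omega)]
          ring
        · subst h
          rw [if_neg (by omega), if_pos rfl, if_neg (by omega), if_neg (by omega), if_neg (by omega),
            if_pos rfl]
          ring
        · rcases Nat.lt_or_ge (i + 2) j with h2 | h2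
          · rw [if_neg (by omega), if_neg (by omega), if_neg (by omega), if_neg (by omega),
              if_neg (by omega), if_neg (by omega), if_neg (by omega), if_neg (by omega),
              if_neg (by omega), if_neg (by omega)]
            ring
          · have : j = i + 2 := by omega
            subst this
            rw [if_pos rfl, if_neg (by omega), if_neg (by omega), if_neg (by omega),
              if_neg (by omega), if_neg (by omega), if_pos (by omega)]
            ring
  rcases Nat.le_total i j with h | h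
  · exact key i j h
  · rw [S_skew, key j i h, ← band_skew]

end Pool.Agent.Q280.QPf
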