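import Pool.Agent.Q140.QUAD.TaskRad

set_option autoImplicit false

/-!
The perimeter of a plane convex body is at least twice the diameter (in the notation of
`Pool.Agent.Q140.QUAD`).
-/

namespace Pool.Agent.Q280.QuadDiam

open Set Pool.Agent.Q140.QUAD

theorem u_shift (θ : ℝ) (k : ℤ) : u (θ + 2 * Real.pi * k) = u θ := by
  have h : θ + 2 * Real.pi * k = θ + k * (2 * Real.pi) := by ring
  unfold u
  rw [h, Real.cos_add_int_mul_two_pi, Real.sin_add_int_mul_two_pi]

theorem P_shift (F : Set ℂ) (o : ℂ) (t : ℝ) (k : ℤ) : P F o (t + 2 * Real.pi * k) = P F o t := by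
  unfold P rad
  rw [u_shift]

theorem cr_sub (z w v : ℂ) : cr z (w - v) = cr z w - cr z v := by
  unfold cr
  simp only [Complex.sub_re, Complex.sub_im]
  ring

/-- a point of `F` at which a linear functional is minimal is a boundary point `P v` -/
theorem exists_P (hR : TaskRad) (F : Set ℂ) (o : ℂ) (hF : Body F o) (φ : ℝ) (R : ℂ) (hRF : R ∈ F)
    (hmin' : ∀ X ∈ F, cr (u φ) R ≤ cr (u φ) X) : ∃ v, P F o v = R := by
  -- strictness at `o`
  have hlt : cr (u φ) R < cr (u φ) o := by
    have hg : Continuous (fun δ : ℝ => o - (δ : ℂ) * (Complex.I * u φ)) := by fun_prop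
    have hn : (fun δ : ℝ => o - (δ : ℂ) * (Complex.I * u φ)) ⁻¹' F ∈ nhds (0 : ℝ) := by
      apply hg.continuousAt.preimage_mem_nhds
      simp only [Complex.ofReal_zero, zero_mul, sub_zero]
      exact mem_interior_iff_mem_nhds.1 hF.int
    obtain ⟨ε, hε, hb⟩ := Metric.mem_nhds_iff.1 hn
    have hm : (ε / 2) ∈ Metric.ball (0 : ℝ) ε := by
      rw [Metric.mem_ball, Real.dist_eq, sub_zero, abs_of_pos (by linarith)]
      linarith
    have hX := hmin' _ (hb hm)
    have hcs := Real.sin_sq_add_cos_sq φ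
    have hval : cr (u φ) (o - ((ε / 2 : ℝ) : ℂ) * (Complex.I * u φ)) = cr (u φ) o - ε / 2 := by
      unfold cr u
      simp
      have : Real.cos φ * (o.im - ε / 2 * Real.cos φ) - Real.sin φ * (o.re + ε / 2 * Real.sin φ) =
        Real.cos φ * o.im - Real.sin φ * o.re - ε / 2 * (Real.sin φ ^ 2 + Real.cos φ ^ 2) := by ring
      rw [hcs] at this
      linarith
    rw [hval] at hX
    linarith
  have hne : R ≠ o := by
    rintro rfl
    exact lt_irrefl _ hlt
  set ρ : ℝ := ‖R - o‖ with hρ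
  set v₀ : ℝ := (R - o).arg with hv₀
  have hRo : R - o = (ρ : ℂ) * u v₀ := by
    apply Complex.ext
    · simp [u, hρ, hv₀, Complex.norm_mul_cos_arg]
    · simp [u, hρ, hv₀, Complex.norm_mul_sin_arg]
  have hρ0 : 0 < ρ := norm_pos_iff.2 (sub_ne_zero.2 hne)
  obtain ⟨hrad, hPF, hbey⟩ := hR F o hF v₀
  have hρle : ρ ≤ rad F o v₀ := by
    by_contra hc
    push Not at hc
    apply hbey ρ hc
    rw [← hRo]
    simpa using hRF
  have hcrneg : cr (u φ) (u v₀) < 0 := by
    have h1 : cr (u φ) R - cr (u φ) o = ρ * cr (u φ) (u v₀) := by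
      rw [← cr_sub, hRo]
      unfold cr
      simp
      ring
    by_contra hc
    push Not at hc
    have := mul_nonneg hρ0.le hc
    linarith
  have h1 : cr (u φ) (P F o v₀) - cr (u φ) R = (rad F o v₀ - ρ) * cr (u φ) (u v₀) := by
    have : R = o + (ρ : ℂ) * u v₀ := by rw [← hRo]; ring
    rw [this]
    unfold P cr
    simp
    ring
  have h2 := hmin' _ hPF
  have h3 : rad F o v₀ = ρ := by
    by_contra hne'
    have h4 : 0 < rad F o v₀ - ρ := by
      rcases lt_or_eq_of_le hρle with h | h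
      · linarith
      · exact absurd h.symm hne'
    have := mul_neg_of_pos_of_neg h4 hcrneg
    linarith
  refine ⟨v₀, ?_⟩
  unfold P
  rw [h3, ← hRo]
  ring

/-- the farthest point from `y` is a boundary point -/
theorem exists_P_of_far (hR : TaskRad) (F : Set ℂ) (o : ℂ) (hF : Body F o) (x y : ℂ) (hx : x ∈ F)
    (hne : x ≠ y) (hmax : ∀ X ∈ F, dist X y ≤ dist x y) : ∃ v, P F o v = x := by
  set e : ℂ := x - y with he
  have he0 : 0 < ‖e‖ := norm_pos_iff.2 (sub_ne_zero.2 hne)
  set φ : ℝ := (-e).arg - Real.pi / 2 with hφ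
  have hcos : ‖e‖ * Real.cos φ = -e.im := by
    rw [hφ, Real.cos_sub_pi_div_two]
    have := Complex.norm_mul_sin_arg (-e)
    rw [norm_neg] at this
    simpa using this
  have hsin : ‖e‖ * Real.sin φ = e.re := by
    rw [hφ, Real.sin_sub_pi_div_two]
    have := Complex.norm_mul_cos_arg (-e)
    rw [norm_neg] at this
    have h2 : (-e).re = -e.re := by simp
    rw [h2] at this
    linarith
  apply exists_P hR F o hF φ x hx
  intro X hX
  have hd := hmax X hX
  rw [dist_eq_norm, dist_eq_norm, ← he] at hd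
  have h1 : (X.re - y.re) ^ 2 + (X.im - y.im) ^ 2 ≤ e.re ^ 2 + e.im ^ 2 := by
    have h3 : ‖X - y‖ ^ 2 ≤ ‖e‖ ^ 2 := by
      apply pow_le_pow_left₀ (norm_nonneg _) hd
    rw [Complex.sq_norm, Complex.sq_norm, Complex.normSq_apply, Complex.normSq_apply] at h3
    simp only [Complex.sub_re, Complex.sub_im] at h3
    nlinarith [h3]
  have hre : e.re = x.re - y.re := by simp [he]
  have him : e.im = x.im - y.im := by simp [he]
  -- `‖e‖ * (cr (u φ) X - cr (u φ) x) = -⟨X - x, e⟩ ≥ 0`
  have h2 : ‖e‖ * (cr (u φ) X - cr (u φ) x) = -((X.re - x.re) * e.re + (X.im - x.im) * e.im) := by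
    have : ‖e‖ * (cr (u φ) X - cr (u φ) x) = (‖e‖ * Real.cos φ) * (X.im - x.im) -
        (‖e‖ * Real.sin φ) * (X.re - x.re) := by
      unfold cr u
      ring
    rw [this, hcos, hsin]
    ring
  have h3 : (X.re - x.re) * e.re + (X.im - x.im) * e.im ≤ 0 := by
    have h4 : X.re - y.re = (X.re - x.re) + e.re := by rw [hre]; ring
    have h5 : X.im - y.im = (X.im - x.im) + e.im := by rw [him]; ring
    rw [h4, h5] at h1
    nlinarith [sq_nonneg (X.re - x.re), sq_nonneg (X.im - x.im)]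
  have h6 : 0 ≤ ‖e‖ * (cr (u φ) X - cr (u φ) x) := by linarith
  have := nonneg_of_mul_nonneg_right h6 he0
  linarith

/-- representatives of angles in `[s, s + 2π)` -/
theorem exists_rep (s v : ℝ) : ∃ k : ℤ, s ≤ v + 2 * Real.pi * k ∧ v + 2 * Real.pi * k < s + 2 * Real.pi := by
  have hpi : (0 : ℝ) < 2 * Real.pi := by linarith [Real.pi_pos]
  refine ⟨-⌊(v - s) / (2 * Real.pi)⌋, ?_, ?_⟩
  · have h1 := Int.floor_le ((v - s) / (2 * Real.pi))
    rw [le_div_iff₀ hpi] at h1
    push_cast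
    linarith
  · have h1 := Int.lt_floor_add_one ((v - s) / (2 * Real.pi))
    rw [div_lt_iff₀ hpi] at h1
    push_cast
    linarith

theorem key (F : Set ℂ) (o : ℂ) (s v w : ℝ) (h1 : s ≤ v) (h2 : v ≤ w) (h3 : w ≤ s + 2 * Real.pi) :
    edist (P F o v) (P F o w) + edist (P F o v) (P F o w) ≤
      eVariationOn (P F o) (Icc s (s + 2 * Real.pi)) := by
  have hs : P F o (s + 2 * Real.pi) = P F o s := by
    have := P_shift F o s 1
    simpa using this
  have a1 := eVariationOn.Icc_add_Icc (P F o) (s := univ) h1 (h2.trans h3) (mem_univ v)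
  have a2 := eVariationOn.Icc_add_Icc (P F o) (s := univ) h2 h3 (mem_univ w)
  simp only [univ_inter] at a1 a2
  rw [← a1, ← a2]
  have b1 : edist (P F o s) (P F o v) ≤ eVariationOn (P F o) (Icc s v) :=
    eVariationOn.edist_le _ (left_mem_Icc.2 h1) (right_mem_Icc.2 h1)
  have b2 : edist (P F o v) (P F o w) ≤ eVariationOn (P F o) (Icc v w) :=
    eVariationOn.edist_le _ (left_mem_Icc.2 h2) (right_mem_Icc.2 h2)
  have b3 : edist (P F o w) (P F o s) ≤ eVariationOn (P F o) (Icc w (s + 2 * Real.pi)) := by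
    rw [← hs]
    exact eVariationOn.edist_le _ (left_mem_Icc.2 h3) (right_mem_Icc.2 h3)
  calc edist (P F o v) (P F o w) + edist (P F o v) (P F o w)
      ≤ edist (P F o v) (P F o w) + (edist (P F o v) (P F o s) + edist (P F o s) (P F o w)) := by
        gcongr
        exact edist_triangle _ _ _
    _ = edist (P F o s) (P F o v) + (edist (P F o v) (P F o w) + edist (P F o w) (P F o s)) := by
        rw [edist_comm (P F o v) (P F o s), edist_comm (P F o s) (P F o w)]
        ring
    _ ≤ _ := by gcongr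

/-- the perimeter is at least twice the diameter -/
theorem two_diam_le (hR : TaskRad) (F : Set ℂ) (o : ℂ) (hF : Body F o) (s : ℝ) (x y : ℂ)
    (hx : x ∈ F) (hy : y ∈ F) :
    ENNReal.ofReal (2 * dist x y) ≤ eVariationOn (P F o) (Icc s (s + 2 * Real.pi)) := by
  -- a pair at maximal distance
  obtain ⟨p, hp, hmax⟩ := (hF.compact.prod hF.compact).exists_isMaxOn ⟨(x, y), hx, hy⟩
    (f := fun q : ℂ × ℂ => dist q.1 q.2) (by fun_prop)
  have hmax' : ∀ X ∈ F, ∀ Y ∈ F, dist X Y ≤ dist p.1 p.2 := fun X hX Y hY =>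
    hmax (show (X, Y) ∈ F ×ˢ F from ⟨hX, hY⟩)
  have hle : dist x y ≤ dist p.1 p.2 := hmax' x hx y hy
  rcases eq_or_ne p.1 p.2 with heq | hne
  · have : dist x y ≤ 0 := by rw [heq, dist_self] at hle; exact hle
    rw [ENNReal.ofReal_of_nonpos (by linarith)]
    exact zero_le
  obtain ⟨v, hv⟩ := exists_P_of_far hR F o hF p.1 p.2 hp.1 hne (fun X hX => hmax' X hX _ hp.2)
  obtain ⟨w, hw⟩ := exists_P_of_far hR F o hF p.2 p.1 hp.2 hne.symm (fun X hX => by
    rw [dist_comm p.2 p.1]
    exact hmax' X hX _ hp.1)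
  obtain ⟨k, hk1, hk2⟩ := exists_rep s v
  obtain ⟨m, hm1, hm2⟩ := exists_rep s w
  have e1 : P F o (v + 2 * Real.pi * k) = p.1 := by rw [P_shift, hv]
  have e2 : P F o (w + 2 * Real.pi * m) = p.2 := by rw [P_shift, hw]
  have hfin : edist p.1 p.2 + edist p.1 p.2 ≤ eVariationOn (P F o) (Icc s (s + 2 * Real.pi)) := by
    rcases le_total (v + 2 * Real.pi * k) (w + 2 * Real.pi * m) with h | h
    · have := key F o s _ _ hk1 h hm2.le
      rwa [e1, e2] at this
    · have := key F o s _ _ hm1 h hk2.le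
      rw [e1, e2, edist_comm p.2 p.1] at this
      exact this
  refine le_trans ?_ hfin
  rw [edist_dist, ← ENNReal.ofReal_add dist_nonneg dist_nonneg]
  exact ENNReal.ofReal_le_ofReal (by linarith)

end Pool.Agent.Q280.QuadDiam
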