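import Pool.Agent.Q140.QUAD.TaskAlg
import Pool.Agent.Q140.QUAD.TaskArc
import Pool.Agent.Q140.QUAD.TaskDisc
import Pool.Agent.Q140.QUAD.TaskEdge
import Pool.Agent.Q140.QUAD.TaskLift
import Pool.Agent.Q140.QUAD.TaskMono
import Pool.Agent.Q140.QUAD.TaskRad
import Pool.Agent.Q140.QUAD.TaskRot
import Pool.Agent.Q140.QUAD.TaskSign
import Pool.Agent.Q140.QUAD.TaskSupp
import Pool.Agent.Q280.QuadDiam

set_option autoImplicit false

/-!
The inequality `|ac| + |bd| ≥ 2 ℓ` for perpendicular chords which cut the boundary into four arcs of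
length `ℓ`, assembled from the lemmas of `Pool.Agent.Q140.QUAD`.
-/

namespace Pool.Agent.Q280.QuadCore

open Set Pool.Agent.Q140.QUAD Pool.Agent.Q280.QuadDiam

theorem P_sub (F : Set ℂ) (o : ℂ) (s t : ℝ) :
    P F o t - P F o s = (rad F o t : ℂ) * u t - (rad F o s : ℂ) * u s := by
  unfold P
  ring

/-- signed area of a triangle inscribed in the boundary curve -/
theorem cr_formula (F : Set ℂ) (o : ℂ) (s v t : ℝ) :
    cr (P F o t - P F o s) (P F o v - P F o s) =
      -(rad F o t * rad F o v * Real.sin (t - v)) - rad F o s * rad F o v * Real.sin (v - s)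
        + rad F o t * rad F o s * Real.sin (t - s) := by
  rw [P_sub, P_sub]
  unfold cr u
  simp only [Complex.sub_re, Complex.sub_im, Complex.mul_re, Complex.mul_im, Complex.ofReal_re,
    Complex.ofReal_im]
  rw [Real.sin_sub, Real.sin_sub, Real.sin_sub]
  ring

/-- the boundary lies to the right of short chords -/
theorem right_short (hR : TaskRad) (F : Set ℂ) (o : ℂ) (hF : Body F o) (s v t : ℝ) (h1 : s ≤ v)
    (h2 : v ≤ t) (h3 : t ≤ s + Real.pi) (hst : s < t) :
    cr (P F o t - P F o s) (P F o v - P F o s) ≤ 0 := by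
  obtain ⟨hs0, hsF, -⟩ := hR F o hF s
  obtain ⟨hv0, hvF, hvb⟩ := hR F o hF v
  obtain ⟨ht0, htF, -⟩ := hR F o hF t
  have hsin1 : 0 ≤ Real.sin (t - v) := Real.sin_nonneg_of_nonneg_of_le_pi (by linarith) (by linarith)
  have hsin2 : 0 ≤ Real.sin (v - s) := Real.sin_nonneg_of_nonneg_of_le_pi (by linarith) (by linarith)
  have hsin3 : 0 ≤ Real.sin (t - s) := Real.sin_nonneg_of_nonneg_of_le_pi (by linarith) (by linarith)
  rw [cr_formula]
  set rs := rad F o s
  set rv := rad F o v
  set rt := rad F o t
  set den := rt * Real.sin (t - v) + rs * Real.sin (v - s) with hden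
  have hden0 : 0 ≤ den := by positivity
  rcases eq_or_lt_of_le h3 with h | h
  · have : Real.sin (t - s) = 0 := by rw [h]; simp
    rw [this]
    have := mul_nonneg hv0.le hden0
    rw [hden] at this
    nlinarith [this]
  · have hsin3' : 0 < Real.sin (t - s) := Real.sin_pos_of_pos_of_lt_pi (by linarith) (by linarith)
    have hdenpos : 0 < den := by
      rcases eq_or_lt_of_le h1 with h5 | h5
      · have : 0 < Real.sin (t - v) := by rw [← h5]; exact hsin3'
        have := mul_pos ht0 this
        have := mul_nonneg hs0.le hsin2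
        linarith
      · have : 0 < Real.sin (v - s) := Real.sin_pos_of_pos_of_lt_pi (by linarith) (by linarith)
        have := mul_pos hs0 this
        have := mul_nonneg ht0.le hsin1
        linarith
    -- the point of the chord on the ray
    set rQ := rt * rs * Real.sin (t - s) / den with hrQ
    have hQ : o + (rQ : ℂ) * u v ∈ F := by
      have hid : ∀ (f : ℝ → ℝ), (f = Real.cos ∨ f = Real.sin) →
          Real.sin (t - v) * f s + Real.sin (v - s) * f t = Real.sin (t - s) * f v := by
        rintro f (rfl | rfl)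
        · rw [Real.sin_sub, Real.sin_sub, Real.sin_sub]
          ring
        · rw [Real.sin_sub, Real.sin_sub, Real.sin_sub]
          ring
      have hmem := hF.convex hsF htF (a := rt * Real.sin (t - v) / den)
        (b := rs * Real.sin (v - s) / den) (by positivity) (by positivity)
        (by rw [← add_div, ← hden]; exact div_self hdenpos.ne')
      have heq : (rt * Real.sin (t - v) / den) • P F o s + (rs * Real.sin (v - s) / den) • P F o t
          = o + (rQ : ℂ) * u v := by
        have hsum : rt * Real.sin (t - v) / den + rs * Real.sin (v - s) / den = 1 := by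
          rw [← add_div, ← hden]; exact div_self hdenpos.ne'
        apply Complex.ext
        · have e := hid Real.cos (Or.inl rfl)
          simp only [Complex.add_re, Complex.smul_re, smul_eq_mul, P, u, Complex.mul_re,
            Complex.ofReal_re, Complex.ofReal_im, zero_mul, sub_zero]
          change rt * Real.sin (t - v) / den * (o.re + rs * Real.cos s) +
            rs * Real.sin (v - s) / den * (o.re + rt * Real.cos t) = o.re + rQ * Real.cos v
          have : rt * Real.sin (t - v) / den * (o.re + rs * Real.cos s) +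
            rs * Real.sin (v - s) / den * (o.re + rt * Real.cos t) =
            (rt * Real.sin (t - v) / den + rs * Real.sin (v - s) / den) * o.re +
            rt * rs / den * (Real.sin (t - v) * Real.cos s + Real.sin (v - s) * Real.cos t) := by
              ring
          rw [this, hsum, e, hrQ]
          ring
        · have e := hid Real.sin (Or.inr rfl)
          simp only [Complex.add_im, Complex.smul_im, smul_eq_mul, P, u, Complex.mul_im,
            Complex.ofReal_re, Complex.ofReal_im, zero_mul, add_zero]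
          change rt * Real.sin (t - v) / den * (o.im + rs * Real.sin s) +
            rs * Real.sin (v - s) / den * (o.im + rt * Real.sin t) = o.im + rQ * Real.sin v
          have : rt * Real.sin (t - v) / den * (o.im + rs * Real.sin s) +
            rs * Real.sin (v - s) / den * (o.im + rt * Real.sin t) =
            (rt * Real.sin (t - v) / den + rs * Real.sin (v - s) / den) * o.im +
            rt * rs / den * (Real.sin (t - v) * Real.sin s + Real.sin (v - s) * Real.sin t) := by
              ring
          rw [this, hsum, e, hrQ]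
          ring
      rw [heq] at hmem
      exact hmem
    have hle : rQ ≤ rv := by
      by_contra hc
      push Not at hc
      exact hvb rQ hc hQ
    have h7 : rt * rs * Real.sin (t - s) ≤ rv * den := by
      have := mul_le_mul_of_nonneg_right hle hdenpos.le
      rwa [hrQ, div_mul_cancel₀ _ hdenpos.ne'] at this
    rw [hden] at h7
    nlinarith [h7]

/-- the arc from `P s` to `P t` lies to the right of the chord -/
theorem right (hR : TaskRad) (F : Set ℂ) (o : ℂ) (hF : Body F o) (s v t : ℝ) (h1 : s < v)
    (h2 : v < t) (h3 : t < s + 2 * Real.pi) :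
    cr (P F o t - P F o s) (P F o v - P F o s) ≤ 0 := by
  have hpi := Real.pi_pos
  obtain ⟨hs0, -, -⟩ := hR F o hF s
  obtain ⟨hv0, -, -⟩ := hR F o hF v
  obtain ⟨ht0, -, -⟩ := hR F o hF t
  rcases le_or_gt (t - s) Real.pi with h | h
  · exact right_short hR F o hF s v t h1.le h2.le (by linarith) (h1.trans h2)
  rcases le_or_gt (v - s) Real.pi with h4 | h4
  · rcases le_or_gt (t - v) Real.pi with h5 | h5
    · rw [cr_formula]
      have a1 : 0 ≤ Real.sin (t - v) :=
        Real.sin_nonneg_of_nonneg_of_le_pi (by linarith) h5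
      have a2 : 0 ≤ Real.sin (v - s) :=
        Real.sin_nonneg_of_nonneg_of_le_pi (by linarith) h4
      have a3 : Real.sin (t - s) ≤ 0 := by
        have : Real.sin (t - s) = - Real.sin (t - s - Real.pi) := by
          rw [Real.sin_sub_pi]; ring
        rw [this]
        have := Real.sin_nonneg_of_nonneg_of_le_pi (x := t - s - Real.pi) (by linarith) (by linarith)
        linarith
      have b1 := mul_nonneg (mul_nonneg ht0.le hv0.le) a1
      have b2 := mul_nonneg (mul_nonneg hs0.le hv0.le) a2
      have b3 := mul_nonpos_of_nonneg_of_nonpos (mul_nonneg ht0.le hs0.le) a3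
      linarith
    · -- `t - 2π < s < v`
      have := right_short hR F o hF (t + 2 * Real.pi * ((-1 : ℤ) : ℝ)) s v (by push_cast; linarith) h1.le
        (by push_cast; linarith) (by push_cast; linarith)
      rw [P_shift] at this
      have e : cr (P F o t - P F o s) (P F o v - P F o s) =
          cr (P F o v - P F o t) (P F o s - P F o t) := by
        unfold cr
        simp only [Complex.sub_re, Complex.sub_im]
        ring
      rw [e]
      exact this
  · -- `v < t < s + 2π`
    have := right_short hR F o hF v t (s + 2 * Real.pi * ((1 : ℤ) : ℝ)) h2.le (by push_cast; linarith)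
        (by push_cast; linarith) (by push_cast; linarith)
    rw [P_shift] at this
    have e : cr (P F o t - P F o s) (P F o v - P F o s) =
        cr (P F o s - P F o v) (P F o t - P F o v) := by
      unfold cr
      simp only [Complex.sub_re, Complex.sub_im]
      ring
    rw [e]
    exact this

/-- different parameters give different points -/
theorem P_ne (hR : TaskRad) (F : Set ℂ) (o : ℂ) (hF : Body F o) (s t : ℝ) (h1 : s < t)
    (h2 : t < s + 2 * Real.pi) : P F o s ≠ P F o t := by
  obtain ⟨hs0, -, -⟩ := hR F o hF s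
  obtain ⟨ht0, -, -⟩ := hR F o hF t
  intro h
  have h3 : (rad F o s : ℂ) * u s = (rad F o t : ℂ) * u t := by
    unfold P at h
    exact add_left_cancel h
  have hre := congrArg Complex.re h3
  have him := congrArg Complex.im h3
  simp [u] at hre him
  set rs := rad F o s
  set rt := rad F o t
  -- `rs = rt * cos (t - s)`, `0 = rt * sin (t - s)`
  have hcs := Real.sin_sq_add_cos_sq s
  have e1 : rs = rt * Real.cos (t - s) := by
    rw [Real.cos_sub]
    have : rs * (Real.sin s ^ 2 + Real.cos s ^ 2) = (rs * Real.cos s) * Real.cos s +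
      (rs * Real.sin s) * Real.sin s := by ring
    rw [hcs, mul_one, hre, him] at this
    rw [this]
    ring
  have e2 : rt * Real.sin (t - s) = 0 := by
    rw [Real.sin_sub]
    have : rt * (Real.sin t * Real.cos s - Real.cos t * Real.sin s) =
      (rt * Real.sin t) * Real.cos s - (rt * Real.cos t) * Real.sin s := by ring
    rw [this, ← hre, ← him]
    ring
  have e3 : Real.sin (t - s) = 0 := (mul_eq_zero.1 e2).resolve_left ht0.ne'
  have hpi := Real.pi_pos
  rcases lt_trichotomy (t - s) Real.pi with h4 | h4 | h4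
  · have := Real.sin_pos_of_pos_of_lt_pi (x := t - s) (by linarith) h4
    linarith
  · rw [h4, Real.cos_pi] at e1
    linarith
  · have : Real.sin (t - s) = - Real.sin (t - s - Real.pi) := by
      rw [Real.sin_sub_pi]; ring
    have := Real.sin_pos_of_pos_of_lt_pi (x := t - s - Real.pi) (by linarith) (by linarith)
    linarith

theorem Supp_shift (F : Set ℂ) (o : ℂ) (t τ : ℝ) (h : Supp F o t τ) :
    Supp F o (t + 2 * Real.pi) (τ + 2 * Real.pi) := by
  obtain ⟨h1, h2, h3⟩ := h
  refine ⟨by linarith, by linarith, ?_⟩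
  intro x hx
  have e1 : u (τ + 2 * Real.pi) = u τ := by simpa using u_shift τ 1
  have e2 : P F o (t + 2 * Real.pi) = P F o t := by simpa using P_shift F o t 1
  rw [e1, e2]
  exact h3 x hx

/-- the inequality -/
theorem core (F : Set ℂ) (o : ℂ) (hF : Body F o) (t0 t1 t2 t3 l : ℝ) (h01 : t0 < t1)
    (h12 : t1 < t2) (h23 : t2 < t3) (h30 : t3 < t0 + 2 * Real.pi) (hl : 0 < l)
    (v1 : eVariationOn (P F o) (Icc t0 t1) = ENNReal.ofReal l)
    (v2 : eVariationOn (P F o) (Icc t1 t2) = ENNReal.ofReal l)
    (v3 : eVariationOn (P F o) (Icc t2 t3) = ENNReal.ofReal l)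
    (v4 : eVariationOn (P F o) (Icc t3 (t0 + 2 * Real.pi)) = ENNReal.ofReal l)
    (hperp : (P F o t0 - P F o t2).re * (P F o t1 - P F o t3).re +
      (P F o t0 - P F o t2).im * (P F o t1 - P F o t3).im = 0) :
    2 * l ≤ dist (P F o t0) (P F o t2) + dist (P F o t1) (P F o t3) := by
  have hR := TaskRad_proof
  have hL := TaskLift_proof
  have hS := TaskSupp_proof
  have hE := TaskEdge_proof
  have hM := TaskMono_proof
  have hA := TaskArc_proof
  have hpi := Real.pi_pos
  obtain ⟨τ0, s0⟩ := hS hR hL F o hF t0
  obtain ⟨τ1, s1⟩ := hS hR hL F o hF t1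
  obtain ⟨τ2, s2⟩ := hS hR hL F o hF t2
  obtain ⟨τ3, s3⟩ := hS hR hL F o hF t3
  have s4 := Supp_shift F o t0 τ0 s0
  have m1 := hM hE hS hR hL F o hF t0 t1 τ0 τ1 h01 s0 s1
  have m2 := hM hE hS hR hL F o hF t1 t2 τ1 τ2 h12 s1 s2
  have m3 := hM hE hS hR hL F o hF t2 t3 τ2 τ3 h23 s2 s3
  have m4 := hM hE hS hR hL F o hF t3 (t0 + 2 * Real.pi) τ3 (τ0 + 2 * Real.pi) h30 s3 s4
  have A1 := hA hE hS hR hL hM F o hF t0 t1 τ0 τ1 l h01.le (by linarith) s0 s1 hl.le v1
  have A2 := hA hE hS hR hL hM F o hF t1 t2 τ1 τ2 l h12.le (by linarith) s1 s2 hl.le v2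
  have A3 := hA hE hS hR hL hM F o hF t2 t3 τ2 τ3 l h23.le (by linarith) s2 s3 hl.le v3
  have A4 := hA hE hS hR hL hM F o hF t3 (t0 + 2 * Real.pi) τ3 (τ0 + 2 * Real.pi) l h30.le
    (by linarith) s3 s4 hl.le v4
  have e4 : P F o (t0 + 2 * Real.pi) = P F o t0 := by simpa using P_shift F o t0 1
  rw [e4] at A4
  -- orientation
  have o1 := right hR F o hF t0 t1 t2 h01 h12 (by linarith)
  have o2 : 0 ≤ cr (P F o t2 - P F o t0) (P F o t3 - P F o t0) := by
    have := right hR F o hF t0 t2 t3 (h01.trans h12) h23 h30
    have e : cr (P F o t3 - P F o t0) (P F o t2 - P F o t0) =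
      - cr (P F o t2 - P F o t0) (P F o t3 - P F o t0) := by
      unfold cr
      ring
    linarith
  have o3 : 0 ≤ cr (P F o t0 - P F o t2) (P F o t1 - P F o t3) := by
    have e : cr (P F o t0 - P F o t2) (P F o t1 - P F o t3) =
      cr (P F o t2 - P F o t0) (P F o t3 - P F o t0) -
        cr (P F o t2 - P F o t0) (P F o t1 - P F o t0) := by
      unfold cr
      simp only [Complex.sub_re, Complex.sub_im]
      ring
    rw [e]
    linarith
  have n1 := P_ne hR F o hF t0 t2 (h01.trans h12) (by linarith)
  have n2 := P_ne hR F o hF t1 t3 (h12.trans h23) (by linarith)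
  -- rotation
  set A := P F o t0
  set B := P F o t1
  set C := P F o t2
  set D := P F o t3
  have hAC : 0 < ‖A - C‖ := norm_pos_iff.2 (sub_ne_zero.2 n1)
  have hBD : 0 < ‖B - D‖ := norm_pos_iff.2 (sub_ne_zero.2 n2)
  set φ := -(A - C).arg with hφ
  have hrot : (A - C) * u φ = (‖A - C‖ : ℂ) := by
    have h1 := Complex.norm_mul_cos_arg (A - C)
    have h2 := Complex.norm_mul_sin_arg (A - C)
    have hcs := Real.sin_sq_add_cos_sq (A - C).arg
    apply Complex.ext
    · simp only [Complex.mul_re, u, Complex.ofReal_re]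
      rw [hφ, Real.cos_neg, Real.sin_neg, ← h1, ← h2]
      have : ‖A - C‖ * Real.cos (A - C).arg * Real.cos (A - C).arg -
        ‖A - C‖ * Real.sin (A - C).arg * -Real.sin (A - C).arg =
        ‖A - C‖ * (Real.sin (A - C).arg ^ 2 + Real.cos (A - C).arg ^ 2) := by ring
      rw [this, hcs, mul_one]
    · simp only [Complex.mul_im, u, Complex.ofReal_im]
      rw [hφ, Real.cos_neg, Real.sin_neg, ← h1, ← h2]
      ring
  have hu : Real.cos φ ^ 2 + Real.sin φ ^ 2 = 1 := Real.cos_sq_add_sin_sq φ
  have hre : (A - C).re * Real.cos φ - (A - C).im * Real.sin φ = ‖A - C‖ := by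
    have := congrArg Complex.re hrot
    simpa [u, Complex.mul_re] using this
  have him : (A - C).re * Real.sin φ + (A - C).im * Real.cos φ = 0 := by
    have := congrArg Complex.im hrot
    simpa [u, Complex.mul_im] using this
  -- the rotated second chord is vertical
  have hre2 : (B - D).re * Real.cos φ - (B - D).im * Real.sin φ = 0 := by
    have : ‖A - C‖ * ((B - D).re * Real.cos φ - (B - D).im * Real.sin φ) = 0 := by
      have e : ((A - C).re * Real.cos φ - (A - C).im * Real.sin φ) *
          ((B - D).re * Real.cos φ - (B - D).im * Real.sin φ) +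
          ((A - C).re * Real.sin φ + (A - C).im * Real.cos φ) *
          ((B - D).re * Real.sin φ + (B - D).im * Real.cos φ) =
          ((A - C).re * (B - D).re + (A - C).im * (B - D).im) *
            (Real.cos φ ^ 2 + Real.sin φ ^ 2) := by ring
      rw [hperp, him, hre] at e
      linarith
    exact (mul_eq_zero.1 this).resolve_left hAC.ne'
  have him2 : 0 ≤ (B - D).re * Real.sin φ + (B - D).im * Real.cos φ := by
    have e : ((A - C).re * Real.cos φ - (A - C).im * Real.sin φ) *
          ((B - D).re * Real.sin φ + (B - D).im * Real.cos φ) -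
          ((A - C).re * Real.sin φ + (A - C).im * Real.cos φ) *
          ((B - D).re * Real.cos φ - (B - D).im * Real.sin φ) =
          cr (A - C) (B - D) * (Real.cos φ ^ 2 + Real.sin φ ^ 2) := by
      unfold cr
      ring
    rw [him, hre, hu] at e
    have h9 : 0 ≤ ‖A - C‖ * ((B - D).re * Real.sin φ + (B - D).im * Real.cos φ) := by linarith
    exact nonneg_of_mul_nonneg_right h9 hAC
  have him3 : (B - D).re * Real.sin φ + (B - D).im * Real.cos φ = ‖B - D‖ := by
    have e : ((B - D).re * Real.cos φ - (B - D).im * Real.sin φ) ^ 2 +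
      ((B - D).re * Real.sin φ + (B - D).im * Real.cos φ) ^ 2 =
      ((B - D).re ^ 2 + (B - D).im ^ 2) * (Real.cos φ ^ 2 + Real.sin φ ^ 2) := by ring
    rw [hre2, hu] at e
    have e2 : ‖B - D‖ ^ 2 = (B - D).re ^ 2 + (B - D).im ^ 2 := by
      rw [Complex.sq_norm, Complex.normSq_apply]
      ring
    have e3 : ((B - D).re * Real.sin φ + (B - D).im * Real.cos φ) ^ 2 = ‖B - D‖ ^ 2 := by
      rw [e2]; linarith
    exact (pow_left_inj₀ him2 (norm_nonneg _) two_ne_zero).1 e3
  by_contra hcon
  push Not at hcon
  rw [dist_eq_norm, dist_eq_norm] at hcon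
  -- coordinates
  set a := (A.re * Real.cos φ - A.im * Real.sin φ) - (B.re * Real.cos φ - B.im * Real.sin φ) with ha
  set c := (B.re * Real.cos φ - B.im * Real.sin φ) - (C.re * Real.cos φ - C.im * Real.sin φ) with hc
  set b := (B.re * Real.sin φ + B.im * Real.cos φ) - (A.re * Real.sin φ + A.im * Real.cos φ) with hb
  set d := (A.re * Real.sin φ + A.im * Real.cos φ) - (D.re * Real.sin φ + D.im * Real.cos φ) with hd
  simp only [Complex.sub_re, Complex.sub_im] at hre him hre2 him3
  have w1 : (B - A) * u φ = ⟨-a, b⟩ := by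
    apply Complex.ext
    · simp [u, Complex.mul_re]; linarith
    · simp [u, Complex.mul_im]; linarith
  have w2 : (C - B) * u φ = ⟨-c, -b⟩ := by
    apply Complex.ext
    · simp [u, Complex.mul_re]; linarith
    · simp [u, Complex.mul_im]; linarith
  have w3 : (D - C) * u φ = ⟨c, -d⟩ := by
    apply Complex.ext
    · simp [u, Complex.mul_re]; linarith
    · simp [u, Complex.mul_im]; linarith
  have w4 : (A - D) * u φ = ⟨a, d⟩ := by
    apply Complex.ext
    · simp [u, Complex.mul_re]; linarith
    · simp [u, Complex.mul_im]; linarith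
  have R1 := Rot _ _ _ φ _ A1
  have R2 := Rot _ _ _ φ _ A2
  have R3 := Rot _ _ _ φ _ A3
  have R4 := Rot _ _ _ φ _ A4
  rw [w1] at R1
  rw [w2] at R2
  rw [w3] at R3
  rw [w4] at R4
  have e5 : τ0 + 2 * Real.pi + φ = τ0 + φ + 2 * Real.pi := by ring
  rw [e5] at R4
  obtain ⟨g1, g2, g3⟩ := TaskSign_proof (τ0 + φ) (τ1 + φ) (τ2 + φ) (τ3 + φ) l l l l _ _ _ _
    (by linarith) (by linarith) (by linarith) (by linarith) R1 R2 R3 R4
  have g4 := TaskDisc_proof _ _ _ _ _ _ _ _ _ _ g2 g3
  have g5 := TaskAlg_proof a b c d l hl (by linarith) (by linarith) (by linarith) g1 g4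
  obtain ⟨k1, k2, k3⟩ := g5
  linarith

end Pool.Agent.Q280.QuadCore
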