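import Pool.Agent.Q280.QuadCore

set_option autoImplicit false

/-!
The boundary curve of a plane convex body is rectifiable; it is parametrised bijectively by the
direction angle seen from an interior point.
-/

namespace Pool.Agent.Q280.QuadFin

open Set Pool.Agent.Q140.QUAD Pool.Agent.Q280.QuadDiam Pool.Agent.Q280.QuadCore

theorem var_fin (f : ℝ → ℂ) (g : ℝ → ℝ) (s t : ℝ) (hst : s ≤ t)
    (h : ∀ x ∈ Icc s t, ∀ y ∈ Icc s t, x ≤ y → ‖f y - f x‖ ≤ g y - g x) :
    eVariationOn f (Icc s t) ≠ ⊤ := by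
  have hφ : MonotoneOn g (Icc s t) := by
    intro x hx y hy hxy
    have := h x hx y hy hxy
    have h2 : 0 ≤ ‖f y - f x‖ := norm_nonneg _
    linarith
  have h1 := hφ.eVariationOn_le (left_mem_Icc.2 hst) (right_mem_Icc.2 hst)
  rw [inter_self] at h1
  have h2 : eVariationOn f (Icc s t) ≤ eVariationOn g (Icc s t) := by
    refine iSup_le fun ⟨n, v, hv, hvs⟩ => ?_
    refine le_trans ?_ (eVariationOn.sum_le (f := g) (n := n) hv (fun i => hvs i))
    refine Finset.sum_le_sum fun i _ => ?_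
    rw [edist_dist, edist_dist]
    apply ENNReal.ofReal_le_ofReal
    rw [dist_eq_norm, Real.dist_eq]
    have h3 := h (v i) (hvs i) (v (i + 1)) (hvs (i + 1)) (hv (Nat.le_succ i))
    exact h3.trans (le_abs_self _)
  exact ne_top_of_le_ne_top ENNReal.ofReal_ne_top (h2.trans h1)

/-- a point of the curve with a given support angle -/
theorem exists_supp (F : Set ℂ) (o : ℂ) (hF : Body F o) (φ : ℝ) : ∃ v, Supp F o v φ := by
  have hR := TaskRad_proof
  have hL := TaskLift_proof
  have hoF : o ∈ F := interior_subset hF.int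
  have hcont : Continuous (fun X : ℂ => cr (u φ) X) := by
    unfold cr
    fun_prop
  obtain ⟨R, hRF, hmin⟩ := hF.compact.exists_isMinOn ⟨o, hoF⟩ hcont.continuousOn
  have hmin' : ∀ X ∈ F, cr (u φ) R ≤ cr (u φ) X := fun X hX => hmin hX
  obtain ⟨v₀, hPR⟩ := exists_P hR F o hF φ R hRF hmin'
  obtain ⟨k, hk1, hk2, hk3⟩ := hL hR F o hF v₀ φ (fun x hx => by
    rw [hPR, cr_sub]
    linarith [hmin' x hx])
  refine ⟨v₀ + 2 * Real.pi * ((-k : ℤ) : ℝ), ?_, ?_, ?_⟩
  · push_cast
    linarith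
  · push_cast
    linarith
  · intro x hx
    rw [P_shift]
    have := hk3 x hx
    rwa [u_shift] at this

theorem mono' (F : Set ℂ) (o : ℂ) (hF : Body F o) (s t σ τ : ℝ) (h : s < t) (h1 : Supp F o s σ)
    (h2 : Supp F o t τ) : σ ≤ τ :=
  TaskMono_proof TaskEdge_proof TaskSupp_proof TaskRad_proof TaskLift_proof F o hF s t σ τ h h1 h2

/-- support angles inside `[σ, τ]` at every parameter of `[s, t]` -/
theorem arc_supp (F : Set ℂ) (o : ℂ) (hF : Body F o) (s t σ τ : ℝ) (hst : s < t)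
    (hs : Supp F o s σ) (ht : Supp F o t τ) (x : ℝ) (hx : x ∈ Icc s t) :
    ∃ ξ, Supp F o x ξ ∧ σ ≤ ξ ∧ ξ ≤ τ := by
  rcases eq_or_lt_of_le hx.1 with h | h
  · subst h
    exact ⟨σ, hs, le_refl _, mono' F o hF _ _ _ _ hst hs ht⟩
  · rcases eq_or_lt_of_le hx.2 with h' | h'
    · subst h'
      exact ⟨τ, ht, mono' F o hF _ _ _ _ h hs ht, le_refl _⟩
    · obtain ⟨ξ, hξ⟩ := TaskSupp_proof TaskRad_proof TaskLift_proof F o hF x
      exact ⟨ξ, hξ, mono' F o hF _ _ _ _ h hs hξ, mono' F o hF _ _ _ _ h' hξ ht⟩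

theorem norm_u (θ : ℝ) : ‖u θ‖ = 1 := by
  have : ‖u θ‖ ^ 2 = 1 := by
    rw [Complex.sq_norm, Complex.normSq_apply]
    show Real.cos θ * Real.cos θ + Real.sin θ * Real.sin θ = 1
    nlinarith [Real.sin_sq_add_cos_sq θ]
  nlinarith [norm_nonneg (u θ)]

/-- finite length of short arcs -/
theorem fin_short (F : Set ℂ) (o : ℂ) (hF : Body F o) (s t σ τ : ℝ) (hst : s ≤ t)
    (ht' : t < s + Real.pi) (hs : Supp F o s σ) (ht : Supp F o t τ) (hτ : τ ≤ σ + Real.pi / 2) :
    eVariationOn (P F o) (Icc s t) ≠ ⊤ := by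
  rcases eq_or_lt_of_le hst with rfl | hst'
  · rw [Icc_self, eVariationOn.subsingleton _ subsingleton_singleton]
    exact ENNReal.zero_ne_top
  have hpi := Real.pi_pos
  set m := σ + Real.pi / 4 with hm
  apply var_fin (P F o) (fun x => 2 * ((P F o x).re * Real.cos m + (P F o x).im * Real.sin m)) s t hst
  intro x hx y hy hxy
  rcases eq_or_lt_of_le hxy with rfl | hxy'
  · simp
  obtain ⟨ξ, hξ, h1, -⟩ := arc_supp F o hF s t σ τ hst' hs ht x hx
  obtain ⟨η, hη, -, h2⟩ := arc_supp F o hF s t σ τ hst' hs ht y hy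
  obtain ⟨θ, r, hr, h3, h4, h5⟩ := TaskEdge_proof TaskRad_proof F o hF x y ξ η hxy'
    (by linarith [hx.1, hy.2]) hξ hη
  have h6 : ‖P F o y - P F o x‖ = r := by
    rw [h5, norm_mul, Complex.norm_real, Real.norm_eq_abs, abs_of_pos hr, norm_u, mul_one]
  have h8 : (P F o y).re - (P F o x).re = r * Real.cos θ := by
    have := congrArg Complex.re h5
    simpa [u] using this
  have h9 : (P F o y).im - (P F o x).im = r * Real.sin θ := by
    have := congrArg Complex.im h5
    simpa [u] using this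
  have h10 : 1 / 2 ≤ Real.cos (θ - m) := by
    rw [← Real.cos_pi_div_three, ← Real.cos_abs (θ - m)]
    apply Real.cos_le_cos_of_nonneg_of_le_pi (abs_nonneg _) (by linarith)
    rw [abs_le]
    constructor <;> linarith
  rw [h6]
  have : 2 * ((P F o y).re * Real.cos m + (P F o y).im * Real.sin m) -
      2 * ((P F o x).re * Real.cos m + (P F o x).im * Real.sin m) = 2 * (r * Real.cos (θ - m)) := by
    rw [Real.cos_sub]
    linear_combination 2 * Real.cos m * h8 + 2 * Real.sin m * h9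
  rw [this]
  nlinarith

theorem fin_add (f : ℝ → ℂ) (a b c : ℝ) (h1 : a ≤ b) (h2 : b ≤ c)
    (f1 : eVariationOn f (Icc a b) ≠ ⊤) (f2 : eVariationOn f (Icc b c) ≠ ⊤) :
    eVariationOn f (Icc a c) ≠ ⊤ := by
  have := eVariationOn.Icc_add_Icc f (s := univ) h1 h2 (mem_univ b)
  simp only [univ_inter] at this
  rw [← this]
  exact ENNReal.add_ne_top.2 ⟨f1, f2⟩

/-- finite length of arcs with turning at most `π / 2` -/
theorem fin_quarter (F : Set ℂ) (o : ℂ) (hF : Body F o) (s t σ τ : ℝ) (hst : s ≤ t)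
    (hs : Supp F o s σ) (ht : Supp F o t τ) (hτ : τ ≤ σ + Real.pi / 2) :
    eVariationOn (P F o) (Icc s t) ≠ ⊤ := by
  rcases eq_or_lt_of_le hst with rfl | hst'
  · rw [Icc_self, eVariationOn.subsingleton _ subsingleton_singleton]
    exact ENNReal.zero_ne_top
  have hpi := Real.pi_pos
  have hb : t < s + 3 * Real.pi / 2 := by
    have := hs.2.1
    have := ht.1
    linarith
  set w := (s + t) / 2 with hw
  have h1 : s ≤ w := by rw [hw]; linarith
  have h2 : w ≤ t := by rw [hw]; linarith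
  obtain ⟨ω, hω, h3, h4⟩ := arc_supp F o hF s t σ τ hst' hs ht w ⟨h1, h2⟩
  exact fin_add _ s w t h1 h2
    (fin_short F o hF s w σ ω h1 (by rw [hw]; linarith) hs hω (by linarith))
    (fin_short F o hF w t ω τ h2 (by rw [hw]; linarith) hω ht (by linarith))

theorem le_of_supp (F : Set ℂ) (o : ℂ) (hF : Body F o) (s t σ τ : ℝ) (hs : Supp F o s σ)
    (ht : Supp F o t τ) (h : σ < τ) : s ≤ t := by
  by_contra hc
  push Not at hc
  have := mono' F o hF t s τ σ hc ht hs
  linarith

/-- the boundary curve is rectifiable -/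
theorem perimeter_ne_top (F : Set ℂ) (o : ℂ) (hF : Body F o) (s : ℝ) :
    eVariationOn (P F o) (Icc s (s + 2 * Real.pi)) ≠ ⊤ := by
  have hpi := Real.pi_pos
  obtain ⟨σ, hσ⟩ := TaskSupp_proof TaskRad_proof TaskLift_proof F o hF s
  have h4 := Supp_shift F o s σ hσ
  obtain ⟨v1, g1⟩ := exists_supp F o hF (σ + Real.pi / 2)
  obtain ⟨v2, g2⟩ := exists_supp F o hF (σ + Real.pi)
  obtain ⟨v3, g3⟩ := exists_supp F o hF (σ + 3 * Real.pi / 2)
  have a1 := le_of_supp F o hF s v1 _ _ hσ g1 (by linarith)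
  have a2 := le_of_supp F o hF v1 v2 _ _ g1 g2 (by linarith)
  have a3 := le_of_supp F o hF v2 v3 _ _ g2 g3 (by linarith)
  have a4 := le_of_supp F o hF v3 (s + 2 * Real.pi) _ _ g3 h4 (by linarith)
  have b1 := fin_quarter F o hF s v1 _ _ a1 hσ g1 (by linarith)
  have b2 := fin_quarter F o hF v1 v2 _ _ a2 g1 g2 (by linarith)
  have b3 := fin_quarter F o hF v2 v3 _ _ a3 g2 g3 (by linarith)
  have b4 := fin_quarter F o hF v3 (s + 2 * Real.pi) _ _ a4 g3 h4 (by linarith)
  exact fin_add _ _ _ _ a1 (a2.trans (a3.trans a4)) b1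
    (fin_add _ _ _ _ a2 (a3.trans a4) b2 (fin_add _ _ _ _ a3 a4 b3 b4))

/-- the points of the curve are boundary points -/
theorem P_mem_frontier (F : Set ℂ) (o : ℂ) (hF : Body F o) (t : ℝ) : P F o t ∈ frontier F := by
  obtain ⟨h0, h1, h2⟩ := TaskRad_proof F o hF t
  rw [hF.compact.isClosed.frontier_eq]
  refine ⟨h1, fun hint => ?_⟩
  have hg : Continuous (fun r : ℝ => o + (r : ℂ) * u t) := by fun_prop
  have hn : (fun r : ℝ => o + (r : ℂ) * u t) ⁻¹' F ∈ nhds (rad F o t) := by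
    apply hg.continuousAt.preimage_mem_nhds
    exact mem_interior_iff_mem_nhds.1 hint
  obtain ⟨ε, hε, hb⟩ := Metric.mem_nhds_iff.1 hn
  have hm : (rad F o t + ε / 2) ∈ Metric.ball (rad F o t) ε := by
    rw [Metric.mem_ball, Real.dist_eq, add_sub_cancel_left, abs_of_pos (by linarith)]
    linarith
  exact h2 _ (by linarith) (hb hm)

/-- every boundary point is on the curve, for exactly one parameter in a period -/
theorem exists_unique_param (F : Set ℂ) (o : ℂ) (hF : Body F o) (s : ℝ) (x : ℂ)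
    (hx : x ∈ frontier F) : ∃! t, t ∈ Ico s (s + 2 * Real.pi) ∧ P F o t = x := by
  have hne : x ≠ o := by
    rintro rfl
    exact hx.2 hF.int
  set ρ : ℝ := ‖x - o‖ with hρ
  set v₀ : ℝ := (x - o).arg with hv₀
  have hRo : x - o = (ρ : ℂ) * u v₀ := by
    apply Complex.ext
    · simp [u, hρ, hv₀, Complex.norm_mul_cos_arg]
    · simp [u, hρ, hv₀, Complex.norm_mul_sin_arg]
  have hρ0 : 0 < ρ := norm_pos_iff.2 (sub_ne_zero.2 hne)
  have hxF : x ∈ F := hF.compact.isClosed.frontier_subset hx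
  obtain ⟨hrad, hPF, hbey⟩ := TaskRad_proof F o hF v₀
  have hρle : ρ ≤ rad F o v₀ := by
    by_contra hc
    push Not at hc
    apply hbey ρ hc
    rw [← hRo]
    simpa using hxF
  have hP : P F o v₀ = x := by
    rcases eq_or_lt_of_le hρle with h | h
    · unfold P
      rw [← h, ← hRo]
      ring
    · exfalso
      apply hx.2
      have hseg : x ∈ openSegment ℝ o (P F o v₀) := by
        refine ⟨1 - ρ / rad F o v₀, ρ / rad F o v₀, ?_, by positivity, by ring, ?_⟩
        · rw [sub_pos, div_lt_one hrad]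
          exact h
        · have hx' : x = o + (ρ : ℂ) * u v₀ := by rw [← hRo]; ring
          rw [hx']
          unfold P
          rw [Complex.real_smul, Complex.real_smul]
          push_cast
          have hr' : (rad F o v₀ : ℂ) ≠ 0 := by exact_mod_cast hrad.ne'
          field_simp
          ring
      exact hF.convex.openSegment_interior_self_subset_interior hF.int hPF hseg
  obtain ⟨k, hk1, hk2⟩ := exists_rep s v₀
  refine ⟨v₀ + 2 * Real.pi * k, ⟨⟨hk1, hk2⟩, by rw [P_shift, hP]⟩, ?_⟩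
  rintro t ⟨⟨ht1, ht2⟩, ht3⟩
  have hPk : P F o (v₀ + 2 * Real.pi * k) = x := by rw [P_shift, hP]
  rcases lt_trichotomy t (v₀ + 2 * Real.pi * k) with h | h | h
  · exact absurd (ht3.trans hPk.symm) (P_ne TaskRad_proof F o hF _ _ h (by linarith))
  · exact h
  · exact absurd (hPk.trans ht3.symm) (P_ne TaskRad_proof F o hF _ _ h (by linarith))

end Pool.Agent.Q280.QuadFin
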