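import Mathlib

set_option autoImplicit false

/-!
# Hankel determinants of doubled and interleaved sequences
-/

namespace Pool.Agent.Q280.TMHankel

open Matrix Finset

/-- the Hankel determinant `det (x (s+i+j))_{0 ≤ i,j < n}` -/
def D (x : ℕ → ℤ) (s n : ℕ) : ℤ := Matrix.det (Matrix.of fun i j : Fin n => x (s + i + j))

/-- splitting indices by parity -/
def par (k b : ℕ) (hb : b ≤ 1) : Fin (k + b) ⊕ Fin k ≃ Fin (2 * k + b) where
  toFun := Sum.elim (fun u => ⟨2 * (u : ℕ), by have := u.isLt; omega⟩)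
    (fun v => ⟨2 * (v : ℕ) + 1, by have := v.isLt; omega⟩)
  invFun i := if h : (i : ℕ) % 2 = 0 then Sum.inl ⟨(i : ℕ) / 2, by have := i.isLt; omega⟩
    else Sum.inr ⟨(i : ℕ) / 2, by have := i.isLt; omega⟩
  left_inv x := by
    rcases x with u | v
    · simp
    · have h : ¬ (2 * (v : ℕ) + 1) % 2 = 0 := by omega
      simp only [Sum.elim_inr]
      rw [dif_neg h]
      congr 1
      apply Fin.ext
      simp only
      omega
  right_inv i := by
    by_cases h : (i : ℕ) % 2 = 0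
    · simp only [h, dif_pos, Sum.elim_inl]
      apply Fin.ext
      simp only
      omega
    · simp only [h, dif_neg, not_false_iff, Sum.elim_inr]
      apply Fin.ext
      simp only
      omega

theorem D_block (x : ℕ → ℤ) (s k b : ℕ) (hb : b ≤ 1) : D x s (2 * k + b) =
    Matrix.det (Matrix.fromBlocks
      (Matrix.of fun u v : Fin (k + b) => x (s + 2 * u + 2 * v))
      (Matrix.of fun (u : Fin (k + b)) (v : Fin k) => x (s + 2 * u + 2 * v + 1))
      (Matrix.of fun (u : Fin k) (v : Fin (k + b)) => x (s + 2 * u + 2 * v + 1))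
      (Matrix.of fun u v : Fin k => x (s + 2 * u + 2 * v + 2))) := by
  unfold D
  rw [← Matrix.det_submatrix_equiv_self (par k b hb)]
  congr 1
  ext i j
  rcases i with u | u <;> rcases j with v | v <;>
    simp only [Matrix.submatrix_apply, Matrix.of_apply, par, Equiv.coe_fn_mk, Sum.elim_inl,
      Sum.elim_inr, Matrix.fromBlocks_apply₁₁, Matrix.fromBlocks_apply₁₂,
      Matrix.fromBlocks_apply₂₁, Matrix.fromBlocks_apply₂₂] <;> congr 1 <;> omega

theorem det_diag_blocks {k b : ℕ} (M : Matrix (Fin (k + b)) (Fin (k + b)) ℤ) (N : Matrix (Fin k) (Fin k) ℤ) :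
    (Matrix.fromBlocks M 0 0 N).det = M.det * N.det := Matrix.det_fromBlocks_zero₂₁ _ _ _

theorem det_anti {k : ℕ} (M : Matrix (Fin k) (Fin k) ℤ) :
    (Matrix.fromBlocks 0 M M 0).det = (-1) ^ k * M.det ^ 2 := by
  have h1 : (Matrix.fromBlocks (1 : Matrix (Fin k) (Fin k) ℤ) 0 (-1) 1) *
      ((Matrix.fromBlocks 1 1 0 1) * (Matrix.fromBlocks 0 M M 0)) = Matrix.fromBlocks M M 0 (-M) := by
    rw [Matrix.fromBlocks_multiply, Matrix.fromBlocks_multiply]
    simp
  have h2 := congrArg Matrix.det h1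
  rw [Matrix.det_mul, Matrix.det_mul, Matrix.det_fromBlocks_zero₁₂, Matrix.det_fromBlocks_zero₂₁,
    Matrix.det_fromBlocks_zero₂₁, Matrix.det_neg] at h2
  simp only [Matrix.det_one, mul_one, one_mul, Fintype.card_fin] at h2
  rw [h2]; ring

theorem det_anti_odd {k : ℕ} (B : Matrix (Fin (k + 1)) (Fin k) ℤ) (C : Matrix (Fin k) (Fin (k + 1)) ℤ) :
    (Matrix.fromBlocks 0 B C 0).det = 0 := by
  rw [Matrix.det_apply]
  refine Finset.sum_eq_zero fun σ _ => ?_
  have : ∃ u : Fin (k + 1), ∃ v : Fin (k + 1), σ (Sum.inl u) = Sum.inl v := by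
    by_contra hcon
    push Not at hcon
    have h1 : ∀ u : Fin (k + 1), ∃ w : Fin k, σ (Sum.inl u) = Sum.inr w := by
      intro u
      rcases h : σ (Sum.inl u) with v | w
      · exact absurd h (hcon u v)
      · exact ⟨w, rfl⟩
    choose f hf using h1
    obtain ⟨x, y, hxy, hf2⟩ := Fintype.exists_ne_map_eq_of_card_lt f (by simp)
    have : σ (Sum.inl x) = σ (Sum.inl y) := by rw [hf, hf, hf2]
    exact hxy (Sum.inl_injective (σ.injective this))
  obtain ⟨u, v, huv⟩ := this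
  rw [Finset.prod_eq_zero (Finset.mem_univ (Sum.inl u))]
  · simp
  · rw [huv]; simp

variable (x z : ℕ → ℤ)

/-- even support, even shift -/
theorem evn_even (h0 : ∀ k, x (2 * k) = z k) (h1 : ∀ k, x (2 * k + 1) = 0) (t k b : ℕ) (hb : b ≤ 1) :
    D x (2 * t) (2 * k + b) = D z t (k + b) * D z (t + 1) k := by
  rw [D_block x _ k b hb]
  have e1 : (Matrix.of fun u v : Fin (k + b) => x (2 * t + 2 * u + 2 * v)) =
      Matrix.of fun u v : Fin (k + b) => z (t + u + v) := by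
    ext u v; simp only [Matrix.of_apply]; rw [← h0]; congr 1; ring
  have e2 : (Matrix.of fun (u : Fin (k + b)) (v : Fin k) => x (2 * t + 2 * u + 2 * v + 1)) = 0 := by
    ext u v; simp only [Matrix.of_apply, Matrix.zero_apply]
    rw [show 2 * t + 2 * (u : ℕ) + 2 * (v : ℕ) + 1 = 2 * (t + u + v) + 1 by ring, h1]
  have e3 : (Matrix.of fun (u : Fin k) (v : Fin (k + b)) => x (2 * t + 2 * u + 2 * v + 1)) = 0 := by
    ext u v; simp only [Matrix.of_apply, Matrix.zero_apply]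
    rw [show 2 * t + 2 * (u : ℕ) + 2 * (v : ℕ) + 1 = 2 * (t + u + v) + 1 by ring, h1]
  have e4 : (Matrix.of fun u v : Fin k => x (2 * t + 2 * u + 2 * v + 2)) =
      Matrix.of fun u v : Fin k => z (t + 1 + u + v) := by
    ext u v; simp only [Matrix.of_apply]; rw [← h0]; congr 1; ring
  rw [e1, e2, e3, e4, det_diag_blocks]
  rfl

theorem evn_odd0 (h0 : ∀ k, x (2 * k) = z k) (h1 : ∀ k, x (2 * k + 1) = 0) (t k : ℕ) :
    D x (2 * t + 1) (2 * k) = (-1) ^ k * D z (t + 1) k ^ 2 := by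
  have := D_block x (2 * t + 1) k 0 (by norm_num)
  rw [show 2 * k + 0 = 2 * k from rfl] at this
  rw [this]
  have e1 : (Matrix.of fun u v : Fin (k + 0) => x (2 * t + 1 + 2 * u + 2 * v)) = 0 := by
    ext u v; simp only [Matrix.of_apply, Matrix.zero_apply]
    rw [show 2 * t + 1 + 2 * (u : ℕ) + 2 * (v : ℕ) = 2 * (t + u + v) + 1 by ring, h1]
  have e2 : (Matrix.of fun (u : Fin (k + 0)) (v : Fin k) => x (2 * t + 1 + 2 * u + 2 * v + 1)) =
      Matrix.of fun u v : Fin k => z (t + 1 + u + v) := by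
    ext u v; simp only [Matrix.of_apply]; rw [← h0]; congr 1; ring
  have e3 : (Matrix.of fun (u : Fin k) (v : Fin (k + 0)) => x (2 * t + 1 + 2 * u + 2 * v + 1)) =
      Matrix.of fun u v : Fin k => z (t + 1 + u + v) := by
    ext u v; simp only [Matrix.of_apply]; rw [← h0]; congr 1; ring
  have e4 : (Matrix.of fun u v : Fin k => x (2 * t + 1 + 2 * u + 2 * v + 2)) = 0 := by
    ext u v; simp only [Matrix.of_apply, Matrix.zero_apply]
    rw [show 2 * t + 1 + 2 * (u : ℕ) + 2 * (v : ℕ) + 2 = 2 * (t + u + v + 1) + 1 by ring, h1]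
  rw [e1, e2, e3, e4]
  exact det_anti _

theorem evn_odd1 (h1 : ∀ k, x (2 * k + 1) = 0) (t k : ℕ) :
    D x (2 * t + 1) (2 * k + 1) = 0 := by
  rw [D_block x (2 * t + 1) k 1 le_rfl]
  have e1 : (Matrix.of fun u v : Fin (k + 1) => x (2 * t + 1 + 2 * u + 2 * v)) = 0 := by
    ext u v; simp only [Matrix.of_apply, Matrix.zero_apply]
    rw [show 2 * t + 1 + 2 * (u : ℕ) + 2 * (v : ℕ) = 2 * (t + u + v) + 1 by ring, h1]
  have e4 : (Matrix.of fun u v : Fin k => x (2 * t + 1 + 2 * u + 2 * v + 2)) = 0 := by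
    ext u v; simp only [Matrix.of_apply, Matrix.zero_apply]
    rw [show 2 * t + 1 + 2 * (u : ℕ) + 2 * (v : ℕ) + 2 = 2 * (t + u + v + 1) + 1 by ring, h1]
  rw [e1, e4]
  exact det_anti_odd _ _

/-- odd support, odd shift -/
theorem od_odd (h0 : ∀ k, x (2 * k) = 0) (h1 : ∀ k, x (2 * k + 1) = z k) (t k b : ℕ) (hb : b ≤ 1) :
    D x (2 * t + 1) (2 * k + b) = D z t (k + b) * D z (t + 1) k := by
  have := evn_even (fun m => x (m + 1)) z (fun k => h1 k)
    (fun k => by rw [show 2 * k + 1 + 1 = 2 * (k + 1) by ring, h0]) t k b hb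
  rw [← this]
  unfold D
  congr 1
  ext i j
  simp only [Matrix.of_apply]
  congr 1
  ring

theorem od_even0 (h0 : ∀ k, x (2 * k) = 0) (h1 : ∀ k, x (2 * k + 1) = z k) (t k : ℕ) :
    D x (2 * t) (2 * k) = (-1) ^ k * D z t k ^ 2 := by
  have := D_block x (2 * t) k 0 (by norm_num)
  rw [show 2 * k + 0 = 2 * k from rfl] at this
  rw [this]
  have e1 : (Matrix.of fun u v : Fin (k + 0) => x (2 * t + 2 * u + 2 * v)) = 0 := by
    ext u v; simp only [Matrix.of_apply, Matrix.zero_apply]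
    rw [show 2 * t + 2 * (u : ℕ) + 2 * (v : ℕ) = 2 * (t + u + v) by ring, h0]
  have e2 : (Matrix.of fun (u : Fin (k + 0)) (v : Fin k) => x (2 * t + 2 * u + 2 * v + 1)) =
      Matrix.of fun u v : Fin k => z (t + u + v) := by
    ext u v; simp only [Matrix.of_apply]; rw [← h1]; congr 1; ring
  have e3 : (Matrix.of fun (u : Fin k) (v : Fin (k + 0)) => x (2 * t + 2 * u + 2 * v + 1)) =
      Matrix.of fun u v : Fin k => z (t + u + v) := by
    ext u v; simp only [Matrix.of_apply]; rw [← h1]; congr 1; ring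
  have e4 : (Matrix.of fun u v : Fin k => x (2 * t + 2 * u + 2 * v + 2)) = 0 := by
    ext u v; simp only [Matrix.of_apply, Matrix.zero_apply]
    rw [show 2 * t + 2 * (u : ℕ) + 2 * (v : ℕ) + 2 = 2 * (t + u + v + 1) by ring, h0]
  rw [e1, e2, e3, e4]
  exact det_anti _

theorem od_even1 (h0 : ∀ k, x (2 * k) = 0) (t k : ℕ) :
    D x (2 * t) (2 * k + 1) = 0 := by
  rw [D_block x (2 * t) k 1 le_rfl]
  have e1 : (Matrix.of fun u v : Fin (k + 1) => x (2 * t + 2 * u + 2 * v)) = 0 := by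
    ext u v; simp only [Matrix.of_apply, Matrix.zero_apply]
    rw [show 2 * t + 2 * (u : ℕ) + 2 * (v : ℕ) = 2 * (t + u + v) by ring, h0]
  have e4 : (Matrix.of fun u v : Fin k => x (2 * t + 2 * u + 2 * v + 2)) = 0 := by
    ext u v; simp only [Matrix.of_apply, Matrix.zero_apply]
    rw [show 2 * t + 2 * (u : ℕ) + 2 * (v : ℕ) + 2 = 2 * (t + u + v + 1) by ring, h0]
  rw [e1, e4]
  exact det_anti_odd _ _

/-- the selection matrix -/
def J (k b c : ℕ) : Matrix (Fin (k + b)) (Fin k) ℤ := Matrix.of fun i v => if (i : ℕ) = (v : ℕ) + c then 1 else 0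

theorem mul_J {m : Type*} (k b c : ℕ) (hc : c ≤ b) (f : m → ℕ → ℤ) :
    (Matrix.of fun (u : m) (v : Fin (k + b)) => f u v) * J k b c =
      Matrix.of fun (u : m) (v : Fin k) => f u (v + c) := by
  ext u v
  rw [Matrix.mul_apply]
  simp only [J, Matrix.of_apply, mul_ite, mul_one, mul_zero]
  rw [Finset.sum_eq_single (⟨(v : ℕ) + c, by have := v.isLt; omega⟩ : Fin (k + b))]
  · simp
  · intro i _ hi
    rw [if_neg]
    intro h
    exact hi (Fin.ext h)
  · intro h; exact absurd (Finset.mem_univ _) h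

/-- doubling, even shift -/
theorem dbl_even (h0 : ∀ k, x (2 * k) = z k) (h1 : ∀ k, x (2 * k + 1) = z k) (t k b : ℕ) (hb : b ≤ 1) :
    D x (2 * t) (2 * k + b) = (-1) ^ k * D (fun m => z m - z (m + 1)) t k * D z t (k + b) := by
  rw [D_block x _ k b hb]
  have e1 : (Matrix.of fun u v : Fin (k + b) => x (2 * t + 2 * u + 2 * v)) =
      Matrix.of fun u v : Fin (k + b) => z (t + u + v) := by
    ext u v; simp only [Matrix.of_apply]; rw [← h0]; congr 1; ring
  have e2 : (Matrix.of fun (u : Fin (k + b)) (v : Fin k) => x (2 * t + 2 * u + 2 * v + 1)) =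
      (Matrix.of fun u v : Fin (k + b) => z (t + u + v)) * J k b 0 := by
    rw [mul_J k b 0 (by omega) (fun (u : Fin (k + b)) v => z (t + u + v))]
    ext u v; simp only [Matrix.of_apply, add_zero]
    rw [show 2 * t + 2 * (u : ℕ) + 2 * (v : ℕ) + 1 = 2 * (t + u + v) + 1 by ring, h1]
  have e3 : (Matrix.of fun (u : Fin k) (v : Fin (k + b)) => x (2 * t + 2 * u + 2 * v + 1)) =
      Matrix.of fun (u : Fin k) (v : Fin (k + b)) => z (t + u + v) := by
    ext u v; simp only [Matrix.of_apply]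
    rw [show 2 * t + 2 * (u : ℕ) + 2 * (v : ℕ) + 1 = 2 * (t + u + v) + 1 by ring, h1]
  have e4 : (Matrix.of fun u v : Fin k => x (2 * t + 2 * u + 2 * v + 2)) =
      (Matrix.of fun (u : Fin k) (v : Fin (k + b)) => z (t + u + v)) * J k b 0 +
        (-(Matrix.of fun u v : Fin k => (fun m => z m - z (m + 1)) (t + u + v))) := by
    rw [mul_J k b 0 (by omega) (fun (u : Fin k) v => z (t + u + v))]
    ext u v; simp only [Matrix.of_apply, Matrix.add_apply, Matrix.neg_apply, add_zero]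
    rw [show 2 * t + 2 * (u : ℕ) + 2 * (v : ℕ) + 2 = 2 * (t + u + v + 1) by ring, h0]
    ring
  rw [e1, e2, e3, e4]
  set Z := (Matrix.of fun u v : Fin (k + b) => z (t + u + v)) with hZ
  set W := (Matrix.of fun (u : Fin k) (v : Fin (k + b)) => z (t + u + v)) with hW
  set Δ := (Matrix.of fun u v : Fin k => (fun m => z m - z (m + 1)) (t + u + v)) with hΔ
  have h2 : Matrix.fromBlocks Z (Z * J k b 0) W (W * J k b 0 + -Δ) =
      Matrix.fromBlocks Z 0 W (-Δ) * Matrix.fromBlocks 1 (J k b 0) 0 1 := by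
    rw [Matrix.fromBlocks_multiply]
    simp
  rw [h2, Matrix.det_mul, Matrix.det_fromBlocks_zero₁₂, Matrix.det_fromBlocks_zero₂₁, Matrix.det_neg]
  simp only [Matrix.det_one, mul_one, Fintype.card_fin]
  unfold D
  rw [← hZ, ← hΔ]
  ring

/-- doubling, odd shift, even size -/
theorem dbl_odd0 (h0 : ∀ k, x (2 * k) = z k) (h1 : ∀ k, x (2 * k + 1) = z k) (t k : ℕ) :
    D x (2 * t + 1) (2 * k) = D (fun m => z m - z (m + 1)) t k * D z (t + 1) k := by
  have := D_block x (2 * t + 1) k 0 (by norm_num)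
  rw [show 2 * k + 0 = 2 * k from rfl] at this
  rw [this]
  set Z := (Matrix.of fun u v : Fin k => z (t + 1 + u + v)) with hZ
  set Δ := (Matrix.of fun u v : Fin k => (fun m => z m - z (m + 1)) (t + u + v)) with hΔ
  have e1 : (Matrix.of fun u v : Fin (k + 0) => x (2 * t + 1 + 2 * u + 2 * v)) = Δ + Z := by
    ext u v; simp only [hΔ, hZ, Matrix.of_apply, Matrix.add_apply]
    rw [show 2 * t + 1 + 2 * (u : ℕ) + 2 * (v : ℕ) = 2 * (t + u + v) + 1 by ring, h1,
      show t + 1 + (u : ℕ) + v = t + u + v + 1 by ring]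
    simp
  have e2 : (Matrix.of fun (u : Fin (k + 0)) (v : Fin k) => x (2 * t + 1 + 2 * u + 2 * v + 1)) = Z := by
    ext u v; simp only [hZ, Matrix.of_apply]; rw [← h0]; congr 1; ring
  have e3 : (Matrix.of fun (u : Fin k) (v : Fin (k + 0)) => x (2 * t + 1 + 2 * u + 2 * v + 1)) = Z := by
    ext u v; simp only [hZ, Matrix.of_apply]; rw [← h0]; congr 1; ring
  have e4 : (Matrix.of fun u v : Fin k => x (2 * t + 1 + 2 * u + 2 * v + 2)) = Z := by
    ext u v; simp only [hZ, Matrix.of_apply]; rw [← h1]; congr 1; ring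
  rw [e1, e2, e3, e4]
  have h2 : (Matrix.fromBlocks (Δ + Z) Z Z Z : Matrix (Fin k ⊕ Fin k) (Fin k ⊕ Fin k) ℤ) =
      Matrix.fromBlocks 1 1 0 1 * Matrix.fromBlocks Δ 0 Z Z := by
    rw [Matrix.fromBlocks_multiply]
    simp
  change (Matrix.fromBlocks (Δ + Z) Z Z Z : Matrix (Fin k ⊕ Fin k) (Fin k ⊕ Fin k) ℤ).det = _
  rw [h2, Matrix.det_mul, Matrix.det_fromBlocks_zero₁₂, Matrix.det_fromBlocks_zero₂₁]
  simp only [Matrix.det_one, mul_one, one_mul]
  rfl

/-- doubling, odd shift, odd size -/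
theorem dbl_odd1 (h0 : ∀ k, x (2 * k) = z k) (h1 : ∀ k, x (2 * k + 1) = z k) (t k : ℕ) :
    D x (2 * t + 1) (2 * k + 1) = D z t (k + 1) * D (fun m => z m - z (m + 1)) (t + 1) k := by
  rw [D_block x (2 * t + 1) k 1 le_rfl]
  set Z := (Matrix.of fun u v : Fin (k + 1) => z (t + u + v)) with hZ
  set W := (Matrix.of fun (u : Fin k) (v : Fin (k + 1)) => z (t + 1 + u + v)) with hW
  set Δ := (Matrix.of fun u v : Fin k => (fun m => z m - z (m + 1)) (t + 1 + u + v)) with hΔ
  have e1 : (Matrix.of fun u v : Fin (k + 1) => x (2 * t + 1 + 2 * u + 2 * v)) = Z := by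
    ext u v; simp only [hZ, Matrix.of_apply]; rw [← h1]; congr 1; ring
  have e2 : (Matrix.of fun (u : Fin (k + 1)) (v : Fin k) => x (2 * t + 1 + 2 * u + 2 * v + 1)) =
      Z * J k 1 1 := by
    rw [hZ, mul_J k 1 1 le_rfl (fun (u : Fin (k + 1)) v => z (t + u + v))]
    ext u v; simp only [Matrix.of_apply]; rw [← h0]; congr 1; ring
  have e3 : (Matrix.of fun (u : Fin k) (v : Fin (k + 1)) => x (2 * t + 1 + 2 * u + 2 * v + 1)) = W := by
    ext u v; simp only [hW, Matrix.of_apply]; rw [← h0]; congr 1; ring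
  have e4 : (Matrix.of fun u v : Fin k => x (2 * t + 1 + 2 * u + 2 * v + 2)) = W * J k 1 1 + Δ := by
    rw [hW, mul_J k 1 1 le_rfl (fun (u : Fin k) v => z (t + 1 + u + v))]
    ext u v; simp only [hΔ, Matrix.of_apply, Matrix.add_apply]
    rw [show 2 * t + 1 + 2 * (u : ℕ) + 2 * (v : ℕ) + 2 = 2 * (t + 1 + u + v) + 1 by ring, h1]
    rw [show t + 1 + (u : ℕ) + ((v : ℕ) + 1) = t + 1 + u + v + 1 by ring]
    ring
  rw [e1, e2, e3, e4]
  have h2 : Matrix.fromBlocks Z (Z * J k 1 1) W (W * J k 1 1 + Δ) =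
      Matrix.fromBlocks Z 0 W Δ * Matrix.fromBlocks 1 (J k 1 1) 0 1 := by
    rw [Matrix.fromBlocks_multiply]
    simp
  rw [h2, Matrix.det_mul, Matrix.det_fromBlocks_zero₁₂, Matrix.det_fromBlocks_zero₂₁]
  simp only [Matrix.det_one, mul_one]
  rfl

/-- alternating signs -/
theorem D_alt (y : ℕ → ℤ) (s n : ℕ) : D (fun m => (-1) ^ m * y m) s n = (-1) ^ (s * n) * D y s n := by
  unfold D
  have h1 : (Matrix.of fun i j : Fin n => (-1) ^ (s + (i : ℕ) + j) * y (s + i + j)) =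
      Matrix.diagonal (fun i : Fin n => (-1 : ℤ) ^ (s + (i : ℕ))) *
        (Matrix.of fun i j : Fin n => y (s + i + j)) * Matrix.diagonal (fun j : Fin n => (-1 : ℤ) ^ (j : ℕ)) := by
    ext i j
    rw [Matrix.mul_diagonal, Matrix.diagonal_mul]
    simp only [Matrix.of_apply, pow_add]
    ring
  rw [h1, Matrix.det_mul, Matrix.det_mul, Matrix.det_diagonal, Matrix.det_diagonal]
  have h2 : ∏ i : Fin n, (-1 : ℤ) ^ (s + (i : ℕ)) = (-1) ^ (s * n) * ∏ i : Fin n, (-1 : ℤ) ^ (i : ℕ) := by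
    simp_rw [pow_add]
    rw [Finset.prod_mul_distrib]
    simp [← pow_mul]
  have h3 : (∏ i : Fin n, (-1 : ℤ) ^ (i : ℕ)) * (∏ i : Fin n, (-1 : ℤ) ^ (i : ℕ)) = 1 := by
    rw [← Finset.prod_mul_distrib]
    refine Finset.prod_eq_one fun i _ => ?_
    rw [← mul_pow]; simp
  rw [h2]
  linear_combination ((-1) ^ (s * n) * (Matrix.of fun i j : Fin n => y (s + i + j)).det) * h3

theorem D_shift (y : ℕ → ℤ) (s n : ℕ) : D (fun m => y (m + 1)) s n = D y (s + 1) n := by
  unfold D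
  congr 1
  ext i j
  simp only [Matrix.of_apply]
  congr 1
  ring

theorem D_zero (y : ℕ → ℤ) (s : ℕ) : D y s 0 = 1 := by unfold D; simp

theorem D_one (y : ℕ → ℤ) (s : ℕ) : D y s 1 = y s := by unfold D; simp

end Pool.Agent.Q280.TMHankel
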