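import Pool.Agent.Q280.TMSeq

set_option autoImplicit false

/-!
# The compositional inverse of the Thue-Morse series over `𝔽₂`
-/

namespace Pool.Agent.Q280.TMInverse

open PowerSeries Finset
open Pool.Agent.Q280.TMHankel Pool.Agent.Q280.TMSeq

/-- the Thue-Morse sequence modulo `2` -/
def t (n : ℕ) : ZMod 2 := ((Nat.digits 2 n).sum : ZMod 2)

/-- the Thue-Morse series -/
noncomputable def F : PowerSeries (ZMod 2) := PowerSeries.mk t

theorem two_zero : (2 : PowerSeries (ZMod 2)) = 0 := by
  have : (2 : ZMod 2) = 0 := by decide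
  rw [← map_ofNat (PowerSeries.C (R := ZMod 2)) 2, this, map_zero]

theorem t_two (n : ℕ) : t (2 * n) = t n := by
  unfold t
  rcases Nat.eq_zero_or_pos n with h | h
  · subst h; simp
  · rw [Nat.digits_def' (by norm_num) (by omega)]
    simp

theorem t_odd (n : ℕ) : t (2 * n + 1) = t n + 1 := by
  unfold t
  rw [Nat.digits_def' (by norm_num) (by omega)]
  have h1 : (2 * n + 1) % 2 = 1 := by omega
  have h2 : (2 * n + 1) / 2 = n := by omega
  rw [h1, h2]
  simp [add_comm]

theorem z2 (a : ZMod 2) : a * a = a := by revert a; decide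
theorem z2' (a : ZMod 2) : a + a = 0 := by revert a; decide

/-- squaring over `𝔽₂` -/
theorem coeff_sq (f : PowerSeries (ZMod 2)) (n : ℕ) :
    coeff n (f * f) = if n % 2 = 0 then coeff (n / 2) f else 0 := by
  rw [coeff_mul]
  by_cases h : n % 2 = 0
  · rw [if_pos h]
    have hmem : (n / 2, n / 2) ∈ antidiagonal n := by rw [HasAntidiagonal.mem_antidiagonal]; omega
    rw [← Finset.add_sum_erase _ _ hmem]
    rw [Finset.sum_involution (fun p _ => (p.2, p.1))]
    · rw [z2]; simp
    · rintro ⟨a, b⟩ _; simp only; rw [mul_comm]; exact z2' _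
    · rintro ⟨a, b⟩ hab _ heq
      rw [Finset.mem_erase, HasAntidiagonal.mem_antidiagonal] at hab
      simp only [Prod.mk.injEq, ne_eq] at heq hab
      omega
    · rintro ⟨a, b⟩ hab
      rw [Finset.mem_erase, HasAntidiagonal.mem_antidiagonal] at hab ⊢
      simp only [Prod.mk.injEq, ne_eq] at hab ⊢
      omega
    · rintro ⟨a, b⟩ _; rfl
  · rw [if_neg h]
    apply Finset.sum_involution (fun p _ => (p.2, p.1))
    · rintro ⟨a, b⟩ _; simp only; rw [mul_comm]; exact z2' _
    · rintro ⟨a, b⟩ hab _ heq
      rw [HasAntidiagonal.mem_antidiagonal] at hab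
      simp only [Prod.mk.injEq] at heq hab
      omega
    · rintro ⟨a, b⟩ hab
      rw [HasAntidiagonal.mem_antidiagonal] at hab ⊢
      simp only at hab ⊢
      omega
    · rintro ⟨a, b⟩ _; rfl

theorem F_eq : (1 + X) ^ 3 * F ^ 2 + (1 + X) ^ 2 * F + X = 0 := by
  set I : PowerSeries (ZMod 2) := PowerSeries.mk (fun _ => 1) with hI
  have hI1 : (1 + X) * I = 1 := by
    ext n
    rw [add_mul, one_mul, map_add]
    rcases n with _ | n
    · simp [hI]
    · rw [mul_comm, coeff_succ_mul_X, hI, coeff_mk, coeff_mk, coeff_one, if_neg (by omega)]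
      exact z2' 1
  have h1 : F = (1 + X) * (F * F) + X * (I * I) := by
    ext n
    rw [map_add, add_mul, one_mul, map_add]
    rcases n with _ | n
    · rw [coeff_sq]
      simp [F, t]
    · rw [mul_comm X (F * F), coeff_succ_mul_X, mul_comm X (I * I), coeff_succ_mul_X,
        coeff_sq, coeff_sq, coeff_sq]
      rcases Nat.even_or_odd' n with ⟨k, rfl | rfl⟩
      · rw [if_neg (by omega), if_pos (by omega), if_pos (by omega)]
        rw [show 2 * k / 2 = k by omega]
        simp only [F, hI, coeff_mk]
        rw [t_odd]; ring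
      · rw [if_pos (by omega), if_neg (by omega), if_neg (by omega)]
        rw [show (2 * k + 1 + 1) / 2 = k + 1 by omega, show 2 * k + 1 + 1 = 2 * (k + 1) by ring]
        simp only [F, coeff_mk]
        rw [t_two]; ring
  have h2 := two_zero
  -- multiply by (1+X)^2
  have h3 : (1 + X) ^ 2 * F = (1 + X) ^ 3 * F ^ 2 + X * (((1 + X) * I) * ((1 + X) * I)) := by
    conv_lhs => rw [h1]
    ring
  rw [hI1] at h3
  rw [h3]
  linear_combination ((1 + X) ^ 3 * F ^ 2 + X) * h2

/-- the polynomial equation of the inverse -/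
theorem G_quartic (G : PowerSeries (ZMod 2)) (h0 : constantCoeff G = 0) (hG : F.subst G = (X : PowerSeries (ZMod 2))) :
    X ^ 3 * ((G * G) * (G * G)) + (1 + X) * G + (X ^ 3 + X) = 0 := by
  have hs : HasSubst G := HasSubst.of_constantCoeff_zero' h0
  have h1 := congrArg (substAlgHom hs) F_eq
  rw [map_add, map_add, map_mul, map_mul, map_pow, map_pow, map_pow, map_add, map_one, map_zero] at h1
  rw [substAlgHom_X hs] at h1
  have h2 : substAlgHom hs F = X := by rw [coe_substAlgHom]; exact hG
  rw [h2] at h1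
  have h3 := two_zero
  linear_combination (X * G + X + 1) * h1 - (X ^ 2 + (2 * X ^ 3 + 3 * X ^ 2 + X) * G +
    (3 * X ^ 3 + 3 * X ^ 2 + X) * G ^ 2 + (2 * X ^ 3 + X ^ 2) * G ^ 3) * h3

theorem coeff_four (G : PowerSeries (ZMod 2)) (n : ℕ) :
    coeff n ((G * G) * (G * G)) = if n % 4 = 0 then coeff (n / 4) G else 0 := by
  rw [coeff_sq]
  by_cases h : n % 2 = 0
  · rw [if_pos h, coeff_sq]
    by_cases h2 : n / 2 % 2 = 0
    · rw [if_pos h2, if_pos (by omega), show n / 2 / 2 = n / 4 by omega]
    · rw [if_neg h2, if_neg (by omega)]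
  · rw [if_neg h, if_neg (by omega)]

theorem A_mod (i : ℕ) : ((p (i + 1) : ℤ) : ZMod 2) = ((p i : ℤ) : ZMod 2) + ((A (i + 1) : ℤ) : ZMod 2) := by
  have h := q_alt i
  have h1 : p (i + 1) = p i - (-1) ^ i * A (i + 1) := by rw [← h, q]; ring
  rw [h1]
  push_cast
  have h2 : (-1 : ZMod 2) = 1 := by decide
  rw [h2, one_pow, one_mul, sub_eq_add_neg]
  have h3 : ∀ a : ZMod 2, -a = a := by decide
  rw [h3]

/-- the coefficients of the inverse -/
theorem G_coeff (G : PowerSeries (ZMod 2)) (h0 : constantCoeff G = 0)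
    (hG : F.subst G = (X : PowerSeries (ZMod 2))) : ∀ n, 1 ≤ n → coeff n G = ((A (n + 1) : ℤ) : ZMod 2) := by
  have hq := G_quartic G h0 hG
  have hc0 : coeff 0 G = 0 := by rw [coeff_zero_eq_constantCoeff_apply]; exact h0
  have key : ∀ n, coeff (n + 1) G + coeff n G +
      (if 3 ≤ n + 1 then (if (n + 1 - 3) % 4 = 0 then coeff ((n + 1 - 3) / 4) G else 0) else 0) +
      ((if n + 1 = 3 then 1 else 0) + (if n + 1 = 1 then 1 else 0)) = 0 := by
    intro n
    have h := congrArg (coeff (n + 1)) hq
    rw [map_add, map_add, map_add, coeff_X_pow, coeff_X, map_zero, add_mul, one_mul, map_add,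
      mul_comm X G, coeff_succ_mul_X, coeff_X_pow_mul', coeff_four] at h
    linear_combination h
  have h11 : (1 : ZMod 2) + 1 = 0 := by decide
  intro n
  induction n using Nat.strong_induction_on with
  | _ n ih =>
    intro hn
    obtain ⟨m, rfl⟩ : ∃ m, n = m + 1 := ⟨n - 1, by omega⟩
    have k := key m
    have hneg : ∀ a b : ZMod 2, a + b = 0 → a = b := by decide
    rcases Nat.lt_or_ge m 3 with hm | hm
    · have hr0 : r 0 = 1 := r_zero
      have hr1 : r 1 = 1 := by
        have := r_odd 0; have h2 := p_two 0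
        simp at this h2; rw [this, h2, hr0]
      have hp1 : p 1 = 0 := p_odd 0
      have hr2 : r 2 = 0 := by have h2 := r_two 1; simpa [hp1] using h2
      have hA2 : A 2 = 1 := by simpa [hr1] using A_two 1
      have hA3 : A 3 = 1 := by simpa [hr1] using A_odd 1
      have hA4 : A 4 = 0 := by simpa [hr2] using A_two 2
      have hc1 : coeff 1 G = 1 := by
        have := key 0
        simp [hc0] at this
        exact hneg _ _ this
      have hc2 : coeff 2 G = 1 := by
        have := key 1
        simp [hc1] at this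
        exact hneg _ _ this
      have : m = 0 ∨ m = 1 ∨ m = 2 := by omega
      rcases this with rfl | rfl | rfl
      · rw [hc1, hA2]; simp
      · rw [hc2, hA3]; simp
      · rw [hA4]
        have := key 2
        have hc0' : constantCoeff G = 0 := h0
        simp [hc2, hc0'] at this
        simp
        have h5 : ∀ a : ZMod 2, a + 1 + 1 = 0 → a = 0 := by decide
        exact h5 _ this
    · rw [if_pos (show 3 ≤ m + 1 by omega), if_neg (show ¬ m + 1 = 3 by omega),
        if_neg (show ¬ m + 1 = 1 by omega), add_zero, add_zero] at k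
      have hm1 := ih m (by omega) (by omega)
      by_cases h4 : (m + 1 - 3) % 4 = 0
      · rw [if_pos h4] at k
        obtain ⟨i, hi⟩ : ∃ i, m = 4 * i + 2 := ⟨(m - 2) / 4, by omega⟩
        subst hi
        have hi1 : 1 ≤ i := by omega
        have hci := ih i (by omega) hi1
        rw [show (4 * i + 2 + 1 - 3) / 4 = i by omega, hci, hm1] at k
        have e1 : A (4 * i + 2 + 1) = p i := by
          rw [show 4 * i + 2 + 1 = 2 * (2 * i + 1) + 1 by ring, A_odd, r_odd]
        have e2 : A (4 * i + 2 + 1 + 1) = p (i + 1) := by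
          rw [show 4 * i + 2 + 1 + 1 = 2 * (2 * (i + 1)) by ring, A_two, r_two]
        rw [e2, A_mod]
        rw [e1] at k
        have h5 : ∀ a b c : ZMod 2, a + b + c = 0 → a = b + c := by decide
        exact h5 _ _ _ k
      · rw [if_neg h4, add_zero] at k
        have e1 := hneg _ _ k
        rw [e1, hm1]
        congr 1
        have : A (m + 1) = A (m + 1 + 1) := by
          rcases Nat.even_or_odd' m with ⟨j, rfl | rfl⟩
          · -- m even, m + 1 odd
            rcases Nat.even_or_odd' j with ⟨l, rfl | rfl⟩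
            · rw [A_odd, show 2 * (2 * l) + 1 + 1 = 2 * (2 * l + 1) by ring, A_two, r_two, r_odd]
            · omega
          · rw [show 2 * j + 1 + 1 = 2 * (j + 1) by ring, A_two, A_odd]
        exact this

theorem exists_inverse : ∃ G : PowerSeries (ZMod 2), constantCoeff G = 0 ∧
    F.subst G = (X : PowerSeries (ZMod 2)) := by
  have h1 : coeff 1 F = 1 := by simp [F, t]
  have h0 : constantCoeff F = 0 := by
    rw [← coeff_zero_eq_constantCoeff_apply]; simp [F, t]
  have hu : IsUnit (coeff 1 F) := by rw [h1]; exact isUnit_one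
  exact ⟨substInvOfIsUnit F hu, constantCoeff_substInvOfIsUnit F hu, subst_substInvOfIsUnit_right F h0 hu⟩

end Pool.Agent.Q280.TMInverse
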