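import Pool.Agent.Q280.TMHankel

set_option autoImplicit false

/-!
# The sequences attached to the inverse Thue-Morse series
-/

namespace Pool.Agent.Q280.TMSeq

open Matrix Finset
open Pool.Agent.Q280.TMHankel

/-- indicator of the Moser-de Bruijn set -/
def r (n : ℕ) : ℤ := if h : n = 0 then 1 else if n % 4 ≤ 1 then r (n / 4) else 0
termination_by n
decreasing_by omega

/-- digits `0`, `2` in base `4` -/
def p (n : ℕ) : ℤ := if n % 2 = 0 then r (n / 2) else 0

def A (n : ℕ) : ℤ := r (n / 2)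

def q (n : ℕ) : ℤ := p n - p (n + 1)

def rho (n : ℕ) : ℤ := r n - r (n + 1)

theorem r_zero : r 0 = 1 := by rw [r]; simp

theorem r_step (n : ℕ) : r n = if n % 4 ≤ 1 then r (n / 4) else 0 := by
  rcases Nat.eq_zero_or_pos n with h | h
  · subst h; simp
  · rw [r, dif_neg (by omega)]

theorem p_two (k : ℕ) : p (2 * k) = r k := by
  rw [p, if_pos (by omega)]; congr 1; omega

theorem p_odd (k : ℕ) : p (2 * k + 1) = 0 := by
  rw [p, if_neg (by omega)]

theorem r_two (k : ℕ) : r (2 * k) = p k := by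
  rw [r_step, p]
  by_cases h : k % 2 = 0
  · rw [if_pos (by omega), if_pos h]; congr 1; omega
  · rw [if_neg (by omega), if_neg h]

theorem r_odd (k : ℕ) : r (2 * k + 1) = p k := by
  rw [r_step, p]
  by_cases h : k % 2 = 0
  · rw [if_pos (by omega), if_pos h]; congr 1; omega
  · rw [if_neg (by omega), if_neg h]

theorem A_two (k : ℕ) : A (2 * k) = r k := by rw [A]; congr 1; omega

theorem A_odd (k : ℕ) : A (2 * k + 1) = r k := by rw [A]; congr 1; omega

theorem rho_two (k : ℕ) : rho (2 * k) = 0 := by rw [rho, r_two, r_odd]; ring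

theorem rho_odd' (k : ℕ) : rho (2 * k + 1) = q k := by
  rw [rho, q, r_odd, show 2 * k + 1 + 1 = 2 * (k + 1) by ring, r_two]

theorem q_alt (m : ℕ) : q m = (-1) ^ m * A (m + 1) := by
  rcases Nat.even_or_odd' m with ⟨k, rfl | rfl⟩
  · rw [q, p_two, p_odd, A_odd, pow_mul]; simp
  · rw [q, p_odd, show 2 * k + 1 + 1 = 2 * (k + 1) by ring, p_two, A_two, pow_succ, pow_mul]; simp

theorem q_eq (s n : ℕ) : D q s n = (-1) ^ (s * n) * D A (s + 1) n := by
  rw [← D_shift A s n, ← D_alt]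
  congr 1
  funext m
  exact q_alt m

theorem rho_fun : (fun m => r m - r (m + 1)) = rho := rfl

theorem q_fun : (fun m => p m - p (m + 1)) = q := rfl

theorem A_even (t k b : ℕ) (hb : b ≤ 1) :
    D A (2 * t) (2 * k + b) = (-1) ^ k * D rho t k * D r t (k + b) :=
  dbl_even A r A_two A_odd t k b hb

theorem A_odd0 (t k : ℕ) : D A (2 * t + 1) (2 * k) = D rho t k * D r (t + 1) k :=
  dbl_odd0 A r A_two A_odd t k

theorem A_odd1 (t k : ℕ) : D A (2 * t + 1) (2 * k + 1) = D r t (k + 1) * D rho (t + 1) k :=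
  dbl_odd1 A r A_two A_odd t k

theorem r_even (t k b : ℕ) (hb : b ≤ 1) :
    D r (2 * t) (2 * k + b) = (-1) ^ k * D q t k * D p t (k + b) :=
  dbl_even r p r_two r_odd t k b hb

theorem r_odd0 (t k : ℕ) : D r (2 * t + 1) (2 * k) = D q t k * D p (t + 1) k :=
  dbl_odd0 r p r_two r_odd t k

theorem r_odd1 (t k : ℕ) : D r (2 * t + 1) (2 * k + 1) = D p t (k + 1) * D q (t + 1) k :=
  dbl_odd1 r p r_two r_odd t k

theorem p_even (t k b : ℕ) (hb : b ≤ 1) :
    D p (2 * t) (2 * k + b) = D r t (k + b) * D r (t + 1) k :=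
  evn_even p r p_two p_odd t k b hb

theorem p_odd0 (t k : ℕ) : D p (2 * t + 1) (2 * k) = (-1) ^ k * D r (t + 1) k ^ 2 :=
  evn_odd0 p r p_two p_odd t k

theorem p_odd1 (t k : ℕ) : D p (2 * t + 1) (2 * k + 1) = 0 :=
  evn_odd1 p p_odd t k

theorem rho_odd (t k b : ℕ) (hb : b ≤ 1) :
    D rho (2 * t + 1) (2 * k + b) = D q t (k + b) * D q (t + 1) k :=
  od_odd rho q rho_two rho_odd' t k b hb

theorem rho_even0 (t k : ℕ) : D rho (2 * t) (2 * k) = (-1) ^ k * D q t k ^ 2 :=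
  od_even0 rho q rho_two rho_odd' t k

theorem rho_even1 (t k : ℕ) : D rho (2 * t) (2 * k + 1) = 0 :=
  od_even1 rho rho_two t k

/-! ### all Hankel determinants are `0, 1, -1` -/

/-- small values -/
def Sm (v : ℤ) : Prop := v = 0 ∨ v = 1 ∨ v = -1

theorem Sm.mul {a b : ℤ} (ha : Sm a) (hb : Sm b) : Sm (a * b) := by
  unfold Sm at *
  rcases ha with rfl | rfl | rfl <;> rcases hb with rfl | rfl | rfl <;> simp

theorem Sm.sign (k : ℕ) : Sm ((-1) ^ k) := by
  unfold Sm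
  rcases neg_one_pow_eq_or ℤ k with h | h <;> rw [h] <;> simp

theorem Sm.zero : Sm 0 := Or.inl rfl
theorem Sm.one : Sm 1 := Or.inr (Or.inl rfl)

theorem r_01 (n : ℕ) : r n = 0 ∨ r n = 1 := by
  induction n using Nat.strong_induction_on with
  | _ n ih =>
    rcases Nat.eq_zero_or_pos n with h | h
    · subst h; right; exact r_zero
    · rw [r_step]
      split_ifs
      · exact ih _ (by omega)
      · left; rfl

theorem p_01 (n : ℕ) : p n = 0 ∨ p n = 1 := by
  rw [p]; split_ifs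
  · exact r_01 _
  · left; rfl

theorem all_small (n : ℕ) : ∀ s, Sm (D r s n) ∧ Sm (D p s n) ∧ Sm (D A s n) ∧ Sm (D rho s n) ∧ Sm (D q s n) := by
  induction n using Nat.strong_induction_on with
  | _ n ih =>
    intro s
    have hAq : (∀ s, Sm (D A s n)) → Sm (D q s n) := by
      intro h
      rw [q_eq]
      exact (Sm.sign _).mul (h _)
    rcases Nat.lt_or_ge n 2 with h | h
    · have : n = 0 ∨ n = 1 := by omega
      rcases this with rfl | rfl
      · simp only [D_zero]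
        exact ⟨Sm.one, Sm.one, Sm.one, Sm.one, Sm.one⟩
      · simp only [D_one]
        refine ⟨?_, ?_, ?_, ?_, ?_⟩
        · rcases r_01 s with h | h <;> rw [h] <;> simp [Sm]
        · rcases p_01 s with h | h <;> rw [h] <;> simp [Sm]
        · rw [A]; rcases r_01 (s / 2) with h | h <;> rw [h] <;> simp [Sm]
        · rw [rho]; rcases r_01 s with h | h <;> rcases r_01 (s + 1) with h' | h' <;> rw [h, h'] <;> simp [Sm]
        · rw [q]; rcases p_01 s with h | h <;> rcases p_01 (s + 1) with h' | h' <;> rw [h, h'] <;> simp [Sm]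
    · obtain ⟨k, b, hb, hn⟩ : ∃ k b, b ≤ 1 ∧ n = 2 * k + b := ⟨n / 2, n % 2, by omega, by omega⟩
      have hk : k < n := by omega
      have hkb : k + b < n := by omega
      have H1 := ih k hk
      have H2 := ih (k + b) hkb
      have hA : ∀ s, Sm (D A s n) := by
        intro s
        rcases Nat.even_or_odd' s with ⟨t, rfl | rfl⟩
        · rw [hn, A_even t k b hb]
          exact ((Sm.sign _).mul (H1 t).2.2.2.1).mul (H2 t).1
        · rcases Nat.lt_or_ge b 1 with hb0 | hb1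
          · have : b = 0 := by omega
            subst this
            rw [hn, add_zero, A_odd0 t k]
            exact (H1 t).2.2.2.1.mul (H1 (t + 1)).1
          · have : b = 1 := by omega
            subst this
            rw [hn, A_odd1 t k]
            exact (H2 t).1.mul (H1 (t + 1)).2.2.2.1
      refine ⟨?_, ?_, hA s, ?_, hAq hA⟩
      · rcases Nat.even_or_odd' s with ⟨t, rfl | rfl⟩
        · rw [hn, r_even t k b hb]
          exact ((Sm.sign _).mul (H1 t).2.2.2.2).mul (H2 t).2.1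
        · rcases Nat.lt_or_ge b 1 with hb0 | hb1
          · have : b = 0 := by omega
            subst this
            rw [hn, add_zero, r_odd0 t k]
            exact (H1 t).2.2.2.2.mul (H1 (t + 1)).2.1
          · have : b = 1 := by omega
            subst this
            rw [hn, r_odd1 t k]
            exact (H2 t).2.1.mul (H1 (t + 1)).2.2.2.2
      · rcases Nat.even_or_odd' s with ⟨t, rfl | rfl⟩
        · rw [hn, p_even t k b hb]
          exact (H2 t).1.mul (H1 (t + 1)).1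
        · rcases Nat.lt_or_ge b 1 with hb0 | hb1
          · have : b = 0 := by omega
            subst this
            rw [hn, add_zero, p_odd0 t k, pow_two]
            exact (Sm.sign _).mul ((H1 (t + 1)).1.mul (H1 (t + 1)).1)
          · have : b = 1 := by omega
            subst this
            rw [hn, p_odd1 t k]
            exact Sm.zero
      · rcases Nat.even_or_odd' s with ⟨t, rfl | rfl⟩
        · rcases Nat.lt_or_ge b 1 with hb0 | hb1
          · have : b = 0 := by omega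
            subst this
            rw [hn, add_zero, rho_even0 t k, pow_two]
            exact (Sm.sign _).mul ((H1 t).2.2.2.2.mul (H1 t).2.2.2.2)
          · have : b = 1 := by omega
            subst this
            rw [hn, rho_even1 t k]
            exact Sm.zero
        · rw [hn, rho_odd t k b hb]
          exact (H2 t).2.2.2.2.mul (H1 (t + 1)).2.2.2.2

/-! ### the diagonal determinants -/

theorem pwm (m a b : ℕ) : (-1 : ℤ) ^ ((m + a) * (m + b)) = ((-1) ^ m) ^ (1 + a + b) * (-1) ^ (a * b) := by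
  have e : (m + a) * (m + b) = m * m + m * (a + b) + a * b := by ring
  rw [e, pow_add, pow_add, pow_add, pow_add, pow_mul, pow_mul, pow_one]
  have h : ((-1 : ℤ) ^ m) ^ m = (-1) ^ m := by
    rcases Nat.even_or_odd m with h | h
    · rw [h.neg_one_pow]; simp
    · rw [h.neg_one_pow]; exact h.neg_one_pow
  rw [h, pow_add]
  ring

theorem pwa (m a : ℕ) : (-1 : ℤ) ^ ((m + a) * m) = ((-1) ^ m) ^ (1 + a) := by
  have := pwm m a 0
  simpa using this

theorem pwb (m b : ℕ) : (-1 : ℤ) ^ (m * (m + b)) = ((-1) ^ m) ^ (1 + b) := by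
  have := pwm m 0 b
  simpa using this

theorem pwc (m : ℕ) : (-1 : ℤ) ^ (m * m) = (-1) ^ m := by
  have := pwm m 0 0
  simpa using this

theorem Dc (x : ℕ → ℤ) {s s' n n' : ℕ} (h : s = s') (h' : n = n') : D x s n = D x s' n' := by
  rw [h, h']

theorem E_A_1_0_0 (m : ℕ) : D A (2 * m + 0 + 1) (2 * m + 0 + 0) =
    1 * D rho (m + 0) (m + 0) * D r (m + 1) (m + 0) := by
  rw [Dc A (show 2 * m + 0 + 1 = 2 * (m + 0) + 1 by ring) (show 2 * m + 0 + 0 = 2 * (m + 0) by ring), A_odd0 (m + 0) (m + 0)]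
  try simp only [q_eq]
  try simp only [add_assoc, Nat.reduceAdd, add_zero]
  try simp only [pwm, pwa, pwb, pwc]
  try simp only [pow_add]
  try simp only [add_zero, zero_add, add_assoc, Nat.reduceAdd, Nat.reduceMul, mul_zero, zero_mul, mul_one]
  rcases neg_one_pow_eq_or ℤ m with h | h <;> (try rw [h]) <;> ring

theorem E_A_1_0_1 (m : ℕ) : D A (2 * m + 1 + 1) (2 * m + 1 + 0) =
    1 * (-1) ^ m * D rho (m + 1) (m + 0) * D r (m + 1) (m + 1) := by
  rw [Dc A (show 2 * m + 1 + 1 = 2 * (m + 1) by ring) (show 2 * m + 1 + 0 = 2 * (m + 0) + 1 by ring), A_even (m + 1) (m + 0) 1 (by norm_num)]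
  try simp only [q_eq]
  try simp only [add_assoc, Nat.reduceAdd, add_zero]
  try simp only [pwm, pwa, pwb, pwc]
  try simp only [pow_add]
  try simp only [add_zero, zero_add, add_assoc, Nat.reduceAdd, Nat.reduceMul, mul_zero, zero_mul, mul_one]
  rcases neg_one_pow_eq_or ℤ m with h | h <;> (try rw [h]) <;> ring

theorem E_A_1_1_0 (m : ℕ) : D A (2 * m + 0 + 1) (2 * m + 0 + 1) =
    1 * D r (m + 0) (m + 1) * D rho (m + 1) (m + 0) := by
  rw [Dc A (show 2 * m + 0 + 1 = 2 * (m + 0) + 1 by ring) (show 2 * m + 0 + 1 = 2 * (m + 0) + 1 by ring), A_odd1 (m + 0) (m + 0)]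
  try simp only [q_eq]
  try simp only [add_assoc, Nat.reduceAdd, add_zero]
  try simp only [pwm, pwa, pwb, pwc]
  try simp only [pow_add]
  try simp only [add_zero, zero_add, add_assoc, Nat.reduceAdd, Nat.reduceMul, mul_zero, zero_mul, mul_one]
  rcases neg_one_pow_eq_or ℤ m with h | h <;> (try rw [h]) <;> ring

theorem E_A_1_1_1 (m : ℕ) : D A (2 * m + 1 + 1) (2 * m + 1 + 1) =
    -1 * (-1) ^ m * D rho (m + 1) (m + 1) * D r (m + 1) (m + 1) := by
  rw [Dc A (show 2 * m + 1 + 1 = 2 * (m + 1) by ring) (show 2 * m + 1 + 1 = 2 * (m + 1) + 0 by ring), A_even (m + 1) (m + 1) 0 (by norm_num)]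
  try simp only [q_eq]
  try simp only [add_assoc, Nat.reduceAdd, add_zero]
  try simp only [pwm, pwa, pwb, pwc]
  try simp only [pow_add]
  try simp only [add_zero, zero_add, add_assoc, Nat.reduceAdd, Nat.reduceMul, mul_zero, zero_mul, mul_one]
  rcases neg_one_pow_eq_or ℤ m with h | h <;> (try rw [h]) <;> ring

theorem E_A_2_0_0 (m : ℕ) : D A (2 * m + 0 + 2) (2 * m + 0 + 0) =
    1 * (-1) ^ m * D rho (m + 1) (m + 0) * D r (m + 1) (m + 0) := by
  rw [Dc A (show 2 * m + 0 + 2 = 2 * (m + 1) by ring) (show 2 * m + 0 + 0 = 2 * (m + 0) + 0 by ring), A_even (m + 1) (m + 0) 0 (by norm_num)]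
  try simp only [q_eq]
  try simp only [add_assoc, Nat.reduceAdd, add_zero]
  try simp only [pwm, pwa, pwb, pwc]
  try simp only [pow_add]
  try simp only [add_zero, zero_add, add_assoc, Nat.reduceAdd, Nat.reduceMul, mul_zero, zero_mul, mul_one]
  rcases neg_one_pow_eq_or ℤ m with h | h <;> (try rw [h]) <;> ring

theorem E_A_2_0_1 (m : ℕ) : D A (2 * m + 1 + 2) (2 * m + 1 + 0) =
    1 * D r (m + 1) (m + 1) * D rho (m + 2) (m + 0) := by
  rw [Dc A (show 2 * m + 1 + 2 = 2 * (m + 1) + 1 by ring) (show 2 * m + 1 + 0 = 2 * (m + 0) + 1 by ring), A_odd1 (m + 1) (m + 0)]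
  try simp only [q_eq]
  try simp only [add_assoc, Nat.reduceAdd, add_zero]
  try simp only [pwm, pwa, pwb, pwc]
  try simp only [pow_add]
  try simp only [add_zero, zero_add, add_assoc, Nat.reduceAdd, Nat.reduceMul, mul_zero, zero_mul, mul_one]
  rcases neg_one_pow_eq_or ℤ m with h | h <;> (try rw [h]) <;> ring

theorem E_A_2_1_0 (m : ℕ) : D A (2 * m + 0 + 2) (2 * m + 0 + 1) =
    1 * (-1) ^ m * D rho (m + 1) (m + 0) * D r (m + 1) (m + 1) := by
  rw [Dc A (show 2 * m + 0 + 2 = 2 * (m + 1) by ring) (show 2 * m + 0 + 1 = 2 * (m + 0) + 1 by ring), A_even (m + 1) (m + 0) 1 (by norm_num)]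
  try simp only [q_eq]
  try simp only [add_assoc, Nat.reduceAdd, add_zero]
  try simp only [pwm, pwa, pwb, pwc]
  try simp only [pow_add]
  try simp only [add_zero, zero_add, add_assoc, Nat.reduceAdd, Nat.reduceMul, mul_zero, zero_mul, mul_one]
  rcases neg_one_pow_eq_or ℤ m with h | h <;> (try rw [h]) <;> ring

theorem E_A_2_1_1 (m : ℕ) : D A (2 * m + 1 + 2) (2 * m + 1 + 1) =
    1 * D rho (m + 1) (m + 1) * D r (m + 2) (m + 1) := by
  rw [Dc A (show 2 * m + 1 + 2 = 2 * (m + 1) + 1 by ring) (show 2 * m + 1 + 1 = 2 * (m + 1) by ring), A_odd0 (m + 1) (m + 1)]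
  try simp only [q_eq]
  try simp only [add_assoc, Nat.reduceAdd, add_zero]
  try simp only [pwm, pwa, pwb, pwc]
  try simp only [pow_add]
  try simp only [add_zero, zero_add, add_assoc, Nat.reduceAdd, Nat.reduceMul, mul_zero, zero_mul, mul_one]
  rcases neg_one_pow_eq_or ℤ m with h | h <;> (try rw [h]) <;> ring

theorem E_A_3_0_0 (m : ℕ) : D A (2 * m + 0 + 3) (2 * m + 0 + 0) =
    1 * D rho (m + 1) (m + 0) * D r (m + 2) (m + 0) := by
  rw [Dc A (show 2 * m + 0 + 3 = 2 * (m + 1) + 1 by ring) (show 2 * m + 0 + 0 = 2 * (m + 0) by ring), A_odd0 (m + 1) (m + 0)]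
  try simp only [q_eq]
  try simp only [add_assoc, Nat.reduceAdd, add_zero]
  try simp only [pwm, pwa, pwb, pwc]
  try simp only [pow_add]
  try simp only [add_zero, zero_add, add_assoc, Nat.reduceAdd, Nat.reduceMul, mul_zero, zero_mul, mul_one]
  rcases neg_one_pow_eq_or ℤ m with h | h <;> (try rw [h]) <;> ring

theorem E_A_3_0_1 (m : ℕ) : D A (2 * m + 1 + 3) (2 * m + 1 + 0) =
    1 * (-1) ^ m * D rho (m + 2) (m + 0) * D r (m + 2) (m + 1) := by
  rw [Dc A (show 2 * m + 1 + 3 = 2 * (m + 2) by ring) (show 2 * m + 1 + 0 = 2 * (m + 0) + 1 by ring), A_even (m + 2) (m + 0) 1 (by norm_num)]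
  try simp only [q_eq]
  try simp only [add_assoc, Nat.reduceAdd, add_zero]
  try simp only [pwm, pwa, pwb, pwc]
  try simp only [pow_add]
  try simp only [add_zero, zero_add, add_assoc, Nat.reduceAdd, Nat.reduceMul, mul_zero, zero_mul, mul_one]
  rcases neg_one_pow_eq_or ℤ m with h | h <;> (try rw [h]) <;> ring

theorem E_p_0_1_0 (m : ℕ) : D p (2 * m + 0 + 0) (2 * m + 0 + 1) =
    1 * D r (m + 0) (m + 1) * D r (m + 1) (m + 0) := by
  rw [Dc p (show 2 * m + 0 + 0 = 2 * (m + 0) by ring) (show 2 * m + 0 + 1 = 2 * (m + 0) + 1 by ring), p_even (m + 0) (m + 0) 1 (by norm_num)]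
  try simp only [q_eq]
  try simp only [add_assoc, Nat.reduceAdd, add_zero]
  try simp only [pwm, pwa, pwb, pwc]
  try simp only [pow_add]
  try simp only [add_zero, zero_add, add_assoc, Nat.reduceAdd, Nat.reduceMul, mul_zero, zero_mul, mul_one]
  rcases neg_one_pow_eq_or ℤ m with h | h <;> (try rw [h]) <;> ring

theorem E_p_0_1_1 (m : ℕ) : D p (2 * m + 1 + 0) (2 * m + 1 + 1) =
    -1 * (-1) ^ m * D r (m + 1) (m + 1) * D r (m + 1) (m + 1) := by
  rw [Dc p (show 2 * m + 1 + 0 = 2 * (m + 0) + 1 by ring) (show 2 * m + 1 + 1 = 2 * (m + 1) by ring), p_odd0 (m + 0) (m + 1)]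
  try simp only [q_eq]
  try simp only [add_assoc, Nat.reduceAdd, add_zero]
  try simp only [pwm, pwa, pwb, pwc]
  try simp only [pow_add]
  try simp only [add_zero, zero_add, add_assoc, Nat.reduceAdd, Nat.reduceMul, mul_zero, zero_mul, mul_one]
  rcases neg_one_pow_eq_or ℤ m with h | h <;> (try rw [h]) <;> ring

theorem E_p_1_0_0 (m : ℕ) : D p (2 * m + 0 + 1) (2 * m + 0 + 0) =
    1 * (-1) ^ m * D r (m + 1) (m + 0) * D r (m + 1) (m + 0) := by
  rw [Dc p (show 2 * m + 0 + 1 = 2 * (m + 0) + 1 by ring) (show 2 * m + 0 + 0 = 2 * (m + 0) by ring), p_odd0 (m + 0) (m + 0)]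
  try simp only [q_eq]
  try simp only [add_assoc, Nat.reduceAdd, add_zero]
  try simp only [pwm, pwa, pwb, pwc]
  try simp only [pow_add]
  try simp only [add_zero, zero_add, add_assoc, Nat.reduceAdd, Nat.reduceMul, mul_zero, zero_mul, mul_one]
  rcases neg_one_pow_eq_or ℤ m with h | h <;> (try rw [h]) <;> ring

theorem E_p_1_0_1 (m : ℕ) : D p (2 * m + 1 + 1) (2 * m + 1 + 0) =
    1 * D r (m + 1) (m + 1) * D r (m + 2) (m + 0) := by
  rw [Dc p (show 2 * m + 1 + 1 = 2 * (m + 1) by ring) (show 2 * m + 1 + 0 = 2 * (m + 0) + 1 by ring), p_even (m + 1) (m + 0) 1 (by norm_num)]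
  try simp only [q_eq]
  try simp only [add_assoc, Nat.reduceAdd, add_zero]
  try simp only [pwm, pwa, pwb, pwc]
  try simp only [pow_add]
  try simp only [add_zero, zero_add, add_assoc, Nat.reduceAdd, Nat.reduceMul, mul_zero, zero_mul, mul_one]
  rcases neg_one_pow_eq_or ℤ m with h | h <;> (try rw [h]) <;> ring

theorem E_p_1_1_0 (m : ℕ) : D p (2 * m + 0 + 1) (2 * m + 0 + 1) =
    0 := by
  rw [Dc p (show 2 * m + 0 + 1 = 2 * (m + 0) + 1 by ring) (show 2 * m + 0 + 1 = 2 * (m + 0) + 1 by ring), p_odd1 (m + 0) (m + 0)]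

theorem E_p_1_1_1 (m : ℕ) : D p (2 * m + 1 + 1) (2 * m + 1 + 1) =
    1 * D r (m + 1) (m + 1) * D r (m + 2) (m + 1) := by
  rw [Dc p (show 2 * m + 1 + 1 = 2 * (m + 1) by ring) (show 2 * m + 1 + 1 = 2 * (m + 1) + 0 by ring), p_even (m + 1) (m + 1) 0 (by norm_num)]
  try simp only [q_eq]
  try simp only [add_assoc, Nat.reduceAdd, add_zero]
  try simp only [pwm, pwa, pwb, pwc]
  try simp only [pow_add]
  try simp only [add_zero, zero_add, add_assoc, Nat.reduceAdd, Nat.reduceMul, mul_zero, zero_mul, mul_one]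
  rcases neg_one_pow_eq_or ℤ m with h | h <;> (try rw [h]) <;> ring

theorem E_p_2_1_0 (m : ℕ) : D p (2 * m + 0 + 2) (2 * m + 0 + 1) =
    1 * D r (m + 1) (m + 1) * D r (m + 2) (m + 0) := by
  rw [Dc p (show 2 * m + 0 + 2 = 2 * (m + 1) by ring) (show 2 * m + 0 + 1 = 2 * (m + 0) + 1 by ring), p_even (m + 1) (m + 0) 1 (by norm_num)]
  try simp only [q_eq]
  try simp only [add_assoc, Nat.reduceAdd, add_zero]
  try simp only [pwm, pwa, pwb, pwc]
  try simp only [pow_add]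
  try simp only [add_zero, zero_add, add_assoc, Nat.reduceAdd, Nat.reduceMul, mul_zero, zero_mul, mul_one]
  rcases neg_one_pow_eq_or ℤ m with h | h <;> (try rw [h]) <;> ring

theorem E_p_2_1_1 (m : ℕ) : D p (2 * m + 1 + 2) (2 * m + 1 + 1) =
    -1 * (-1) ^ m * D r (m + 2) (m + 1) * D r (m + 2) (m + 1) := by
  rw [Dc p (show 2 * m + 1 + 2 = 2 * (m + 1) + 1 by ring) (show 2 * m + 1 + 1 = 2 * (m + 1) by ring), p_odd0 (m + 1) (m + 1)]
  try simp only [q_eq]
  try simp only [add_assoc, Nat.reduceAdd, add_zero]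
  try simp only [pwm, pwa, pwb, pwc]
  try simp only [pow_add]
  try simp only [add_zero, zero_add, add_assoc, Nat.reduceAdd, Nat.reduceMul, mul_zero, zero_mul, mul_one]
  rcases neg_one_pow_eq_or ℤ m with h | h <;> (try rw [h]) <;> ring

theorem E_r_0_1_0 (m : ℕ) : D r (2 * m + 0 + 0) (2 * m + 0 + 1) =
    1 * D A (m + 1) (m + 0) * D p (m + 0) (m + 1) := by
  rw [Dc r (show 2 * m + 0 + 0 = 2 * (m + 0) by ring) (show 2 * m + 0 + 1 = 2 * (m + 0) + 1 by ring), r_even (m + 0) (m + 0) 1 (by norm_num)]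
  try simp only [q_eq]
  try simp only [add_assoc, Nat.reduceAdd, add_zero]
  try simp only [pwm, pwa, pwb, pwc]
  try simp only [pow_add]
  try simp only [add_zero, zero_add, add_assoc, Nat.reduceAdd, Nat.reduceMul, mul_zero, zero_mul, mul_one]
  rcases neg_one_pow_eq_or ℤ m with h | h <;> (try rw [h]) <;> ring

theorem E_r_0_1_1 (m : ℕ) : D r (2 * m + 1 + 0) (2 * m + 1 + 1) =
    1 * D A (m + 1) (m + 1) * D p (m + 1) (m + 1) := by
  rw [Dc r (show 2 * m + 1 + 0 = 2 * (m + 0) + 1 by ring) (show 2 * m + 1 + 1 = 2 * (m + 1) by ring), r_odd0 (m + 0) (m + 1)]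
  try simp only [q_eq]
  try simp only [add_assoc, Nat.reduceAdd, add_zero]
  try simp only [pwm, pwa, pwb, pwc]
  try simp only [pow_add]
  try simp only [add_zero, zero_add, add_assoc, Nat.reduceAdd, Nat.reduceMul, mul_zero, zero_mul, mul_one]
  rcases neg_one_pow_eq_or ℤ m with h | h <;> (try rw [h]) <;> ring

theorem E_r_1_0_0 (m : ℕ) : D r (2 * m + 0 + 1) (2 * m + 0 + 0) =
    1 * (-1) ^ m * D A (m + 1) (m + 0) * D p (m + 1) (m + 0) := by
  rw [Dc r (show 2 * m + 0 + 1 = 2 * (m + 0) + 1 by ring) (show 2 * m + 0 + 0 = 2 * (m + 0) by ring), r_odd0 (m + 0) (m + 0)]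
  try simp only [q_eq]
  try simp only [add_assoc, Nat.reduceAdd, add_zero]
  try simp only [pwm, pwa, pwb, pwc]
  try simp only [pow_add]
  try simp only [add_zero, zero_add, add_assoc, Nat.reduceAdd, Nat.reduceMul, mul_zero, zero_mul, mul_one]
  rcases neg_one_pow_eq_or ℤ m with h | h <;> (try rw [h]) <;> ring

theorem E_r_1_0_1 (m : ℕ) : D r (2 * m + 1 + 1) (2 * m + 1 + 0) =
    1 * (-1) ^ m * D A (m + 2) (m + 0) * D p (m + 1) (m + 1) := by
  rw [Dc r (show 2 * m + 1 + 1 = 2 * (m + 1) by ring) (show 2 * m + 1 + 0 = 2 * (m + 0) + 1 by ring), r_even (m + 1) (m + 0) 1 (by norm_num)]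
  try simp only [q_eq]
  try simp only [add_assoc, Nat.reduceAdd, add_zero]
  try simp only [pwm, pwa, pwb, pwc]
  try simp only [pow_add]
  try simp only [add_zero, zero_add, add_assoc, Nat.reduceAdd, Nat.reduceMul, mul_zero, zero_mul, mul_one]
  rcases neg_one_pow_eq_or ℤ m with h | h <;> (try rw [h]) <;> ring

theorem E_r_1_1_0 (m : ℕ) : D r (2 * m + 0 + 1) (2 * m + 0 + 1) =
    1 * D p (m + 0) (m + 1) * D A (m + 2) (m + 0) := by
  rw [Dc r (show 2 * m + 0 + 1 = 2 * (m + 0) + 1 by ring) (show 2 * m + 0 + 1 = 2 * (m + 0) + 1 by ring), r_odd1 (m + 0) (m + 0)]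
  try simp only [q_eq]
  try simp only [add_assoc, Nat.reduceAdd, add_zero]
  try simp only [pwm, pwa, pwb, pwc]
  try simp only [pow_add]
  try simp only [add_zero, zero_add, add_assoc, Nat.reduceAdd, Nat.reduceMul, mul_zero, zero_mul, mul_one]
  rcases neg_one_pow_eq_or ℤ m with h | h <;> (try rw [h]) <;> ring

theorem E_r_1_1_1 (m : ℕ) : D r (2 * m + 1 + 1) (2 * m + 1 + 1) =
    1 * D A (m + 2) (m + 1) * D p (m + 1) (m + 1) := by
  rw [Dc r (show 2 * m + 1 + 1 = 2 * (m + 1) by ring) (show 2 * m + 1 + 1 = 2 * (m + 1) + 0 by ring), r_even (m + 1) (m + 1) 0 (by norm_num)]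
  try simp only [q_eq]
  try simp only [add_assoc, Nat.reduceAdd, add_zero]
  try simp only [pwm, pwa, pwb, pwc]
  try simp only [pow_add]
  try simp only [add_zero, zero_add, add_assoc, Nat.reduceAdd, Nat.reduceMul, mul_zero, zero_mul, mul_one]
  rcases neg_one_pow_eq_or ℤ m with h | h <;> (try rw [h]) <;> ring

theorem E_r_2_0_0 (m : ℕ) : D r (2 * m + 0 + 2) (2 * m + 0 + 0) =
    1 * (-1) ^ m * D A (m + 2) (m + 0) * D p (m + 1) (m + 0) := by
  rw [Dc r (show 2 * m + 0 + 2 = 2 * (m + 1) by ring) (show 2 * m + 0 + 0 = 2 * (m + 0) + 0 by ring), r_even (m + 1) (m + 0) 0 (by norm_num)]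
  try simp only [q_eq]
  try simp only [add_assoc, Nat.reduceAdd, add_zero]
  try simp only [pwm, pwa, pwb, pwc]
  try simp only [pow_add]
  try simp only [add_zero, zero_add, add_assoc, Nat.reduceAdd, Nat.reduceMul, mul_zero, zero_mul, mul_one]
  rcases neg_one_pow_eq_or ℤ m with h | h <;> (try rw [h]) <;> ring

theorem E_r_2_0_1 (m : ℕ) : D r (2 * m + 1 + 2) (2 * m + 1 + 0) =
    1 * (-1) ^ m * D p (m + 1) (m + 1) * D A (m + 3) (m + 0) := by
  rw [Dc r (show 2 * m + 1 + 2 = 2 * (m + 1) + 1 by ring) (show 2 * m + 1 + 0 = 2 * (m + 0) + 1 by ring), r_odd1 (m + 1) (m + 0)]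
  try simp only [q_eq]
  try simp only [add_assoc, Nat.reduceAdd, add_zero]
  try simp only [pwm, pwa, pwb, pwc]
  try simp only [pow_add]
  try simp only [add_zero, zero_add, add_assoc, Nat.reduceAdd, Nat.reduceMul, mul_zero, zero_mul, mul_one]
  rcases neg_one_pow_eq_or ℤ m with h | h <;> (try rw [h]) <;> ring

theorem E_r_2_1_0 (m : ℕ) : D r (2 * m + 0 + 2) (2 * m + 0 + 1) =
    1 * (-1) ^ m * D A (m + 2) (m + 0) * D p (m + 1) (m + 1) := by
  rw [Dc r (show 2 * m + 0 + 2 = 2 * (m + 1) by ring) (show 2 * m + 0 + 1 = 2 * (m + 0) + 1 by ring), r_even (m + 1) (m + 0) 1 (by norm_num)]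
  try simp only [q_eq]
  try simp only [add_assoc, Nat.reduceAdd, add_zero]
  try simp only [pwm, pwa, pwb, pwc]
  try simp only [pow_add]
  try simp only [add_zero, zero_add, add_assoc, Nat.reduceAdd, Nat.reduceMul, mul_zero, zero_mul, mul_one]
  rcases neg_one_pow_eq_or ℤ m with h | h <;> (try rw [h]) <;> ring

theorem E_r_2_1_1 (m : ℕ) : D r (2 * m + 1 + 2) (2 * m + 1 + 1) =
    -1 * (-1) ^ m * D A (m + 2) (m + 1) * D p (m + 2) (m + 1) := by
  rw [Dc r (show 2 * m + 1 + 2 = 2 * (m + 1) + 1 by ring) (show 2 * m + 1 + 1 = 2 * (m + 1) by ring), r_odd0 (m + 1) (m + 1)]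
  try simp only [q_eq]
  try simp only [add_assoc, Nat.reduceAdd, add_zero]
  try simp only [pwm, pwa, pwb, pwc]
  try simp only [pow_add]
  try simp only [add_zero, zero_add, add_assoc, Nat.reduceAdd, Nat.reduceMul, mul_zero, zero_mul, mul_one]
  rcases neg_one_pow_eq_or ℤ m with h | h <;> (try rw [h]) <;> ring

theorem E_rho_0_0_0 (m : ℕ) : D rho (2 * m + 0 + 0) (2 * m + 0 + 0) =
    1 * (-1) ^ m * D A (m + 1) (m + 0) * D A (m + 1) (m + 0) := by
  rw [Dc rho (show 2 * m + 0 + 0 = 2 * (m + 0) by ring) (show 2 * m + 0 + 0 = 2 * (m + 0) by ring), rho_even0 (m + 0) (m + 0)]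
  try simp only [q_eq]
  try simp only [add_assoc, Nat.reduceAdd, add_zero]
  try simp only [pwm, pwa, pwb, pwc]
  try simp only [pow_add]
  try simp only [add_zero, zero_add, add_assoc, Nat.reduceAdd, Nat.reduceMul, mul_zero, zero_mul, mul_one]
  rcases neg_one_pow_eq_or ℤ m with h | h <;> (try rw [h]) <;> ring

theorem E_rho_0_0_1 (m : ℕ) : D rho (2 * m + 1 + 0) (2 * m + 1 + 0) =
    1 * D A (m + 1) (m + 1) * D A (m + 2) (m + 0) := by
  rw [Dc rho (show 2 * m + 1 + 0 = 2 * (m + 0) + 1 by ring) (show 2 * m + 1 + 0 = 2 * (m + 0) + 1 by ring), rho_odd (m + 0) (m + 0) 1 (by norm_num)]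
  try simp only [q_eq]
  try simp only [add_assoc, Nat.reduceAdd, add_zero]
  try simp only [pwm, pwa, pwb, pwc]
  try simp only [pow_add]
  try simp only [add_zero, zero_add, add_assoc, Nat.reduceAdd, Nat.reduceMul, mul_zero, zero_mul, mul_one]
  rcases neg_one_pow_eq_or ℤ m with h | h <;> (try rw [h]) <;> ring

theorem E_rho_1_0_0 (m : ℕ) : D rho (2 * m + 0 + 1) (2 * m + 0 + 0) =
    1 * (-1) ^ m * D A (m + 1) (m + 0) * D A (m + 2) (m + 0) := by
  rw [Dc rho (show 2 * m + 0 + 1 = 2 * (m + 0) + 1 by ring) (show 2 * m + 0 + 0 = 2 * (m + 0) + 0 by ring), rho_odd (m + 0) (m + 0) 0 (by norm_num)]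
  try simp only [q_eq]
  try simp only [add_assoc, Nat.reduceAdd, add_zero]
  try simp only [pwm, pwa, pwb, pwc]
  try simp only [pow_add]
  try simp only [add_zero, zero_add, add_assoc, Nat.reduceAdd, Nat.reduceMul, mul_zero, zero_mul, mul_one]
  rcases neg_one_pow_eq_or ℤ m with h | h <;> (try rw [h]) <;> ring

theorem E_rho_1_0_1 (m : ℕ) : D rho (2 * m + 1 + 1) (2 * m + 1 + 0) =
    0 := by
  rw [Dc rho (show 2 * m + 1 + 1 = 2 * (m + 1) by ring) (show 2 * m + 1 + 0 = 2 * (m + 0) + 1 by ring), rho_even1 (m + 1) (m + 0)]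

theorem E_rho_1_1_0 (m : ℕ) : D rho (2 * m + 0 + 1) (2 * m + 0 + 1) =
    1 * D A (m + 1) (m + 1) * D A (m + 2) (m + 0) := by
  rw [Dc rho (show 2 * m + 0 + 1 = 2 * (m + 0) + 1 by ring) (show 2 * m + 0 + 1 = 2 * (m + 0) + 1 by ring), rho_odd (m + 0) (m + 0) 1 (by norm_num)]
  try simp only [q_eq]
  try simp only [add_assoc, Nat.reduceAdd, add_zero]
  try simp only [pwm, pwa, pwb, pwc]
  try simp only [pow_add]
  try simp only [add_zero, zero_add, add_assoc, Nat.reduceAdd, Nat.reduceMul, mul_zero, zero_mul, mul_one]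
  rcases neg_one_pow_eq_or ℤ m with h | h <;> (try rw [h]) <;> ring

theorem E_rho_1_1_1 (m : ℕ) : D rho (2 * m + 1 + 1) (2 * m + 1 + 1) =
    -1 * (-1) ^ m * D A (m + 2) (m + 1) * D A (m + 2) (m + 1) := by
  rw [Dc rho (show 2 * m + 1 + 1 = 2 * (m + 1) by ring) (show 2 * m + 1 + 1 = 2 * (m + 1) by ring), rho_even0 (m + 1) (m + 1)]
  try simp only [q_eq]
  try simp only [add_assoc, Nat.reduceAdd, add_zero]
  try simp only [pwm, pwa, pwb, pwc]
  try simp only [pow_add]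
  try simp only [add_zero, zero_add, add_assoc, Nat.reduceAdd, Nat.reduceMul, mul_zero, zero_mul, mul_one]
  rcases neg_one_pow_eq_or ℤ m with h | h <;> (try rw [h]) <;> ring

theorem E_rho_2_0_0 (m : ℕ) : D rho (2 * m + 0 + 2) (2 * m + 0 + 0) =
    1 * (-1) ^ m * D A (m + 2) (m + 0) * D A (m + 2) (m + 0) := by
  rw [Dc rho (show 2 * m + 0 + 2 = 2 * (m + 1) by ring) (show 2 * m + 0 + 0 = 2 * (m + 0) by ring), rho_even0 (m + 1) (m + 0)]
  try simp only [q_eq]
  try simp only [add_assoc, Nat.reduceAdd, add_zero]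
  try simp only [pwm, pwa, pwb, pwc]
  try simp only [pow_add]
  try simp only [add_zero, zero_add, add_assoc, Nat.reduceAdd, Nat.reduceMul, mul_zero, zero_mul, mul_one]
  rcases neg_one_pow_eq_or ℤ m with h | h <;> (try rw [h]) <;> ring

theorem E_rho_2_0_1 (m : ℕ) : D rho (2 * m + 1 + 2) (2 * m + 1 + 0) =
    -1 * D A (m + 2) (m + 1) * D A (m + 3) (m + 0) := by
  rw [Dc rho (show 2 * m + 1 + 2 = 2 * (m + 1) + 1 by ring) (show 2 * m + 1 + 0 = 2 * (m + 0) + 1 by ring), rho_odd (m + 1) (m + 0) 1 (by norm_num)]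
  try simp only [q_eq]
  try simp only [add_assoc, Nat.reduceAdd, add_zero]
  try simp only [pwm, pwa, pwb, pwc]
  try simp only [pow_add]
  try simp only [add_zero, zero_add, add_assoc, Nat.reduceAdd, Nat.reduceMul, mul_zero, zero_mul, mul_one]
  rcases neg_one_pow_eq_or ℤ m with h | h <;> (try rw [h]) <;> ring

def T (m : ℕ) : List ℤ := [(-1) ^ m, r m, p m,
  D A (m + 1) (m + 0),
  D A (m + 1) (m + 1),
  D A (m + 2) (m + 0),
  D A (m + 2) (m + 1),
  D A (m + 3) (m + 0),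
  D p (m + 0) (m + 1),
  D p (m + 1) (m + 0),
  D p (m + 1) (m + 1),
  D p (m + 2) (m + 1),
  D r (m + 0) (m + 1),
  D r (m + 1) (m + 0),
  D r (m + 1) (m + 1),
  D r (m + 2) (m + 0),
  D r (m + 2) (m + 1),
  D rho (m + 0) (m + 0),
  D rho (m + 1) (m + 0),
  D rho (m + 1) (m + 1),
  D rho (m + 2) (m + 0)]

def Phi0 : List ℤ → List ℤ
  | [s, r0, p0, f0, f1, f2, f3, f4, f5, f6, f7, f8, f9, f10, f11, f12, f13, f14, f15, f16, f17] =>
    [1,
     p0,
     r0,
     1 * f14 * f10,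
     1 * f9 * f15,
     1 * s * f15 * f10,
     1 * s * f15 * f11,
     1 * f15 * f12,
     1 * f9 * f10,
     1 * s * f10 * f10,
     0,
     1 * f11 * f12,
     1 * f0 * f5,
     1 * s * f0 * f6,
     1 * f5 * f2,
     1 * s * f2 * f6,
     1 * s * f2 * f7,
     1 * s * f0 * f0,
     1 * s * f0 * f2,
     1 * f1 * f2,
     1 * s * f2 * f2]
  | _ => []

def Phi1 : List ℤ → List ℤ
  | [s, r0, p0, f0, f1, f2, f3, f4, f5, f6, f7, f8, f9, f10, f11, f12, f13, f14, f15, f16, f17] =>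
    [-1,
     p0,
     0,
     1 * s * f15 * f11,
     -1 * s * f16 * f11,
     1 * f11 * f17,
     1 * f16 * f13,
     1 * s * f17 * f13,
     -1 * s * f11 * f11,
     1 * f11 * f12,
     1 * f11 * f13,
     -1 * s * f13 * f13,
     1 * f1 * f7,
     1 * s * f2 * f7,
     1 * f3 * f7,
     1 * s * f7 * f4,
     -1 * s * f3 * f8,
     1 * f1 * f2,
     0,
     -1 * s * f3 * f3,
     -1 * f3 * f4]
  | _ => []

def L : List (List ℤ) := [
  [1, 1, 1, 1, 1, 1, 1, 1, 1, 1, 0, 1, 1, 1, 1, 1, 0, 1, 1, 1, 1],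
  [-1, 1, 0, 1, -1, 1, 0, 0, -1, 1, 0, 0, 0, 0, 0, 0, -1, 1, 0, -1, -1],
  [1, 0, 1, 0, 0, 0, 0, 0, 0, 0, 0, 0, -1, -1, -1, -1, 0, -1, -1, -1, -1],
  [-1, 0, 0, 0, 0, 0, 1, -1, 0, 0, 0, 1, 0, 0, 0, 0, 0, -1, 0, 0, 0],
  [1, 1, 0, 1, 1, 1, 1, 1, 1, 1, 0, 1, 0, 0, 0, 0, 0, 0, 0, 0, 0],
  [-1, 1, 0, 1, -1, 1, 0, 0, -1, 1, 0, 0, 0, 0, 0, 0, 0, 0, 0, 0, 0],
  [1, 0, 0, 0, 0, 0, 0, 0, 0, 0, 0, 0, 0, 0, 0, 0, 0, 0, 0, 0, 0],
  [-1, 0, 0, 0, 0, 0, 0, 0, 0, 0, 0, 0, 0, 0, 0, 0, 1, 0, 0, 1, 1],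
  [1, 0, 1, 0, 0, 0, 0, 0, 0, 0, 0, 0, 1, 1, 1, 1, 0, 1, 1, 1, 1],
  [-1, 0, 0, 0, 0, 0, 0, 0, 0, 0, 0, 0, 0, 0, 0, 0, -1, 1, 0, -1, -1],
  [-1, 0, 0, 0, 0, 0, 0, 0, 0, 0, 0, 0, 0, 0, 0, 0, 0, -1, 0, 0, 0],
  [-1, 0, 0, 0, 0, 0, 0, 0, 0, 0, 0, 0, 0, 0, 0, 0, 0, 0, 0, 0, 0],
  [-1, 0, 0, 0, 0, 0, 1, -1, 0, 0, 0, 1, 0, 0, 0, 0, 0, 0, 0, 0, 0]]

theorem T_0 (m : ℕ) : T (2 * m + 0) = Phi0 (T m) := by
  simp only [T, Phi0]
  rw [E_A_1_0_0, E_A_1_1_0, E_A_2_0_0, E_A_2_1_0, E_A_3_0_0, E_p_0_1_0, E_p_1_0_0, E_p_1_1_0, E_p_2_1_0, E_r_0_1_0, E_r_1_0_0, E_r_1_1_0, E_r_2_0_0, E_r_2_1_0, E_rho_0_0_0, E_rho_1_0_0, E_rho_1_1_0, E_rho_2_0_0]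
  have h1 : (-1 : ℤ) ^ (2 * m + 0) = 1 := by rw [pow_add, pow_mul]; simp
  rw [h1, add_zero (2 * m), r_two, p_two]

theorem T_1 (m : ℕ) : T (2 * m + 1) = Phi1 (T m) := by
  simp only [T, Phi1]
  rw [E_A_1_0_1, E_A_1_1_1, E_A_2_0_1, E_A_2_1_1, E_A_3_0_1, E_p_0_1_1, E_p_1_0_1, E_p_1_1_1, E_p_2_1_1, E_r_0_1_1, E_r_1_0_1, E_r_1_1_1, E_r_2_0_1, E_r_2_1_1, E_rho_0_0_1, E_rho_1_0_1, E_rho_1_1_1, E_rho_2_0_1]
  have h1 : (-1 : ℤ) ^ (2 * m + 1) = -1 := by rw [pow_add, pow_mul]; simp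
  rw [h1, r_odd, p_odd]

theorem L_closed : ∀ v ∈ L, Phi0 v ∈ L ∧ Phi1 v ∈ L := by decide

theorem T_zero : T 0 ∈ L := by
  have hr0 : r 0 = 1 := r_zero
  have hr1 : r 1 = 1 := by have := r_odd 0; have h2 := p_two 0; simp at this h2; rw [this, h2, hr0]
  have hp0 : p 0 = 1 := by have h2 := p_two 0; simpa [hr0] using h2
  have hp1 : p 1 = 0 := p_odd 0
  have hp2 : p 2 = 1 := by have h2 := p_two 1; simpa [hr1] using h2
  have hr2 : r 2 = 0 := by have h2 := r_two 1; simpa [hp1] using h2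
  have hr3 : r 3 = 0 := by have h2 := r_odd 1; simpa [hp1] using h2
  have hA1 : A 1 = 1 := by simpa [hr0] using A_odd 0
  have hA2 : A 2 = 1 := by simpa [hr1] using A_two 1
  have hrho1 : rho 1 = 1 := by rw [rho, hr1, hr2]; norm_num
  simp only [T, zero_add, add_zero, D_zero, D_one, hr0, hp0, hr1, hr2, hp1, hp2, hA1, hA2, hrho1, pow_zero]
  decide

theorem T_mem (n : ℕ) : T n ∈ L := by
  induction n using Nat.strong_induction_on with
  | _ n ih =>
    rcases Nat.eq_zero_or_pos n with h | h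
    · subst h; exact T_zero
    · rcases Nat.even_or_odd' n with ⟨m, hm | hm⟩
      · have := L_closed _ (ih m (by omega))
        have h0 := T_0 m
        rw [add_zero] at h0
        rw [hm, h0]; exact this.1
      · have := L_closed _ (ih m (by omega))
        rw [hm, T_1 m]; exact this.2

theorem L_diag : ∀ v ∈ L, v.getD 5 0 = v.getD 1 0 := by decide

theorem diag (n : ℕ) : D A (n + 2) n = r n := by
  have := L_diag _ (T_mem n)
  simpa [T] using this

end Pool.Agent.Q280.TMSeq
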